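import Pool.Agent.H85.DG.Defs
import Pool.Agent.H15.G1.Defs
import Pool.Agent.H82.DG.OpD

/-!
# Module OpD: the nonlinear touching inequality for `-1 ≤ a < 0`, Hölder exponent `1 > 2s`

As `op_g` (H15/G1/Blk.lean, `0 ≤ a`), `op_w` (H48/PW/Blk.lean): the proof uses `a` only through `(v_e-w_e) PhS ≤ |v-w|^(1+a)`, measurability and `1 + a ≥ 0`. Owner: helper67.
-/

set_option autoImplicit false

open MeasureTheory Set Filter Topology Pool.Agent.H25.Kin Pool.Agent.H82.BK Pool.Agent.H82.CM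
open Pool.Agent.H48.PL Pool.Agent.H48.PI Pool.Agent.H48.PW Pool.Agent.H48.PV

namespace Pool.Agent.H85.DG

variable {d : ℕ} {s a C Ca cb : ℝ} {b : ℝ → ℝ}

theorem op_d (HL : HypL d (1 + a) s b C Ca cb) (ha : -1 ≤ a) (ha0 : a < 0) (hs1 : 2 * s < 1) {p : ℕ}
    (hp : (d : ℝ) + (1 + a) + 4 ≤ 2 * p) (e : Fin d) :
    ∃ K₀ κ δ₁ : ℝ, 0 ≤ K₀ ∧ 0 < κ ∧ 0 < δ₁ ∧ δ₁ ≤ 1 ∧ ∀ C₀ R : ℝ, 0 < C₀ → 1 ≤ R →
    ∃ N₁ : ℝ, 0 < N₁ ∧ ∀ g g₁ : Vec d → ℝ, Nice g → (∀ u, 0 ≤ g u) → Measurable g₁ → (∀ u, 0 ≤ g₁ u) →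
      (∀ u, g₁ u ≤ g u) → (∀ u, g₁ u ≤ C₀) → (∀ u, R < jb u → g₁ u = 0) →
      ∀ v : Vec d, TouchS δ₁ 1 p g v → N₁ ≤ g v * (1 + nsq v) ^ p →
      boltzQ (1 + a) b g v ≤ g v * (K₀ * (∫ w, (v e - w e) * PhS e a v w * (g w - g₁ w)) -
        κ * ∫ w, len (v - w) ^ (1 + a) * g₁ w) :=
  Pool.Agent.H82.DG.op_wn HL ha hs1 le_rfl hp e

end Pool.Agent.H85.DG
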