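import Pool.Agent.H85.DG.FDef
import Pool.Agent.H25.PN.Main

/-!
# Module DirD: from the coordinate directions to all directions

As `est_prim`, `est_all` (H25/PN/Main.lean; also `est_allB`, H48/PG/DirB.lean; copy). `sol_pull`: the pulled back solution solves the equation for `lam⁻¹ b`; `Ms`, `U`, `K` come from `hIn (lam⁻¹ b)`. The total mass is the same (`cube_mass`, `pullT_zero`), `(1 + nsq v)^p` is invariant under `A` (`h.iso`), so the class `(Ms, p, α)` is the same.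
For a function `F₀` which is not the initial value of a solution with the symmetry the statements are empty: take cases as in `planar_rapid_gen` (H48/PW/FinG.lean), `cube_mass` needs `Slice F₀` (`sol_slice`) and the symmetry of `F₀`.
-/

set_option autoImplicit false

open MeasureTheory Set Filter Topology Pool.Agent.H25.Kin Pool.Agent.H82.BK Pool.Agent.H82.CM
open Pool.Agent.H48.PL Pool.Agent.H48.PI Pool.Agent.H93.CM Pool.Agent.H25.PN

namespace Pool.Agent.H85.DG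

variable {d : ℕ}

private theorem dirD_prim {e : Fin d} {lam : ℝ} {k : Vec d} {A : Vec d →ₗ[ℝ] Vec d} (hd : 2 ≤ d) {s γ : ℝ} (hs : 0 < s)
    (hs1 : s < 1) (h0 : 0 ≤ γ + 2 * s) (h2 : γ + 2 * s ≤ 2)
    (hIn : ∀ b : ℝ → ℝ, IsKernel d s b → ∀ e : Fin d, DilE d γ b (Planar e)) {b : ℝ → ℝ} (hb : IsKernel d s b)
    (hk : Prim k) (h : Rot e lam k A) : DilE d γ b (PlaneSym k) := by
  have sol : ∀ {T : ℝ} {f : ℝ → Vec d → Vec d → ℝ}, IsBoltzmannSol γ b T f → PlaneSym k T f →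
      IsBoltzmannSol γ (fun z => lam⁻¹ * b z) (lam * T) (pullT e lam k A f) := fun hf hP =>
    sol_pull hd hs hs1 h0 h2 hb h hk hf hP
  have key : ∀ {r C : ℝ} {N : ℕ} {v : Vec d}, 0 ≤ r → (1 + ‖A v‖) ^ N * r ≤ C →
      (1 + ‖v‖) ^ N * r ≤ (d + 1 : ℝ) ^ N * C := by
    intro r C N v h8 h7
    have h9 : (1 + ‖v‖) ^ N ≤ ((d + 1 : ℝ) * (1 + ‖A v‖)) ^ N :=
      pow_le_pow_left₀ (w_pos v).le (norm_rot h v) N
    calc (1 + ‖v‖) ^ N * r ≤ ((d + 1 : ℝ) * (1 + ‖A v‖)) ^ N * r := mul_le_mul_of_nonneg_right h9 h8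
      _ = (d + 1 : ℝ) ^ N * ((1 + ‖A v‖) ^ N * r) := by rw [mul_pow]; ring
      _ ≤ (d + 1 : ℝ) ^ N * C := mul_le_mul_of_nonneg_left h7 (by positivity)
  -- the class is the same for the pulled back initial value
  have cls : ∀ {T : ℝ} {f : ℝ → Vec d → Vec d → ℝ}, 0 < T → IsBoltzmannSol γ b T f → PlaneSym k T f →
      (∫ x in Icc (0 : Vec d) 1, ∫ v, pull e lam k A (f 0) x v) = ∫ x in Icc (0 : Vec d) 1, ∫ v, f 0 x v := by
    intro T f hT hf hP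
    have hT0 : (0 : ℝ) ∈ Ico 0 T := ⟨le_rfl, hT⟩
    exact cube_mass h hk (Pool.Agent.H15.AV.sol_slice hf hT0) (hP 0 hT0)
  have pw : ∀ {F : Vec d → Vec d → ℝ} {p : ℕ} {C : ℝ}, (∀ x v, F x v * (1 + nsq v) ^ p ≤ C) →
      ∀ x v, pull e lam k A F x v * (1 + nsq v) ^ p ≤ C := by
    intro F p C hF x v
    rw [← h.iso v]
    exact hF _ _
  intro p hp α
  obtain ⟨Ms, hMs, E1, E2⟩ := hIn (fun z => lam⁻¹ * b z) (kernel_scale hb (inv_pos.2 h.pos)) e p hp α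
  refine ⟨Ms, hMs, fun F₀ hF1 hF2 => ?_, fun p₁ hp₁ => ?_⟩
  · by_cases hex : ∃ (T : ℝ) (f : ℝ → Vec d → Vec d → ℝ), 0 < T ∧ IsBoltzmannSol γ b T f ∧ PlaneSym k T f ∧ f 0 = F₀
    swap
    · refine ⟨⟨fun _ => 0, 0, fun T f hf hpl h0 t ht x => ?_⟩, fun _ => ⟨1, one_pos, 0, fun T f hf hpl h0 t ht x => ?_⟩⟩
      · exact absurd ⟨T, f, ht.1.trans_lt ht.2, hf, hpl, h0⟩ hex
      · exact absurd ⟨T, f, ht.1.trans_lt ht.2, hf, hpl, h0⟩ hex
    obtain ⟨T₁, f₁, hT₁, hf₁, hP₁, h₁⟩ := hex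
    have hmass := cls hT₁ hf₁ hP₁
    rw [h₁] at hmass
    obtain ⟨E3, E4⟩ := E1 (pull e lam k A F₀) (by rw [hmass]; exact hF1) (by rw [hmass]; exact pw hF2)
    refine ⟨?_, fun hF => ?_⟩
    · obtain ⟨U, M₀, hU⟩ := E3
      refine ⟨fun N => (d + 1 : ℝ) ^ N * U N, M₀, fun T f hf hP hf0 t ht x => ?_⟩
      obtain ⟨h3, h4, h5, h6⟩ := hU _ _ (sol hf hP) (solA_planar f _) (by rw [pullT_zero, hf0]) _ (mem_lam h ht)
        (Pi.single e (dot k x))
      obtain ⟨b1, b2, b3⟩ := back_int h hP ht x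
      refine ⟨fun N v => ?_, b1 ▸ h4, b2 ▸ h5, b3 ▸ h6⟩
      have h7 := h3 N (A v)
      rw [← back_eq h hP ht x v] at h7
      exact key (hf.nonneg t ht x v) h7
    · have hG : ∀ x, 0 < ∫ v, pull e lam k A F₀ x v := fun x => by
        unfold pull
        rw [int_rot h (fun v => F₀ ((x e / lam ^ 2) • k) v)]
        exact hF _
      obtain ⟨m₀, hm₀, M₀, hM⟩ := E4 hG
      refine ⟨m₀, hm₀, M₀, fun T f hf hP hf0 t ht x => ?_⟩
      obtain ⟨h3, h4, h5, h6⟩ := hM _ _ (sol hf hP) (solA_planar f _) (by rw [pullT_zero, hf0]) _ (mem_lam h ht)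
        (Pi.single e (dot k x))
      obtain ⟨b1, b2, b3⟩ := back_int h hP ht x
      exact ⟨b1 ▸ h3, b1 ▸ h4, b2 ▸ h5, b3 ▸ h6⟩
  · obtain ⟨K, hK0, hK⟩ := E2 p₁ hp₁
    refine ⟨K, hK0, fun T f hf hP g0 g1 A₁ hA t ht x v => ?_⟩
    have hmass := cls (ht.1.trans_lt ht.2) hf hP
    have h7 := hK _ _ (sol hf hP) (solA_planar f _)
      (by rw [pullT_zero, hmass]; exact g0)
      (by rw [pullT_zero, hmass]; exact pw g1) A₁
      (by rw [pullT_zero]; exact pw hA) _ (mem_lam h ht) (Pi.single e (dot k x)) (A v)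
    rwa [pullT_zero, hmass, ← back_eq h hP ht x v, h.iso] at h7

theorem dir_D (hd : 2 ≤ d) {s γ : ℝ} (hs : 0 < s) (hs1 : s < 1) (h0 : 0 ≤ γ + 2 * s) (h2 : γ + 2 * s ≤ 2)
    (hIn : ∀ b : ℝ → ℝ, IsKernel d s b → ∀ e : Fin d, DilE d γ b (Planar e)) {b : ℝ → ℝ} (hb : IsKernel d s b)
    {ν : Vec d} (hν : ν ≠ 0) : DilE d γ b (PlaneSym ν) := by
  rcases dir_cases hν with hD | ⟨c, k, hc, hck, hk0, hk⟩
  · exact (hIn b hb ⟨0, by omega⟩).mono fun T f hf hP => dense_planar hν hD hf hP _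
  · obtain ⟨lam, A, h⟩ := exists_rot (⟨0, by omega⟩ : Fin d) hk0
    refine (dirD_prim hd hs hs1 h0 h2 hIn hb hk h).mono fun T f hf hP t ht x y v hxy => hP t ht x y v ?_
    rw [hck, smul_dot, smul_dot, hxy]

end Pool.Agent.H85.DG
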