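import Pool.Agent.H85.DG.Defs
import Pool.Agent.H25.PN.ScaB

/-!
# Module ScaD: the amplitude scaling `h = f/M`

`IsClassicalSol T Q f` and `0 < c` give `IsClassicalSol T (c Q) (c f)`: all fields are homogeneous (`derivs12 (c f) = c derivs12 f`: `fderiv_const_mul` where `unc f` is differentiable, i.e. `0 < t < T`; `transport (c f) = c transport f`). `boltzCut γ (M b) ε (M⁻¹ g) v = M⁻¹ boltzCut γ b ε g v` (`kerB` is linear in `b`, the integrand quadratic in `g`),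
so `boltzQ γ (M b) (M⁻¹ g) v = M⁻¹ boltzQ γ b g v` (`boltz_tendsto` for `Nice g`, `Tendsto.limUnder_eq`; or `boltzQ_scale` of H25/PN/ScaB.lean for the factor in `b` and the same proof for the amplitude). The slices are `Nice` (`IsClassicalSol.nice`).
-/

set_option autoImplicit false

open MeasureTheory Set Filter Topology Pool.Agent.H25.Kin Pool.Agent.H82.BK Pool.Agent.H82.CM
open Pool.Agent.H48.PL Pool.Agent.H48.PI Pool.Agent.H48.PW Pool.Agent.H48.PV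

namespace Pool.Agent.H85.DG

variable {d : ℕ} {s γ T : ℝ} {b : ℝ → ℝ} {f : ℝ → Vec d → Vec d → ℝ}

private lemma scaD_kerB (γ : ℝ) (b : ℝ → ℝ) (μ ε : ℝ) (v w σ : Vec d) :
    kerB γ (fun x => μ * b x) ε v w σ = μ * kerB γ b ε v w σ := by
  unfold kerB
  split_ifs with h
  · ring
  · ring

private lemma scaD_cut (γ : ℝ) (b : ℝ → ℝ) (μ c ε : ℝ) (g : Vec d → ℝ) (v : Vec d) :
    boltzCut γ (fun x => μ * b x) ε (fun w => c * g w) v = (μ * c ^ 2) * boltzCut γ b ε g v := by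
  unfold boltzCut
  rw [← integral_const_mul]
  congr 1
  funext w
  rw [← integral_const_mul]
  congr 1
  funext σ
  rw [scaD_kerB]
  ring

private lemma scaD_unc (c : ℝ) (f : ℝ → Vec d → Vec d → ℝ) :
    unc (fun t x v => c * f t x v) = c • unc f := by
  funext p
  simp [unc]

private lemma scaD_fd {E : Type*} [NormedAddCommGroup E] [NormedSpace ℝ E] (c : ℝ) (F : E → ℝ) :
    fderiv ℝ (c • F) = c • fderiv ℝ F := by
  exact fderiv_const_smul_field c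

private lemma scaD_fd2 {E : Type*} [NormedAddCommGroup E] [NormedSpace ℝ E] (c : ℝ) (F : E → ℝ) (p : E) :
    fderiv ℝ (fderiv ℝ (c • F)) p = c • fderiv ℝ (fderiv ℝ F) p := by
  have h := fderiv_const_smul_field (𝕜 := ℝ) (F := E →L[ℝ] ℝ) (f := fderiv ℝ F) c
  rw [scaD_fd, h]
  rfl

private lemma scaD_derivs (c : ℝ) (f : ℝ → Vec d → Vec d → ℝ) (t : ℝ) (x v : Vec d) :
    derivs12 (fun t x v => c * f t x v) t x v = |c| * derivs12 f t x v := by
  have hi := NormedSpace.toNormSMulClass (𝕜 := ℝ) (E := ℝ × Vec d × Vec d →L[ℝ] (ℝ × Vec d × Vec d →L[ℝ] ℝ))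
  have h1 : ‖c • fderiv ℝ (fderiv ℝ (unc f)) (t, x, v)‖ = |c| * ‖fderiv ℝ (fderiv ℝ (unc f)) (t, x, v)‖ :=
    norm_smul c _
  have h2 : ‖c • fderiv ℝ (unc f) (t, x, v)‖ = |c| * ‖fderiv ℝ (unc f) (t, x, v)‖ := norm_smul c _
  unfold derivs12 derivs
  rw [scaD_unc, scaD_fd2, scaD_fd, Pi.smul_apply, h1, h2]
  ring

private lemma scaD_transport (c : ℝ) (f : ℝ → Vec d → Vec d → ℝ) (t : ℝ) (x v : Vec d) :
    transport (fun t x v => c * f t x v) t x v = c * transport f t x v := by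
  unfold transport
  rw [scaD_unc, scaD_fd, Pi.smul_apply]
  rfl

theorem amp_sol (hd : 2 ≤ d) (hs : 0 < s) (hs1 : s < 1) (h0 : 0 ≤ γ + 2 * s) (h2 : γ + 2 * s ≤ 2)
    (hb : IsKernel d s b) {M : ℝ} (hM : 0 < M) (hf : IsBoltzmannSol γ b T f) :
    IsBoltzmannSol γ (fun x => M * b x) T (fun t x v => M⁻¹ * f t x v) := by
  have hc : 0 < M⁻¹ := inv_pos.2 hM
  refine ⟨?_, ?_, ?_, ?_, ?_, ?_, ?_⟩
  · intro t ht x v
    exact mul_nonneg hc.le (hf.nonneg t ht x v)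
  · intro t ht x v i
    show M⁻¹ * f t (x + Pi.single i 1) v = M⁻¹ * f t x v
    rw [hf.periodic t ht x v i]
  · show ContinuousOn (unc (fun t x v => M⁻¹ * f t x v)) (Ico 0 T ×ˢ univ)
    rw [scaD_unc]
    exact hf.cont.const_smul M⁻¹
  · show ContDiffOn ℝ 2 (unc (fun t x v => M⁻¹ * f t x v)) (Ioo 0 T ×ˢ univ)
    rw [scaD_unc]
    exact hf.smooth.const_smul M⁻¹
  · intro T₁ hT N
    obtain ⟨C, hC⟩ := hf.decay T₁ hT N
    refine ⟨M⁻¹ * C, fun t ht x v => ?_⟩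
    calc (1 + ‖v‖) ^ N * (M⁻¹ * f t x v) = M⁻¹ * ((1 + ‖v‖) ^ N * f t x v) := by ring
      _ ≤ M⁻¹ * C := mul_le_mul_of_nonneg_left (hC t ht x v) hc.le
  · intro T₀ hT0 T₁ hT N
    obtain ⟨C, hC⟩ := hf.decay12 T₀ hT0 T₁ hT N
    refine ⟨M⁻¹ * C, fun t ht x v => ?_⟩
    rw [scaD_derivs, abs_of_pos hc]
    calc (1 + ‖v‖) ^ N * (M⁻¹ * derivs12 f t x v) = M⁻¹ * ((1 + ‖v‖) ^ N * derivs12 f t x v) := by ring
      _ ≤ M⁻¹ * C := mul_le_mul_of_nonneg_left (hC t ht x v) hc.le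
  · intro t ht x v
    obtain ⟨C, Ca, H⟩ := exists_hyp (γ := γ) hd hs hs1 h0 h2 hb
    have h := (boltz_tendsto H (IsClassicalSol.nice hf ht x) v).const_mul (M * M⁻¹ ^ 2)
    have h3 : boltzQ γ (fun x => M * b x) (fun w => M⁻¹ * f t x w) v =
        limUnder (𝓝[>] (0 : ℝ)) fun ε => (M * M⁻¹ ^ 2) * boltzCut γ b ε (f t x) v := by
      unfold boltzQ
      congr 1
      funext ε
      exact scaD_cut γ b M M⁻¹ ε (f t x) v
    show transport (fun t x v => M⁻¹ * f t x v) t x v =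
      boltzQ γ (fun x => M * b x) (fun w => M⁻¹ * f t x w) v
    rw [h3, h.limUnder_eq, scaD_transport, hf.solves t ht x v]
    have hMM : M * M⁻¹ ^ 2 = M⁻¹ := by
      field_simp
    rw [hMM]

end Pool.Agent.H85.DG
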