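import Pool.Agent.H85.DG.FDef
import Pool.Agent.H85.DG.ScaD
import Pool.Agent.H48.PW.FinG
import Pool.Agent.H48.PI.MassI

/-!
# Module FinD: from `DilH` to the estimates for the solutions, coordinate directions

`p, α` given: `Ms` from `DilH d γ b e` (`hH`). Let `m = ∫ x in Icc 0 1, ∫ v, f 0 x v` (`= ∫ f 0 dν`, `mass_iter`, see H48/PG/HydB, PV/RegU). If `m = 0`: `f = 0` (`mass_const`, `zero_of_mass`, as in H48/PW/FinG.lean). If `0 < m ≤ Ms`: `h = m⁻¹ f` solves the equation for `m b` (`amp_sol`), is planar, has mass `1`, `h 0 W ≤ α`.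
* last clause (`dil_quant`): `DilH` with `A₁/m`: `h t W₁ ≤ K (A₁/m + 1)`, multiply by `m`: `f t W₁ ≤ K (A₁ + m)`.
* first clause: if there is a solution `f₁` with `T₁ > 0` and initial value `F₀` (otherwise empty statements), `A₁` for every `p₁ ≥ p` from `init_bound`; `decay_of` (private in PW/FinG, copy), `hydro_of_U`.
* second clause: `lower_unif` (H85/LB/Top.lean), exactly as in `planar_hydro_gen` (H48/PW/FinG.lean); `data_of` there.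
-/

set_option autoImplicit false

open MeasureTheory Set Filter Topology Pool.Agent.H25.Kin Pool.Agent.H82.BK Pool.Agent.H82.CM
open Pool.Agent.H48.PL Pool.Agent.H48.PI Pool.Agent.H93.CM Pool.Agent.H25.PN

namespace Pool.Agent.H85.DG

variable {d : ℕ} {s γ : ℝ} {b : ℝ → ℝ}

/-- the constants of the initial value -/
private lemma find_data (F : Vec d → Vec d → ℝ) : ∃ M : ℝ, GB M F := by
  refine ⟨max 0 (max (∫ q, F q.2 q.1 ∂(nu d)) (max (∫ q, F q.2 q.1 * nsq q.1 ∂(nu d))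
    (∫ q, F q.2 q.1 * Real.log (F q.2 q.1) ∂(nu d)))), ?_, ?_, ?_⟩
  · exact (le_max_left _ _).trans (le_max_right _ _)
  · exact ((le_max_left _ _).trans (le_max_right _ _)).trans (le_max_right _ _)
  · exact ((le_max_right _ _).trans (le_max_right _ _)).trans (le_max_right _ _)

/-- from the weighted supremum to the decay -/
private lemma find_decay {f : Vec d → ℝ} (h0 : ∀ v, 0 ≤ f v) {N p : ℕ} (hNp : N ≤ p) {K : ℝ}
    (h : ∀ v, f v * (1 + nsq v) ^ p ≤ K) (v : Vec d) : (1 + ‖v‖) ^ N * f v ≤ 2 ^ N * K := by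
  have h12 : (1 + ‖v‖) ^ N ≤ 2 ^ N * (1 + nsq v) ^ p := by
    have h13 : (1 : ℝ) ≤ 1 + ‖v‖ := by linarith [norm_nonneg v]
    calc (1 + ‖v‖) ^ N ≤ ((1 + ‖v‖) ^ 2) ^ N := by
          apply pow_le_pow_left₀ (by linarith)
          nlinarith
      _ ≤ (2 * (1 + nsq v)) ^ N := pow_le_pow_left₀ (by positivity) (norm_le_nsq v) N
      _ = 2 ^ N * (1 + nsq v) ^ N := mul_pow _ _ _
      _ ≤ 2 ^ N * (1 + nsq v) ^ p := by
          apply mul_le_mul_of_nonneg_left _ (by positivity)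
          exact pow_le_pow_right₀ (by linarith [sq_nonneg' v]) hNp
  calc (1 + ‖v‖) ^ N * f v ≤ (2 ^ N * (1 + nsq v) ^ p) * f v :=
        mul_le_mul_of_nonneg_right h12 (h0 v)
    _ = 2 ^ N * (f v * (1 + nsq v) ^ p) := by ring
    _ ≤ 2 ^ N * K := mul_le_mul_of_nonneg_left (h v) (by positivity)

/-- the quantitative clause, from the scaled solution -/
private lemma find_quant (hd : 2 ≤ d) (hs : 0 < s) (hs1 : s < 1) (h0 : 0 ≤ γ + 2 * s) (h2 : γ + 2 * s < 2)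
    (hb : IsKernel d s b) (e : Fin d) {p p₁ : ℕ} {α Ms K : ℝ}
    (hK : ∀ M : ℝ, 0 < M → M ≤ Ms → ∀ (T : ℝ) (h : ℝ → Vec d → Vec d → ℝ),
      IsBoltzmannSol γ (fun x => M * b x) T h → Planar e T h → ∫ q, h 0 q.2 q.1 ∂(nu d) = 1 →
      (∀ x v, h 0 x v * (1 + nsq v) ^ p ≤ α) →
      ∀ A₁ : ℝ, (∀ x v, h 0 x v * (1 + nsq v) ^ p₁ ≤ A₁) →
      ∀ t ∈ Ico 0 T, ∀ x v, h t x v * (1 + nsq v) ^ p₁ ≤ K * (A₁ + 1)) (hK0 : 0 ≤ K)
    {T : ℝ} {f : ℝ → Vec d → Vec d → ℝ} (hf : IsBoltzmannSol γ b T f) (hpl : Planar e T f)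
    (hm : ∫ x in Icc (0 : Vec d) 1, ∫ v, f 0 x v ≤ Ms)
    (hα : ∀ x v, f 0 x v * (1 + nsq v) ^ p ≤ α * ∫ x in Icc (0 : Vec d) 1, ∫ v, f 0 x v)
    {A₁ : ℝ} (hA : ∀ x v, f 0 x v * (1 + nsq v) ^ p₁ ≤ A₁) {t : ℝ} (ht : t ∈ Ico 0 T) (x v : Vec d) :
    f t x v * (1 + nsq v) ^ p₁ ≤ K * (A₁ + ∫ x in Icc (0 : Vec d) 1, ∫ v, f 0 x v) := by
  have hT : (0 : ℝ) ∈ Ico 0 T := ⟨le_rfl, ht.1.trans_lt ht.2⟩
  have hsl := Pool.Agent.H15.AV.sol_slice hf hT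
  have hmi := mass_iter hsl
  obtain ⟨m, hmd⟩ : ∃ m : ℝ, m = ∫ x in Icc (0 : Vec d) 1, ∫ v, f 0 x v := ⟨_, rfl⟩
  rw [← hmd] at hm hα hmi ⊢
  have hn0 : ∀ x v, 0 ≤ f 0 x v := fun x v => hf.nonneg 0 hT x v
  have hm0 : 0 ≤ m := by
    rw [← hmi]
    exact integral_nonneg fun q => hn0 _ _
  have hA0 : 0 ≤ A₁ := (mul_nonneg (hn0 0 0) (pow_nonneg (by linarith [sq_nonneg' (0 : Vec d)]) _)).trans
    (hA 0 0)
  rcases hm0.eq_or_lt with h | h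
  · obtain ⟨C, Ca, cb, HL⟩ := exists_hypL hd hs hs1 h0 h2.le hb
    have h3 := Pool.Agent.H15.AV.mass_const (Q := boltzQ γ b) hf (boltz_HasInvariants HL.H hf) ht
    rw [hmi, ← h] at h3
    rw [zero_of_mass (Q := fun t x => boltzQ γ b (f t x)) hf ht h3 x v, zero_mul]
    positivity
  · have hsol := amp_sol hd hs hs1 h0 h2.le hb h hf
    have h1 := hK m h hm T _ hsol ?_ ?_ ?_ (A₁ / m) ?_ t ht x v
    · have h4 : m⁻¹ * f t x v * (1 + nsq v) ^ p₁ = (f t x v * (1 + nsq v) ^ p₁) / m := by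
        field_simp
      rw [h4, div_le_iff₀ h] at h1
      refine h1.trans (le_of_eq ?_)
      field_simp
    · intro t ht x y v hxy
      show m⁻¹ * f t x v = m⁻¹ * f t y v
      rw [hpl t ht x y v hxy]
    · show ∫ q : Vec d × Vec d, m⁻¹ * f 0 q.2 q.1 ∂(nu d) = 1
      rw [integral_const_mul, hmi]
      exact inv_mul_cancel₀ h.ne'
    · intro x v
      show m⁻¹ * f 0 x v * (1 + nsq v) ^ p ≤ α
      have h4 : m⁻¹ * f 0 x v * (1 + nsq v) ^ p = (f 0 x v * (1 + nsq v) ^ p) / m := by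
        field_simp
      rw [h4, div_le_iff₀ h]
      exact hα x v
    · intro x v
      show m⁻¹ * f 0 x v * (1 + nsq v) ^ p₁ ≤ A₁ / m
      have h4 : m⁻¹ * f 0 x v * (1 + nsq v) ^ p₁ = (f 0 x v * (1 + nsq v) ^ p₁) / m := by
        field_simp
      rw [h4]
      exact div_le_div_of_nonneg_right (hA x v) h.le

theorem fin_D (hd : 2 ≤ d) (hs : 0 < s) (hs1 : s < 1) (h0 : 0 ≤ γ) (h2 : γ + 2 * s < 2)
    (hb : IsKernel d s b) (e : Fin d) (hH : DilH d γ b e) : DilE d γ b (Planar e) := by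
  have h0' : 0 ≤ γ + 2 * s := by linarith
  intro p hp α
  obtain ⟨Ms, hMs, hq⟩ := hH p hp α
  refine ⟨Ms, hMs, fun F₀ hm hα => ?_, fun p₁ hp₁ => ?_⟩
  swap
  · obtain ⟨K, hK0, hK⟩ := hq p₁ hp₁
    exact ⟨K, hK0, fun T f hf hpl hm hα A₁ hA t ht x v =>
      find_quant hd hs hs1 h0' h2 hb e hK hK0 hf hpl hm hα hA ht x v⟩
  by_cases hex : ∃ (T : ℝ) (f : ℝ → Vec d → Vec d → ℝ), 0 < T ∧ IsBoltzmannSol γ b T f ∧ Planar e T f ∧ f 0 = F₀
  swap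
  · refine ⟨⟨fun _ => 0, 0, fun T f hf hpl h0 t ht x => ?_⟩, fun _ => ⟨1, one_pos, 0,
      fun T f hf hpl h0 t ht x => ?_⟩⟩
    · exact absurd ⟨T, f, ht.1.trans_lt ht.2, hf, hpl, h0⟩ hex
    · exact absurd ⟨T, f, ht.1.trans_lt ht.2, hf, hpl, h0⟩ hex
  obtain ⟨T₁, f₁, hT₁, hf₁, -, h₁⟩ := hex
  have hsl : Pool.Agent.H15.AV.Slice F₀ := by
    rw [← h₁]
    exact Pool.Agent.H15.AV.sol_slice hf₁ ⟨le_rfl, hT₁⟩
  have hK := fun N : ℕ => hq (max p N) (le_max_left _ _)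
  choose K hK0 hK using hK
  have hA := fun N : ℕ => init_bound (Q := fun t x => boltzQ γ b (f₁ t x)) hf₁ hT₁ (max p N)
  choose A hA using hA
  obtain ⟨m, hmd⟩ : ∃ m : ℝ, m = ∫ x in Icc (0 : Vec d) 1, ∫ v, F₀ x v := ⟨_, rfl⟩
  obtain ⟨U, hUd⟩ : ∃ U : ℕ → ℝ, U = fun N => 2 ^ N * (K N * (A N + m)) := ⟨_, rfl⟩
  have hU : ∀ (T : ℝ) (f : ℝ → Vec d → Vec d → ℝ), IsBoltzmannSol γ b T f → Planar e T f → f 0 = F₀ →
      ∀ N : ℕ, ∀ t ∈ Ico 0 T, ∀ x v, (1 + ‖v‖) ^ N * f t x v ≤ U N := by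
    intro T f hf hpl hf0 N t ht x v
    rw [hUd]
    refine find_decay (fun v => hf.nonneg t ht x v) (le_max_right p N) (fun v => ?_) v
    have h3 := find_quant hd hs hs1 h0' h2 hb e (hK N) (hK0 N) hf hpl (by rw [hf0]; exact hm)
      (by rw [hf0]; exact hα) (A₁ := A N) (by rw [hf0, ← h₁]; exact hA N) ht x v
    rw [hf0, ← hmd] at h3
    exact h3
  obtain ⟨M₀, hM₀⟩ := hydro_of_U d U
  refine ⟨⟨U, M₀, fun T f hf hpl hf0 t ht x => ?_⟩, fun hF => ?_⟩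
  · exact ⟨fun N v => hU T f hf hpl hf0 N t ht x v, hM₀ T _ f hf (hU T f hf hpl hf0) t ht x⟩
  · obtain ⟨M, hM⟩ := find_data F₀
    obtain ⟨m₀, hm₀, hlow⟩ := Pool.Agent.H85.LB.lower_unif hd ⟨hs, hs1⟩ h0' h2 hb e U hsl hF hM
    refine ⟨m₀, hm₀, M₀, fun T f hf hpl hf0 t ht x => ?_⟩
    have hUf := hU T f hf hpl hf0
    obtain ⟨g1, g2, g3⟩ := hM₀ T _ f hf hUf t ht x
    exact ⟨hlow T f hf hpl hf0 hUf t ht x, g1, g2, g3⟩

end Pool.Agent.H85.DG
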