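import Pool.Agent.H85.DG.Defs

/-!
# Module PhP: the weights `PhD`, `PhA = |PhD|` are continuous and of polynomial growth

* `phiD e a r` is continuous: away from `0` product of continuous functions (`len y ^ (a-1)`, `len y > 0`); at `0`: `|phiD y| ≤ (len y / r)^2 · len y ^ a = len y ^ (a+2) / r^2` for `y ≠ 0`
  (`|y_e| ≤ len y`), exponent `a + 2 ≥ 1 > 0`, and `phiD 0 = 0`.
* growth: `|phiD y| ≤ r^(-2) (1 + len y) ^ 2` or simply: `len y ≥ 1`: `|phi| ≤ len y ^ a ≤ 1`; `len y < 1`: `|phiD| ≤ len y ^ (a+2)/r^2 ≤ r^(-2)`. `min 1 (jb w/jb v)^4 ∈ [0,1]`, continuous (`jb_cont`, `jb_pos`).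
* `PhA`: absolute value. Compare `PhR_PGW`, `PhS_PGW` (H48/PW/WtA.lean, H15/G1).
-/

set_option autoImplicit false

open MeasureTheory Set Filter Topology Pool.Agent.H25.Kin Pool.Agent.H82.BK Pool.Agent.H82.CM
open Pool.Agent.H48.PL Pool.Agent.H48.PI Pool.Agent.H48.PW Pool.Agent.H48.PV

namespace Pool.Agent.H85.DG

variable {d : ℕ} {a r : ℝ}

private lemma php_sub : Continuous fun p : Vec d × Vec d => p.1 - p.2 :=
  continuous_fst.sub continuous_snd

private lemma php_mu_cont : Continuous fun p : Vec d × Vec d => min 1 (jb p.2 / jb p.1) ^ 4 :=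
  (continuous_const.min ((jb_cont.comp continuous_snd).div (jb_cont.comp continuous_fst)
    fun p => (jb_pos p.1).ne')).pow 4

private lemma php_mu0 (v w : Vec d) : 0 ≤ min 1 (jb w / jb v) :=
  le_min zero_le_one (div_nonneg (jb_pos w).le (jb_pos v).le)

private lemma php_zero (e : Fin d) : phiD e a r (0 : Vec d) = 0 := by
  unfold phiD phi
  simp

private lemma php_phi (e : Fin d) {y : Vec d} (hy : y ≠ 0) : |phi e a y| ≤ len y ^ a := by
  have h0 := len_pos hy
  unfold phi
  rw [abs_mul, abs_of_pos (Real.rpow_pos_of_pos h0 _)]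
  have h1 : len y ^ a = len y * len y ^ (a - 1) := by
    have := Real.rpow_add h0 1 (a - 1)
    rw [Real.rpow_one] at this
    rw [← this]
    congr 1
    ring
  rw [h1]
  exact mul_le_mul_of_nonneg_right (abs_coord_le y e) (Real.rpow_nonneg h0.le _)

private lemma php_sm (ha : -1 ≤ a) (hr : 0 < r) (e : Fin d) (y : Vec d) :
    |phiD e a r y| ≤ len y ^ (a + 2) / r ^ 2 := by
  by_cases hy : y = 0
  · subst hy
    rw [php_zero, abs_zero]
    exact div_nonneg (Real.rpow_nonneg (len_nonneg _) _) (sq_nonneg _)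
  · have h0 := len_pos hy
    have h1 := php_phi (a := a) e hy
    have h2 : 0 ≤ min 1 (len y / r) := le_min zero_le_one (div_nonneg h0.le hr.le)
    have h3 : min 1 (len y / r) ^ 2 ≤ (len y / r) ^ 2 := pow_le_pow_left₀ h2 (min_le_right _ _) 2
    unfold phiD
    rw [abs_mul, abs_of_nonneg (pow_nonneg h2 2)]
    have h4 : len y ^ (a + 2) = len y ^ a * len y ^ 2 := by
      rw [Real.rpow_add h0]
      congr 1
      exact_mod_cast Real.rpow_natCast (len y) 2
    calc min 1 (len y / r) ^ 2 * |phi e a y| ≤ (len y / r) ^ 2 * len y ^ a :=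
          mul_le_mul h3 h1 (abs_nonneg _) (sq_nonneg _)
      _ = len y ^ (a + 2) / r ^ 2 := by rw [h4, div_pow]; ring

private lemma php_bd (ha : -1 ≤ a) (ha0 : a < 0) (hr : 0 < r) (e : Fin d) (y : Vec d) :
    |phiD e a r y| ≤ 1 + 1 / r ^ 2 := by
  have hr2 : 0 < 1 / r ^ 2 := by positivity
  rcases le_total 1 (len y) with h | h
  · have hy : y ≠ 0 := by
      rintro rfl
      rw [len_zero] at h
      linarith
    have h0 := len_pos hy
    have h1 := php_phi (a := a) e hy
    have h2 : 0 ≤ min 1 (len y / r) := le_min zero_le_one (div_nonneg h0.le hr.le)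
    have h3 : min 1 (len y / r) ^ 2 ≤ 1 := pow_le_one₀ h2 (min_le_left _ _)
    have h4 : len y ^ a ≤ 1 := Real.rpow_le_one_of_one_le_of_nonpos h ha0.le
    unfold phiD
    rw [abs_mul, abs_of_nonneg (pow_nonneg h2 2)]
    have h5 : min 1 (len y / r) ^ 2 * |phi e a y| ≤ 1 * 1 :=
      mul_le_mul h3 (h1.trans h4) (abs_nonneg _) zero_le_one
    linarith
  · refine (php_sm ha hr e y).trans ?_
    have h1 : len y ^ (a + 2) ≤ 1 := Real.rpow_le_one (len_nonneg y) h (by linarith)
    have h2 : len y ^ (a + 2) / r ^ 2 ≤ 1 / r ^ 2 := div_le_div_of_nonneg_right h1 (sq_nonneg r)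
    linarith

private lemma php_cont (ha : -1 ≤ a) (hr : 0 < r) (e : Fin d) : Continuous (phiD e a r : Vec d → ℝ) := by
  rw [continuous_iff_continuousAt]
  intro y
  by_cases hy : y = 0
  · subst hy
    have h3 : Tendsto (fun z : Vec d => len z ^ (a + 2) / r ^ 2) (𝓝 0) (𝓝 0) := by
      have h4 : Continuous fun z : Vec d => len z ^ (a + 2) / r ^ 2 :=
        (continuous_len.rpow_const (fun z => Or.inr (by linarith))).div_const _
      have h5 := h4.tendsto 0
      have ha2 : a + 2 ≠ 0 := by linarith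
      simp only [len_zero, Real.zero_rpow ha2, zero_div] at h5
      exact h5
    unfold ContinuousAt
    rw [php_zero]
    exact squeeze_zero_norm (fun z => by rw [Real.norm_eq_abs]; exact php_sm ha hr e z) h3
  · have h0 := len_pos hy
    have c1 : ContinuousAt (fun z : Vec d => min 1 (len z / r) ^ 2) y :=
      ((continuous_const.min (continuous_len.div_const r)).pow 2).continuousAt
    have c2 : ContinuousAt (fun z : Vec d => phi e a z) y := by
      unfold phi
      exact (continuous_apply e).continuousAt.mul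
        (continuous_len.continuousAt.rpow_const (Or.inl h0.ne'))
    exact c1.mul c2

private lemma php_D (ha : -1 ≤ a) (ha0 : a < 0) (hr : 0 < r) (e : Fin d) (v w : Vec d) :
    |PhD e a r v w| ≤ 1 + 1 / r ^ 2 := by
  unfold PhD
  have h1 : min 1 (jb w / jb v) ^ 4 ≤ 1 := pow_le_one₀ (php_mu0 v w) (min_le_left _ _)
  rw [abs_mul, abs_of_nonneg (pow_nonneg (php_mu0 v w) 4)]
  calc min 1 (jb w / jb v) ^ 4 * |phiD e a r (v - w)| ≤ 1 * |phiD e a r (v - w)| :=
        mul_le_mul_of_nonneg_right h1 (abs_nonneg _)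
    _ ≤ 1 + 1 / r ^ 2 := by rw [one_mul]; exact php_bd ha ha0 hr e _

theorem PhD_PGW (ha : -1 ≤ a) (ha0 : a < 0) (hr : 0 < r) (e : Fin d) : PGW (PhD e a r) := by
  refine ⟨?_, 0, 1 + 1 / r ^ 2, by positivity, fun v w => ?_⟩
  · unfold PhD
    exact php_mu_cont.mul ((php_cont ha hr e).comp php_sub)
  · simpa using php_D ha ha0 hr e v w

theorem PhA_PGW (ha : -1 ≤ a) (ha0 : a < 0) (hr : 0 < r) (e : Fin d) : PGW (PhA e a r) := by
  refine ⟨(PhD_PGW ha ha0 hr e).cont.abs, 0, 1 + 1 / r ^ 2, by positivity, fun v w => ?_⟩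
  unfold PhA
  rw [abs_abs]
  simpa using php_D ha ha0 hr e v w

end Pool.Agent.H85.DG
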