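import Pool.Agent.H85.DG.PhV
import Pool.Agent.H85.DG.PhP

/-!
# Module AvD: the average of the flux, the local term

* `avD_le`: `0 ≤ F - gb` (`bet_le`, `chi_le_one`), `(v_e-w_e) PhD ≤ 2 (jb v ^ a jb w)` (`VPhD_le_PhS`, `VPhS_le`); integrability of both sides as for `avU_le` (H48/PV/AbsU.lean): `FS` has rapid decay, `PhD_PGW`, `integrable_nu`. `jb ^ (1+0)` is the form given by `gb_small` (H48/PG/LocG.lean, with `a = 0`).
* `loc_D`: `chi R₂ w ≠ 0`: `jb w < 2 R₂`, `len (v-w) ≤ jb v + 2 R₂ ≤ 3 R₂ jb v`, `len (v-w) ^ (-a) ≤ (3 R₂ jb v)^(-a) ≤ 3 R₂ jb v ^ (-a)` (`0 < -a ≤ 1`), so `jb v ^ a len (v-w) ≤ 3 R₂ len (v-w)^(1+a)` (also for `v = w`); `chi R₂ bet C₂ ≤ chi R bet C₀` (private `chi_mono`, `bet_mono_C` in H48/PG/LocG.lean). Integrability: `Nice g` (`len_pow_int` there).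
-/

set_option autoImplicit false

open MeasureTheory Set Filter Topology Pool.Agent.H25.Kin Pool.Agent.H82.BK Pool.Agent.H82.CM
open Pool.Agent.H48.PL Pool.Agent.H48.PI Pool.Agent.H48.PW Pool.Agent.H48.PV

namespace Pool.Agent.H85.DG

variable {d : ℕ} {a : ℝ} {P : Pd} {e : Fin d} {F G : Vec d → Vec d → ℝ} {ε₂ : ℝ}

/-! ### private copies of the integrability lemmas of H48/PV/AbsU.lean -/

private structure AvdA (A : Vec d → Vec d → ℝ) : Prop where
  cont : Continuous fun p : Vec d × Vec d => A p.1 p.2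
  dec : RX A

private lemma avd_bd {A : Vec d → Vec d → ℝ} (hA : AvdA A) {Φ : Vec d → Vec d → ℝ} (hΦ : PGW Φ)
    (v : Vec d) : ∃ C, ∀ x w, |Φ v w * A x w| ≤ C * wt d w := by
  obtain ⟨N, K, hK0, hK⟩ := hΦ.le
  obtain ⟨C, hC⟩ := hA.dec (N + (d + 1))
  refine ⟨K * (1 + ‖v‖) ^ N * C, fun x w => ?_⟩
  have hw : 0 < 1 + ‖w‖ := w_pos w
  have hv : 0 < 1 + ‖v‖ := w_pos v
  have h2 := hC x w
  rw [abs_mul]
  unfold wt
  rw [← div_eq_mul_inv, le_div_iff₀ (by positivity)]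
  calc |Φ v w| * |A x w| * (1 + ‖w‖) ^ (d + 1)
      ≤ (K * ((1 + ‖v‖) ^ N * (1 + ‖w‖) ^ N)) * |A x w| * (1 + ‖w‖) ^ (d + 1) := by
        have := hK v w
        gcongr
    _ = K * (1 + ‖v‖) ^ N * ((1 + ‖w‖) ^ (N + (d + 1)) * |A x w|) := by rw [pow_add]; ring
    _ ≤ K * (1 + ‖v‖) ^ N * C := by gcongr

private lemma avd_nu {A : Vec d → Vec d → ℝ} (hA : AvdA A) {Φ : Vec d → Vec d → ℝ} (hΦ : PGW Φ)
    (v : Vec d) : Integrable (fun p : Vec d × Vec d => Φ v p.1 * A p.2 p.1) (nu d) := by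
  obtain ⟨C, hC⟩ := avd_bd hA hΦ v
  have hc : Continuous fun p : Vec d × Vec d => Φ v p.1 * A p.2 p.1 :=
    (hΦ.cont.comp (by fun_prop : Continuous fun p : Vec d × Vec d => (v, p.1))).mul
      (hA.cont.comp (by fun_prop : Continuous fun p : Vec d × Vec d => (p.2, p.1)))
  exact integrable_nu hc.aestronglyMeasurable fun p => hC p.2 p.1

/-- the weight `jb` -/
private lemma avd_jb : PGW fun (_ : Vec d) (w : Vec d) => jb w := by
  refine ⟨jb_cont.comp continuous_snd, 1, (d : ℝ) + 1, by positivity, fun v w => ?_⟩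
  have hv : (1 : ℝ) ≤ 1 + ‖v‖ := by linarith [norm_nonneg v]
  have hw := jb_le_w w
  have hw0 : 0 ≤ 1 + ‖w‖ := by linarith [norm_nonneg w]
  rw [abs_of_nonneg (jb_pos w).le, pow_one, pow_one]
  calc jb w ≤ ((d : ℝ) + 1) * (1 + ‖w‖) := hw
    _ = ((d : ℝ) + 1) * (1 * (1 + ‖w‖)) := by ring
    _ ≤ ((d : ℝ) + 1) * ((1 + ‖v‖) * (1 + ‖w‖)) := by gcongr

private lemma avd_gb_le (hP : P.Ok) (h : FS e F G) (x w : Vec d) : gb P.R P.C₀ F x w ≤ F x w := by
  have h1 := bet_le hP.hC0 (h.nonneg x w)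
  have h2 := bet_nonneg hP.hC0 (h.nonneg x w)
  unfold gb
  exact (mul_le_of_le_one_left h2 (chi_le_one P.R w)).trans h1

private lemma avd_gb0 (hP : P.Ok) (h : FS e F G) (x w : Vec d) : 0 ≤ gb P.R P.C₀ F x w :=
  mul_nonneg (chi_nonneg _ _) (bet_nonneg hP.hC0 (h.nonneg x w))

private lemma avd_H (hP : P.Ok) (h : FS e F G) : AvdA fun x w => F x w - gb P.R P.C₀ F x w := by
  have hb : Continuous fun p : Vec d × Vec d => gb P.R P.C₀ F p.1 p.2 := by
    unfold gb bet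
    refine ((chi_cont P.R).comp continuous_snd).mul
      ((continuous_const.mul h.contF).div (continuous_const.add h.contF) fun q => ?_)
    have := h.nonneg q.1 q.2
    have := hP.hC0
    linarith
  refine ⟨h.contF.sub hb, ?_⟩
  intro N
  obtain ⟨C, hC⟩ := h.decF N
  refine ⟨C, fun x w => le_trans ?_ (hC x w)⟩
  have hw : 0 < 1 + ‖w‖ := w_pos w
  refine mul_le_mul_of_nonneg_left ?_ (by positivity)
  have h1 := avd_gb_le hP h x w
  have h2 := avd_gb0 hP h x w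
  rw [abs_of_nonneg (sub_nonneg.2 h1), abs_of_nonneg (h.nonneg x w)]
  linarith

theorem avD_le (hP : P.Ok) (h : FS e F G)
    (h2 : ∫ p, (F p.2 p.1 - gb P.R P.C₀ F p.2 p.1) * jb p.1 ^ ((1 : ℝ) + 0) ∂(nu d) ≤ ε₂) (v : Vec d) :
    avD P e F v ≤ 2 * ε₂ * jb v ^ P.a := by
  have hH := avd_H hP h
  have hpos : ∀ x w, 0 ≤ F x w - gb P.R P.C₀ F x w := fun x w => sub_nonneg.2 (avd_gb_le hP h x w)
  have i1 := avd_nu hH avd_jb 0
  have i0 := avd_nu hH ((PhD_PGW hP.ha hP.ha0 hP.hr e).vmul e) v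
  have hj : 0 ≤ jb v ^ P.a := Real.rpow_nonneg (jb_pos v).le _
  have e2 : ∫ p, (F p.2 p.1 - gb P.R P.C₀ F p.2 p.1) * jb p.1 ^ ((1 : ℝ) + 0) ∂(nu d) =
      ∫ p, jb p.1 * (F p.2 p.1 - gb P.R P.C₀ F p.2 p.1) ∂(nu d) := by
    congr 1
    funext p
    rw [add_zero, Real.rpow_one]
    ring
  rw [e2] at h2
  unfold avD
  calc ∫ p, (v e - p.1 e) * PhD e P.a P.r v p.1 * (F p.2 p.1 - gb P.R P.C₀ F p.2 p.1) ∂(nu d)
      ≤ ∫ p, 2 * jb v ^ P.a * (jb p.1 * (F p.2 p.1 - gb P.R P.C₀ F p.2 p.1)) ∂(nu d) := by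
        refine integral_mono i0 (i1.const_mul _) fun p => ?_
        show (v e - p.1 e) * PhD e P.a P.r v p.1 * (F p.2 p.1 - gb P.R P.C₀ F p.2 p.1) ≤
          2 * jb v ^ P.a * (jb p.1 * (F p.2 p.1 - gb P.R P.C₀ F p.2 p.1))
        have h3 := (VPhD_le_PhS hP.hr e P.a v p.1).trans (VPhS_le hP.ha hP.ha0 e v p.1)
        refine (mul_le_mul_of_nonneg_right h3 (hpos p.2 p.1)).trans (le_of_eq ?_)
        ring
    _ = 2 * jb v ^ P.a * ∫ p, jb p.1 * (F p.2 p.1 - gb P.R P.C₀ F p.2 p.1) ∂(nu d) :=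
        integral_const_mul _ _
    _ ≤ 2 * jb v ^ P.a * ε₂ := mul_le_mul_of_nonneg_left h2 (by positivity)
    _ = 2 * ε₂ * jb v ^ P.a := by ring

private lemma avd_chi_mono {R R' : ℝ} (hR : 0 < R) (h : R ≤ R') (w : Vec d) : chi R w ≤ chi R' w := by
  unfold chi
  have h1 : jb w / R' ≤ jb w / R := div_le_div_of_nonneg_left (jb_pos w).le hR h
  exact max_le_max le_rfl (min_le_min le_rfl (by linarith))

private lemma avd_bet_mono {C C' : ℝ} (hC : 0 < C) (h : C ≤ C') {r : ℝ} (hr : 0 ≤ r) :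
    bet C r ≤ bet C' r := by
  have hC' : 0 < C' := hC.trans_le h
  unfold bet
  rw [div_le_div_iff₀ (by positivity) (by positivity)]
  nlinarith [mul_le_mul_of_nonneg_right h (mul_nonneg hr hr)]

private lemma avd_len_int {g : Vec d → ℝ} (hg : Nice g) (v : Vec d) {b : ℝ} (hb : 0 ≤ b)
    (hb2 : b ≤ 2) : Integrable fun w : Vec d => g w * len (v - w) ^ b := by
  have hc : Continuous fun w : Vec d => len (v - w) :=
    continuous_len.comp (continuous_const.sub continuous_id)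
  have hm : Measurable fun w : Vec d => len (v - w) ^ b := hc.measurable.pow_const _
  have h1 : PG fun w : Vec d => 1 + nsq (v - w) := by
    obtain ⟨N, C, hC0, hC⟩ := (PG.nsq (d := d)).pos
    refine (PG.const (1 : ℝ)).add ⟨N, C * (1 + ‖v‖) ^ N, fun w => ?_⟩
    refine (hC (v - w)).trans ?_
    rw [mul_assoc, ← mul_pow]
    exact mul_le_mul_of_nonneg_left
      (pow_le_pow_left₀ (by positivity) (w_sub_le v w) _) hC0
  have h2 : RD fun w : Vec d => g w * (1 + nsq (v - w)) := hg.rd.mul_PG h1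
  have h3 : Integrable fun w : Vec d => g w * (1 + nsq (v - w)) :=
    h2.integrable (hg.cont.mul (continuous_const.add
      (continuous_sq.comp (continuous_const.sub continuous_id)))).aestronglyMeasurable
  refine h3.mono (hg.cont.measurable.mul hm).aestronglyMeasurable (Eventually.of_forall fun w => ?_)
  have h0 : 0 ≤ nsq (v - w) := sq_nonneg' _
  rw [norm_mul, norm_mul, Real.norm_eq_abs (len (v - w) ^ b), Real.norm_eq_abs (1 + nsq (v - w)),
    abs_of_nonneg (Real.rpow_nonneg (len_nonneg _) _), abs_of_nonneg (by linarith)]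
  refine mul_le_mul_of_nonneg_left ?_ (norm_nonneg _)
  rcases le_total (len (v - w)) 1 with h | h
  · exact (Real.rpow_le_one (len_nonneg _) h hb).trans (by linarith)
  · calc len (v - w) ^ b ≤ len (v - w) ^ (2 : ℝ) := Real.rpow_le_rpow_of_exponent_le h hb2
      _ = nsq (v - w) := by rw [Real.rpow_two, len_sq]
      _ ≤ 1 + nsq (v - w) := by linarith

/-- the pointwise bound of the local term -/
private lemma avd_pt (ha : -1 ≤ a) (ha0 : a < 0) {R₂ : ℝ} (hR₂ : 1 ≤ R₂) {v w : Vec d}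
    (hw : jb w < 2 * R₂) : jb v ^ a * len (v - w) ≤ 3 * R₂ * len (v - w) ^ (1 + a) := by
  have hl := len_nonneg (v - w)
  have hv := one_le_jb v
  have hv0 := jb_pos v
  have hr : 0 ≤ len (v - w) ^ (1 + a) := Real.rpow_nonneg hl _
  rcases hl.eq_or_lt with h0 | h0
  · rw [← h0] at hr ⊢
    rw [mul_zero]
    positivity
  · have hV : len (v - w) ≤ 3 * R₂ * jb v := by
      have h1 := len_sub_le v w
      have h2 := len_le_jb v
      have h3 := len_le_jb w
      nlinarith [mul_le_mul hR₂ hv zero_le_one (by linarith : (0 : ℝ) ≤ R₂)]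
    have e1 : len (v - w) = len (v - w) ^ (-a) * len (v - w) ^ (1 + a) := by
      rw [← Real.rpow_add h0, show -a + (1 + a) = 1 by ring, Real.rpow_one]
    have h4 : len (v - w) ^ (-a) ≤ 3 * R₂ * jb v ^ (-a) := by
      have h5 : len (v - w) ^ (-a) ≤ (3 * R₂ * jb v) ^ (-a) :=
        Real.rpow_le_rpow hl hV (by linarith)
      have h6 : (3 * R₂) ^ (-a) ≤ (3 * R₂) ^ (1 : ℝ) :=
        Real.rpow_le_rpow_of_exponent_le (by linarith) (by linarith)
      rw [Real.rpow_one] at h6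
      rw [Real.mul_rpow (by positivity) hv0.le] at h5
      exact h5.trans (mul_le_mul_of_nonneg_right h6 (Real.rpow_nonneg hv0.le _))
    have h7 : jb v ^ a * jb v ^ (-a) = 1 := by
      rw [← Real.rpow_add hv0, add_neg_cancel, Real.rpow_zero]
    have h8 : 0 ≤ jb v ^ a := Real.rpow_nonneg hv0.le _
    calc jb v ^ a * len (v - w) = jb v ^ a * (len (v - w) ^ (-a) * len (v - w) ^ (1 + a)) := by
          rw [← e1]
      _ ≤ jb v ^ a * ((3 * R₂ * jb v ^ (-a)) * len (v - w) ^ (1 + a)) := by gcongr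
      _ = 3 * R₂ * (jb v ^ a * jb v ^ (-a)) * len (v - w) ^ (1 + a) := by ring
      _ = 3 * R₂ * len (v - w) ^ (1 + a) := by rw [h7, mul_one]

theorem loc_D (ha : -1 ≤ a) (ha0 : a < 0) {R₂ R C₂ C₀ : ℝ} (hR₂ : 1 ≤ R₂) (hR : R₂ ≤ R) (hC₂ : 0 < C₂)
    (hC : C₂ ≤ C₀) {g : Vec d → ℝ} (hg : Nice g) (hg0 : ∀ u, 0 ≤ g u) (v : Vec d) :
    jb v ^ a * (∫ w, len (v - w) * (chi R₂ w * bet C₂ (g w))) ≤
      3 * R₂ * ∫ w, len (v - w) ^ (1 + a) * (chi R w * bet C₀ (g w)) := by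
  have hC₀ : 0 < C₀ := hC₂.trans_le hC
  have hR₂0 : 0 < R₂ := by linarith
  set g' : Vec d → ℝ := fun w => chi R₂ w * bet C₂ (g w) with hg'
  set g₁ : Vec d → ℝ := fun w => chi R w * bet C₀ (g w) with hg₁
  have hg'0 : ∀ w, 0 ≤ g' w := fun w => mul_nonneg (chi_nonneg _ _) (bet_nonneg hC₂ (hg0 w))
  have hg₁0 : ∀ w, 0 ≤ g₁ w := fun w => mul_nonneg (chi_nonneg _ _) (bet_nonneg hC₀ (hg0 w))
  have hg'₁ : ∀ w, g' w ≤ g₁ w := fun w =>
    mul_le_mul (avd_chi_mono hR₂0 hR w) (avd_bet_mono hC₂ hC (hg0 w)) (bet_nonneg hC₂ (hg0 w))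
      (chi_nonneg _ _)
  have hg₁g : ∀ w, g₁ w ≤ g w := fun w => by
    calc g₁ w ≤ 1 * g w := mul_le_mul (chi_le_one _ _) (bet_le hC₀ (hg0 w))
          (bet_nonneg hC₀ (hg0 w)) zero_le_one
      _ = g w := one_mul _
  have hlc : Continuous fun w : Vec d => len (v - w) :=
    continuous_len.comp (continuous_const.sub continuous_id)
  have hmb : ∀ C : ℝ, Measurable fun w => bet C (g w) := fun C => by
    unfold bet
    exact (measurable_const.mul hg.cont.measurable).div (measurable_const.add hg.cont.measurable)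
  have hmg' : Measurable g' := (chi_cont R₂).measurable.mul (hmb C₂)
  have hmg₁ : Measurable g₁ := (chi_cont R).measurable.mul (hmb C₀)
  have key : ∀ (b : ℝ), 0 ≤ b → b ≤ 2 → ∀ h : Vec d → ℝ, Measurable h → (∀ w, 0 ≤ h w) →
      (∀ w, h w ≤ g w) → Integrable fun w : Vec d => len (v - w) ^ b * h w := by
    intro b hb hb2 h hm h0 hle
    refine (avd_len_int hg v hb hb2).mono
      ((hlc.measurable.pow_const _).mul hm).aestronglyMeasurable
      (Eventually.of_forall fun w => ?_)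
    have hl0 : 0 ≤ len (v - w) ^ b := Real.rpow_nonneg (len_nonneg _) _
    rw [Real.norm_eq_abs, Real.norm_eq_abs, abs_of_nonneg (mul_nonneg hl0 (h0 w)),
      abs_of_nonneg (mul_nonneg (hg0 w) hl0), mul_comm]
    exact mul_le_mul_of_nonneg_right (hle w) hl0
  have hint' : Integrable fun w : Vec d => len (v - w) * g' w := by
    have := key 1 zero_le_one (by norm_num) g' hmg' hg'0 fun w => (hg'₁ w).trans (hg₁g w)
    simpa only [Real.rpow_one] using this
  have hint1 := key (1 + a) (by linarith) (by linarith) g₁ hmg₁ hg₁0 hg₁g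
  rw [← integral_const_mul, ← integral_const_mul]
  refine integral_mono (hint'.const_mul _) (hint1.const_mul _) fun w => ?_
  show jb v ^ a * (len (v - w) * g' w) ≤ 3 * R₂ * (len (v - w) ^ (1 + a) * g₁ w)
  have hr : 0 ≤ len (v - w) ^ (1 + a) := Real.rpow_nonneg (len_nonneg _) _
  rcases lt_or_ge (jb w) (2 * R₂) with hw | hw
  · have h1 := avd_pt ha ha0 hR₂ (v := v) hw
    calc jb v ^ a * (len (v - w) * g' w) = jb v ^ a * len (v - w) * g' w := by ring
      _ ≤ 3 * R₂ * len (v - w) ^ (1 + a) * g₁ w :=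
        mul_le_mul h1 (hg'₁ w) (hg'0 w) (by positivity)
      _ = _ := by ring
  · have h1 : chi R₂ w = 0 := by
      unfold chi
      have h2 : 2 ≤ jb w / R₂ := by rwa [le_div_iff₀ hR₂0]
      have h3 : min 1 (2 - jb w / R₂) ≤ 0 := (min_le_right _ _).trans (by linarith)
      exact max_eq_left h3
    have h2 : g' w = 0 := by rw [hg']; simp only [h1, zero_mul]
    rw [h2, mul_zero, mul_zero]
    exact mul_nonneg (by positivity) (mul_nonneg hr (hg₁0 w))

end Pool.Agent.H85.DG
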