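import Pool.Agent.H85.DG.WkN

/-!
# Module WkR: the renormalised weak form against NONNEGATIVE test functions

`bet'(g) (g'g'_* - g g_*) = g'_* bet'(g) (g' - g) + g bet'(g) (g'_* - g_*) ≥ g'_* (bet(g') - bet(g)) + g bet'(g) (g'_* - g_*)` (`bet` is concave), so for `ψ ≥ 0` and the kernel cut off at `ε`:
`∫ bet'(g) Q_ε ψ ≥ ∫∫∫ B_ε ψ [g'_* bet(g') - g_* bet(g)] + ∫∫∫ B_ε ψ (g bet'(g) - bet(g)) (g'_* - g_*)`; the first integral is `∫∫∫ B_ε g_* bet(g) (ψ' - ψ)` (pre-post change of variables), `|..| ≤ C K A^2` as in WkN (`bet(g) ≤ g`);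
the second: cancellation lemma `|∫∫ B_ε (g'_* - g_*) dσ dw| ≤ C ∫ g_* len (v-w)^γ`, and `|g bet'(g) - bet(g)| ≤ g`, `|ψ| ≤ K jb`. All constants are independent of `ε` and of `C₀ > 0`. Then `ε → 0`. Compare `err_renc` (H48/PW/Blk.lean), `err_rg`. Owner: helper87.
-/

set_option autoImplicit false

open MeasureTheory Set Filter Topology Pool.Agent.H25.Kin Pool.Agent.H82.BK Pool.Agent.H82.CM
open Pool.Agent.H48.PL Pool.Agent.H48.PI Pool.Agent.H48.PW Pool.Agent.H48.PV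

namespace Pool.Agent.H85.DG

variable {d : ℕ} {s γ C Ca cb : ℝ} {b : ℝ → ℝ}

private lemma wkR_K {K : ℝ} {ψ : Vec d → ℝ} (h : TF K ψ) : 0 ≤ K := by
  have h1 := (abs_nonneg _).trans (h.h0 0)
  exact nonneg_of_mul_nonneg_left h1 (jb_pos (0 : Vec d))

private lemma wkR_chi {R : ℝ} (hR : 1 ≤ R) (w w' : Vec d) : |chi R w - chi R w'| ≤ min 1 (len (w - w')) := by
  have hR0 : 0 < R := by linarith
  have a1 := chi_nonneg R w
  have a2 := chi_le_one R w
  have a3 := chi_nonneg R w'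
  have a4 := chi_le_one R w'
  refine le_min (abs_le.2 ⟨by linarith, by linarith⟩) ?_
  have h1 : |chi R w - chi R w'| ≤ |(2 - jb w / R) - (2 - jb w' / R)| := by
    unfold chi
    refine (abs_max_sub_max_le_max _ _ _ _).trans ?_
    rw [sub_self, abs_zero]
    refine max_le (abs_nonneg _) ?_
    refine (abs_min_sub_min_le_max _ _ _ _).trans ?_
    rw [sub_self, abs_zero]
    exact max_le (abs_nonneg _) le_rfl
  refine h1.trans ?_
  have e : (2 - jb w / R) - (2 - jb w' / R) = 1 / R * (jb w' - jb w) := by ring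
  rw [e, abs_mul, abs_of_pos (by positivity : 0 < 1 / R)]
  have h2 : |jb w' - jb w| ≤ len (w - w') := by
    rw [abs_sub_comm]
    exact jb_lip w w'
  have h3 : 1 / R ≤ 1 := by rw [div_le_one hR0]; exact hR
  calc 1 / R * |jb w' - jb w| ≤ 1 * len (w - w') := by gcongr
    _ = len (w - w') := one_mul _

private lemma wkR_TF {K R : ℝ} (hR : 1 ≤ R) {ψ : Vec d → ℝ} (h : TF K ψ) :
    TF (2 * K) fun w => chi R w * ψ w := by
  have hK := wkR_K h
  refine ⟨(chi_cont R).mul h.cont, fun w => ?_, fun w w' => ?_⟩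
  · rw [abs_mul, abs_of_nonneg (chi_nonneg R w)]
    have hj := jb_pos w
    calc chi R w * |ψ w| ≤ 1 * (K * jb w) :=
          mul_le_mul (chi_le_one R w) (h.h0 w) (abs_nonneg _) zero_le_one
      _ ≤ 2 * K * jb w := by nlinarith [mul_nonneg hK hj.le]
  · have hj := jb_pos w
    have hj' := jb_pos w'
    have hm : 0 ≤ min 1 (len (w - w')) := le_min zero_le_one (len_nonneg _)
    have e : chi R w * ψ w - chi R w' * ψ w' = chi R w * (ψ w - ψ w') + (chi R w - chi R w') * ψ w' := by ring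
    rw [e]
    refine (abs_add_le _ _).trans ?_
    rw [abs_mul, abs_mul, abs_of_nonneg (chi_nonneg R w)]
    calc chi R w * |ψ w - ψ w'| + |chi R w - chi R w'| * |ψ w'|
        ≤ 1 * (K * (min 1 (len (w - w')) * (jb w + jb w'))) + min 1 (len (w - w')) * (K * jb w') := by
          gcongr
          · exact chi_le_one R w
          · exact h.h1 w w'
          · exact wkR_chi hR w w'
          · exact h.h0 w'
      _ ≤ 2 * K * (min 1 (len (w - w')) * (jb w + jb w')) := by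
          nlinarith [mul_nonneg hK (mul_nonneg hm hj.le)]

private lemma wkR_cut (H : Hyp d γ s b C Ca) (h0 : 0 ≤ γ) (h1 : γ ≤ 1) (hs1 : 2 * s < 1) {p : ℕ}
    (hp : (d : ℝ) + γ + 4 ≤ 2 * p) :
    ∃ C₁ : ℝ, 0 ≤ C₁ ∧ ∀ ε : ℝ, 0 < ε → ε ≤ 1 → ∀ g : Vec d → ℝ, Nice g → (∀ u, 0 ≤ g u) →
      ∀ A : ℝ, (∀ u, g u * (1 + nsq u) ^ p ≤ A) → ∀ C₀ : ℝ, 0 < C₀ →
      ∀ (K R L : ℝ) (P : Vec d → ℝ), TF K P → Pool.Agent.H15.AV.BTst R L P → (∀ w, 0 ≤ P w) →
      -(C₁ * K * A ^ 2) ≤ ∫ w, boltzCut γ b ε g w * (P w * bet' C₀ (g w)) := by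
  obtain ⟨K₁, hK₁, hw⟩ := Pool.Agent.H87.DW.tf_w1 (p := p) H h0 h1 hs1 hp
  obtain ⟨K₂, hK₂, hc⟩ := Pool.Agent.H87.DW.cn_gen H h0
  obtain ⟨K₃, hK₃, hq⟩ := Pool.Agent.H87.DW.pair_tf (d := d) (p := p) h0 h1 hp
  refine ⟨K₁ + K₂ * K₃, by positivity, fun ε hε hε1 g hg hg0 A hgA C₀ hC K R L P hP bP hP0 => ?_⟩
  have hK := wkR_K hP
  have hA : 0 ≤ A := (mul_nonneg (hg0 0) (by have := sq_nonneg' (0 : Vec d); positivity)).trans (hgA 0)
  have hgm := hg.cont.measurable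
  obtain ⟨B, hB0, hB⟩ := Pool.Agent.H87.DW.rsup hg.rd
  have hz : ∀ v, |bet C₀ (g v) - g v * bet' C₀ (g v)| ≤ B := fun v => by
    have h1 := Pool.Agent.H87.DW.rb4 hC (hg0 v)
    have h2 := (abs_le.1 (hB v)).2
    rw [abs_of_nonneg h1.1]
    linarith
  have hzm : Measurable fun v => bet C₀ (g v) - g v * bet' C₀ (g v) :=
    (Pool.Agent.H87.DW.rm1 hgm).sub (hgm.mul (Pool.Agent.H87.DW.rm2 hgm))
  have e1 := Pool.Agent.H87.DW.ren_split (γ := γ) H hε hC hg.rd hg.cont hg0 bP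
  have n1 := Pool.Agent.H87.DW.rN_le (γ := γ) H hε hC hg.rd hg.cont hg0 bP bP
    (fun w => le_of_eq (abs_of_nonneg (hP0 w)))
  have n2 : 0 ≤ Pool.Agent.H87.DW.rN γ b ε C₀ g P := (abs_nonneg _).trans n1
  have l1 := hw ε hε hε1 g (fun v => bet C₀ (g v)) hgm (Pool.Agent.H87.DW.rm1 hgm) hg0 A hgA
    (fun v => (Pool.Agent.H87.DW.rb1 hC (hg0 v)).1) (fun v => (Pool.Agent.H87.DW.rb1 hC (hg0 v)).2) K P hP
  have hQ : ∀ v, |P v * (bet C₀ (g v) - g v * bet' C₀ (g v))| ≤ K * jb v * g v := by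
    intro v
    have a1 := Pool.Agent.H87.DW.rb4 hC (hg0 v)
    rw [abs_mul, abs_of_nonneg a1.1]
    exact mul_le_mul (hP.h0 v) a1.2 a1.1 (mul_nonneg hK (jb_pos v).le)
  have c1 := hc ε hε g hg.rd hg.cont hg0 R (L * B) _ (Pool.Agent.H87.DW.rmul bP hzm hz) (K₃ * K * A ^ 2)
    (by positivity) (hq g hg0 A hgA K _ hK hQ)
  rw [e1]
  have a1 := abs_le.1 c1
  have a2 := abs_le.1 l1
  have e2 : (K₁ + K₂ * K₃) * K * A ^ 2 = K₁ * K * A ^ 2 + K₂ * (K₃ * K * A ^ 2) := by ring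
  rw [e2]
  linarith

theorem wk_r (HL : HypL d γ s b C Ca cb) (h0 : 0 ≤ γ) (h1 : γ ≤ 1) (hs1 : 2 * s < 1) {p : ℕ}
    (hp : (d : ℝ) + γ + 4 ≤ 2 * p) :
    ∃ C₁ : ℝ, 0 ≤ C₁ ∧ ∀ g : Vec d → ℝ, Nice g → (∀ u, 0 ≤ g u) →
      ∀ A : ℝ, (∀ u, g u * (1 + nsq u) ^ p ≤ A) → ∀ C₀ : ℝ, 0 < C₀ →
      ∀ (K : ℝ) (ψ : Vec d → ℝ), TF K ψ → (∀ w, 0 ≤ ψ w) →
      -(C₁ * K * A ^ 2) ≤ ∫ w, bet' C₀ (g w) * boltzQ γ b g w * ψ w := by
  have H := HL.H
  obtain ⟨C₁, hC₁, hcut⟩ := wkR_cut (p := p) H h0 h1 hs1 hp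
  refine ⟨C₁ * 2, by positivity, fun g hg hg0 A hgA C₀ hC K ψ hψ hψ0 => ?_⟩
  have hK := wkR_K hψ
  have hgm := hg.cont.measurable
  have hbm : Measurable fun w => bet' C₀ (g w) := Pool.Agent.H87.DW.rm2 hgm
  have hb1 : ∀ w, 0 ≤ bet' C₀ (g w) ∧ bet' C₀ (g w) ≤ 1 := fun w => Pool.Agent.H87.DW.rb2 hC (hg0 w)
  obtain ⟨D, hD, hdec⟩ := boltzQ_decay H hg (d + 2)
  have hQm : Measurable fun v => boltzQ γ b g v := by
    refine measurable_of_tendsto_metrizable' (𝓝[>] (0 : ℝ)) (f := fun ε v => boltzCut γ b ε g v)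
      (fun ε => (boltzCut_meas H.bm hg.cont ε).measurable) ?_
    rw [tendsto_pi_nhds]
    exact fun v => boltz_tendsto H hg v
  -- the truncated inequality
  have key : ∀ R : ℝ, 1 ≤ R → -(C₁ * 2 * K * A ^ 2) ≤
      ∫ w, bet' C₀ (g w) * boltzQ γ b g w * (chi R w * ψ w) := by
    intro R hR
    have hT := wkR_TF hR hψ
    have hP0 : ∀ w, 0 ≤ chi R w * ψ w := fun w => mul_nonneg (chi_nonneg R w) (hψ0 w)
    have hsupp : ∀ w : Vec d, 2 * R ≤ ‖w‖ → chi R w * ψ w = 0 := by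
      intro w hw
      rw [chi_eq_zero hR (hw.trans ((norm_le_len w).trans (len_le_jb w))), zero_mul]
    have hbd : ∀ w : Vec d, |chi R w * ψ w| ≤ K * (2 * R) := by
      intro w
      by_cases hw : 2 * R ≤ jb w
      · rw [chi_eq_zero hR hw, zero_mul, abs_zero]; positivity
      · rw [abs_mul, abs_of_nonneg (chi_nonneg R w)]
        calc chi R w * |ψ w| ≤ 1 * (K * jb w) :=
              mul_le_mul (chi_le_one R w) (hψ.h0 w) (abs_nonneg _) zero_le_one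
          _ ≤ K * (2 * R) := by
              rw [one_mul]
              exact mul_le_mul_of_nonneg_left (not_le.1 hw).le hK
    have bP : Pool.Agent.H15.AV.BTst (2 * R) (K * (2 * R)) fun w => chi R w * ψ w :=
      ⟨hT.cont.measurable, hsupp, hbd⟩
    have hPG : PG fun w => chi R w * ψ w * bet' C₀ (g w) := ⟨0, K * (2 * R), fun w => by
      rw [pow_zero, mul_one, Real.norm_eq_abs, abs_mul, abs_of_nonneg (hb1 w).1]
      calc |chi R w * ψ w| * bet' C₀ (g w) ≤ K * (2 * R) * 1 :=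
            mul_le_mul (hbd w) (hb1 w).2 (hb1 w).1 (by positivity)
        _ = _ := mul_one _⟩
    have hlim := boltz_weak_tendsto H hg hPG (hT.cont.measurable.mul hbm)
    have e : ∫ w, bet' C₀ (g w) * boltzQ γ b g w * (chi R w * ψ w) =
        ∫ w, boltzQ γ b g w * (chi R w * ψ w * bet' C₀ (g w)) := by
      refine integral_congr_ae (Eventually.of_forall fun w => ?_)
      simp only
      ring
    rw [e]
    refine ge_of_tendsto hlim ?_
    filter_upwards [self_mem_nhdsWithin, Ioc_mem_nhdsGT (one_pos : (0 : ℝ) < 1)] with ε hε hε1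
    have h3 := hcut ε hε hε1.2 g hg hg0 A hgA C₀ hC (2 * K) (2 * R) (K * (2 * R)) _ hT bP hP0
    have e3 : C₁ * (2 * K) * A ^ 2 = C₁ * 2 * K * A ^ 2 := by ring
    rw [e3] at h3
    exact h3
  -- the limit
  have hlim : Tendsto (fun n : ℕ => ∫ w, bet' C₀ (g w) * boltzQ γ b g w * (chi ((n : ℝ) + 1) w * ψ w)) atTop
      (𝓝 (∫ w, bet' C₀ (g w) * boltzQ γ b g w * ψ w)) := by
    refine tendsto_integral_of_dominated_convergence (fun w => D * (K * ((d : ℝ) + 1)) * wt d w) (fun n => ?_) ?_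
      (fun n => ?_) ?_
    · exact ((hbm.mul hQm).mul ((chi_cont _).measurable.mul hψ.cont.measurable)).aestronglyMeasurable
    · exact integrable_wt.const_mul _
    · refine Eventually.of_forall fun w => ?_
      have hw := w_pos w
      rw [Real.norm_eq_abs, abs_mul, abs_mul, abs_mul, abs_of_nonneg (hb1 w).1, abs_of_nonneg (chi_nonneg _ w)]
      have q1 := hdec w
      have q2 := (hψ.h0 w).trans (mul_le_mul_of_nonneg_left (jb_le_w w) hK)
      have q3 : 0 ≤ D * ((1 + ‖w‖) ^ (d + 2))⁻¹ := by positivity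
      calc bet' C₀ (g w) * |boltzQ γ b g w| * (chi ((n : ℝ) + 1) w * |ψ w|)
          ≤ 1 * (D * ((1 + ‖w‖) ^ (d + 2))⁻¹) * (1 * (K * (((d : ℝ) + 1) * (1 + ‖w‖)))) := by
            gcongr
            · exact mul_nonneg (chi_nonneg _ w) (abs_nonneg _)
            · exact (hb1 w).2
            · exact chi_le_one _ w
        _ = D * (K * ((d : ℝ) + 1)) * wt d w := by
            unfold wt
            have e4 : (1 + ‖w‖) ^ (d + 2) = (1 + ‖w‖) ^ (d + 1) * (1 + ‖w‖) := by ring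
            rw [e4, mul_inv]
            field_simp
    · refine Eventually.of_forall fun w => ?_
      refine tendsto_const_nhds.congr' ?_
      obtain ⟨n₀, hn₀⟩ := exists_nat_ge (jb w)
      filter_upwards [eventually_ge_atTop n₀] with n hn
      have h5 : jb w ≤ (n : ℝ) + 1 := by
        have : (n₀ : ℝ) ≤ n := by exact_mod_cast hn
        linarith
      have h6 : (1 : ℝ) ≤ (n : ℝ) + 1 := by
        have : (0 : ℝ) ≤ n := Nat.cast_nonneg n
        linarith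
      rw [chi_eq_one h6 h5, one_mul]
  refine ge_of_tendsto hlim (Eventually.of_forall fun n => ?_)
  have h6 : (1 : ℝ) ≤ (n : ℝ) + 1 := by
    have : (0 : ℝ) ≤ n := Nat.cast_nonneg n
    linarith
  exact key _ h6

end Pool.Agent.H85.DG
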