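import Pool.Agent.H85.DG.PhT
import Pool.Agent.H85.DG.WkR
import Pool.Agent.H48.PV.DerB

/-!
# Module DerX: lower bound for the derivative of the damping part, one time slice

`G x w = M * boltzQ (1 + a) b (F x) w`, `J x = ∫ w, W0 R v w * (bet' C (F x w) * G x w)`, `c = M C₁ K_W A^2 ≥ 0` (`C₁` from `wk_r`, `K_W` from `W_TF`).
* `wk_r` with `ψ = W0 R v ·`: `J x ≥ -c`; with `ψ = 2R W0 ± W1`: `|∫ w, W1 e R v w * (bet' C (F x w) * G x w)| ≤ 2R J x + c`. So `|∫ W1 ..| + |∫ W0 ..| ≤ (2R+1) J x + 3c =: μ₃ x`, a continuous planar periodic function (private lemma `db_pl` in H48/PV/DerB.lean for `W0_PGW` and `bet' G`, copy; constants).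
* `ED_der` (H48/PV/DerB.lean) with `M = 1` (`hF.mass`): `VarU - 4 R * 1 * ∫ len gb - 4 R * 1 * ∫ μ₃ dμ ≤ dED`, `∫ μ₃ dμ = (2R+1) avn (W0 R)(bet' G) v + 3c` (`nu_integral`, `muD_univ`), and `kD R = 4R(2R+1)`. `K = 12 R C₁ K_W`. Multiply by `jb v ^ a > 0`.
`hF.fb C hC` is the slice of `bet F`.
-/

set_option autoImplicit false

open MeasureTheory Set Filter Topology Pool.Agent.H25.Kin Pool.Agent.H82.BK Pool.Agent.H82.CM
open Pool.Agent.H48.PL Pool.Agent.H48.PI Pool.Agent.H48.PW Pool.Agent.H48.PV Pool.Agent.H85.UP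

namespace Pool.Agent.H85.DG

variable {d : ℕ} {s a C Ca cb : ℝ} {b : ℝ → ℝ}

/-- continuous planar periodic functions with rapid decay in the velocity -/
private structure DerX_A (e : Fin d) (A : Vec d → Vec d → ℝ) : Prop where
  cont : Continuous fun p : Vec d × Vec d => A p.1 p.2
  dec : RX A
  per : ∀ x v i, A (x + Pi.single i 1) v = A x v
  pl : ∀ x y v, x e = y e → A x v = A y v

private lemma DerX_bd {e : Fin d} {A : Vec d → Vec d → ℝ} (hA : DerX_A e A)
    {Φ : Vec d → Vec d → ℝ} (hΦ : PGW Φ) (v : Vec d) : ∃ C, ∀ x w, |Φ v w * A x w| ≤ C * wt d w := by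
  obtain ⟨N, K, hK0, hK⟩ := hΦ.le
  obtain ⟨C, hC⟩ := hA.dec (N + (d + 1))
  refine ⟨K * (1 + ‖v‖) ^ N * C, fun x w => ?_⟩
  have hw : 0 < 1 + ‖w‖ := w_pos w
  have hv : 0 < 1 + ‖v‖ := w_pos v
  have h2 := hC x w
  rw [abs_mul]
  unfold wt
  rw [← div_eq_mul_inv, le_div_iff₀ (by positivity)]
  calc |Φ v w| * |A x w| * (1 + ‖w‖) ^ (d + 1)
      ≤ (K * ((1 + ‖v‖) ^ N * (1 + ‖w‖) ^ N)) * |A x w| * (1 + ‖w‖) ^ (d + 1) := by
        have := hK v w
        gcongr
    _ = K * (1 + ‖v‖) ^ N * ((1 + ‖w‖) ^ (N + (d + 1)) * |A x w|) := by rw [pow_add]; ring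
    _ ≤ K * (1 + ‖v‖) ^ N * C := by gcongr

private lemma DerX_wc {e : Fin d} {A : Vec d → Vec d → ℝ} (hA : DerX_A e A)
    {Φ : Vec d → Vec d → ℝ} (hΦ : PGW Φ) (x v : Vec d) : Continuous fun w => Φ v w * A x w :=
  (hΦ.cont.comp (by fun_prop : Continuous fun w : Vec d => (v, w))).mul
    (hA.cont.comp (by fun_prop : Continuous fun w : Vec d => (x, w)))

private lemma DerX_int {e : Fin d} {A : Vec d → Vec d → ℝ} (hA : DerX_A e A)
    {Φ : Vec d → Vec d → ℝ} (hΦ : PGW Φ) (x v : Vec d) : Integrable fun w => Φ v w * A x w := by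
  obtain ⟨C, hC⟩ := DerX_bd hA hΦ v
  exact (integrable_wt.const_mul C).mono' (DerX_wc hA hΦ x v).aestronglyMeasurable
    (Eventually.of_forall fun w => hC x w)

private lemma DerX_nu {e : Fin d} {A : Vec d → Vec d → ℝ} (hA : DerX_A e A)
    {Φ : Vec d → Vec d → ℝ} (hΦ : PGW Φ) (v : Vec d) :
    Integrable (fun p : Vec d × Vec d => Φ v p.1 * A p.2 p.1) (nu d) := by
  obtain ⟨C, hC⟩ := DerX_bd hA hΦ v
  have hc : Continuous fun p : Vec d × Vec d => Φ v p.1 * A p.2 p.1 :=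
    (hΦ.cont.comp (by fun_prop : Continuous fun p : Vec d × Vec d => (v, p.1))).mul
      (hA.cont.comp (by fun_prop : Continuous fun p : Vec d × Vec d => (p.2, p.1)))
  exact integrable_nu hc.aestronglyMeasurable fun p => hC p.2 p.1

private lemma DerX_pl {e : Fin d} {A : Vec d → Vec d → ℝ} (hA : DerX_A e A)
    {Φ : Vec d → Vec d → ℝ} (hΦ : PGW Φ) (v : Vec d) : PlF e fun x => ∫ w, Φ v w * A x w := by
  obtain ⟨C, hC⟩ := DerX_bd hA hΦ v
  refine ⟨?_, ?_, ?_⟩
  · refine continuous_of_dominated (bound := fun w => C * wt d w) ?_ ?_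
      (integrable_wt.const_mul _) ?_
    · intro x
      exact (DerX_wc hA hΦ x v).aestronglyMeasurable
    · intro x
      exact Eventually.of_forall fun w => hC x w
    · refine Eventually.of_forall fun w => ?_
      exact continuous_const.mul
        (hA.cont.comp (by fun_prop : Continuous fun x : Vec d => (x, w)))
  · intro x i
    congr 1
    funext w
    rw [hA.per]
  · intro x y hxy
    congr 1
    funext w
    rw [hA.pl x y w hxy]

theorem dEX_low (HL : HypL d (1 + a) s b C Ca cb) (ha : -1 ≤ a) (ha0 : a < 0) (hs1 : 2 * s < 1) {p : ℕ}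
    (hp : (d : ℝ) + (1 + a) + 4 ≤ 2 * p) {R : ℝ} (hR : 1 ≤ R) : ∃ K : ℝ, 0 ≤ K ∧
    ∀ C₂ : ℝ, 0 < C₂ → ∀ M A : ℝ, 0 ≤ M → ∀ (e : Fin d) (F : Vec d → Vec d → ℝ),
      SL (1 + a) b M A p e F → ∀ x v : Vec d,
      jb v ^ a * (VarU R C₂ e F - 4 * R * (∫ w, len (v - w) * gb R C₂ F x w) - K * (M * A ^ 2)) ≤
        dEX a R C₂ e F (fun x w => M * boltzQ (1 + a) b (F x) w) x v := by
  obtain ⟨C₁, hC₁, hwk⟩ := wk_r HL (by linarith) (by linarith) hs1 hp
  obtain ⟨K, hK, hW⟩ := W_TF (d := d) hR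
  refine ⟨12 * R * (C₁ * K), by positivity, fun C₂ hC₂ M A hM e F hF x v => ?_⟩
  set G : Vec d → Vec d → ℝ := fun x w => M * boltzQ (1 + a) b (F x) w with hG
  have hb := hF.fb C₂ hC₂
  have aH : DerX_A e fun x w => bet' C₂ (F x w) * G x w := ⟨hb.contG, hb.decG, hb.perG, hb.plG⟩
  have p0 : PGW (W0 R : Vec d → Vec d → ℝ) := W0_PGW R
  have p1 : PGW (W1 e R : Vec d → Vec d → ℝ) := W1_PGW e R
  set c : ℝ := M * (C₁ * K * A ^ 2) with hc
  have hc0 : 0 ≤ c := by positivity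
  -- the weak form
  have key : ∀ (y : Vec d) (ψ : Vec d → ℝ), TF K ψ → (∀ w, 0 ≤ ψ w) →
      -c ≤ ∫ w, ψ w * (bet' C₂ (F y w) * G y w) := by
    intro y ψ hψ hψ0
    have h1 := hwk (F y) (hF.nice y) (fun u => hF.fs.nonneg y u) A (fun u => hF.bd y u) C₂ hC₂ K ψ hψ hψ0
    have h2 : ∫ w, ψ w * (bet' C₂ (F y w) * G y w) =
        M * ∫ w, bet' C₂ (F y w) * boltzQ (1 + a) b (F y) w * ψ w := by
      rw [← integral_const_mul]
      congr 1
      funext w
      rw [hG]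
      ring
    rw [h2, hc, ← mul_neg]
    exact mul_le_mul_of_nonneg_left h1 hM
  have hJ : ∀ y, -c ≤ ∫ w, W0 R v w * (bet' C₂ (F y w) * G y w) := fun y =>
    key y _ (hW e v).1 fun w => chi_nonneg R w
  have hJ1 : ∀ (y : Vec d) (k : ℝ), |k| ≤ 1 → -c ≤ 2 * R * (∫ w, W0 R v w * (bet' C₂ (F y w) * G y w)) +
      k * ∫ w, W1 e R v w * (bet' C₂ (F y w) * G y w) := by
    intro y k hk
    have h1 := key y _ ((hW e v).2 k hk).1 ((hW e v).2 k hk).2
    have h2 : ∫ w, (2 * R * W0 R v w + k * W1 e R v w) * (bet' C₂ (F y w) * G y w) =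
        2 * R * (∫ w, W0 R v w * (bet' C₂ (F y w) * G y w)) +
        k * ∫ w, W1 e R v w * (bet' C₂ (F y w) * G y w) := by
      rw [← integral_const_mul, ← integral_const_mul,
        ← integral_add ((DerX_int aH p0 y v).const_mul _) ((DerX_int aH p1 y v).const_mul _)]
      congr 1
      funext w
      ring
    rwa [h2] at h1
  have h3 : ∀ y, |∫ w, W1 e R v w * (bet' C₂ (F y w) * G y w)| +
      |∫ w, W0 R v w * (bet' C₂ (F y w) * G y w)| ≤
      (2 * R + 1) * (∫ w, W0 R v w * (bet' C₂ (F y w) * G y w)) + 3 * c := by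
    intro y
    have h4 := hJ y
    have h5 := hJ1 y 1 (by norm_num)
    have h6 := hJ1 y (-1) (by norm_num)
    have h7 : |∫ w, W0 R v w * (bet' C₂ (F y w) * G y w)| ≤
        (∫ w, W0 R v w * (bet' C₂ (F y w) * G y w)) + 2 * c := by
      rw [abs_le]
      constructor <;> linarith
    have h8 : |∫ w, W1 e R v w * (bet' C₂ (F y w) * G y w)| ≤
        2 * R * (∫ w, W0 R v w * (bet' C₂ (F y w) * G y w)) + c := by
      rw [abs_le]
      constructor <;> linarith
    linarith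
  have r0 := DerX_pl aH p0 v
  have hμ : PlF e fun y => (2 * R + 1) * (∫ w, W0 R v w * (bet' C₂ (F y w) * G y w)) + 3 * c :=
    ⟨(continuous_const.mul r0.cont).add continuous_const, fun y i => by rw [r0.per],
      fun y y' hy => by rw [r0.pl y y' hy]⟩
  have h4 := ED_der hR hC₂ hF.fs hb hF.mass.le hμ v h3 x
  have h5 : ∫ y, ((2 * R + 1) * (∫ w, W0 R v w * (bet' C₂ (F y w) * G y w)) + 3 * c) ∂(muD d) =
      (2 * R + 1) * avn (W0 R) (fun y w => bet' C₂ (F y w) * G y w) v + 3 * c := by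
    have e1 : avn (W0 R) (fun y w => bet' C₂ (F y w) * G y w) v =
        ∫ y, (∫ w, W0 R v w * (bet' C₂ (F y w) * G y w)) ∂(muD d) :=
      Pool.Agent.H15.AV.nu_integral (DerX_nu aH p0 v)
    rw [e1, integral_add ((pl_int r0).const_mul _) (integrable_const _), integral_const_mul,
      integral_const, measureReal_def, muD_univ]
    simp
  rw [h5] at h4
  unfold dEX
  refine mul_le_mul_of_nonneg_left ?_ (Real.rpow_nonneg (jb_pos v).le a)
  unfold kD
  have h6 : 12 * R * (C₁ * K) * (M * A ^ 2) = 12 * R * c := by rw [hc]; ring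
  rw [h6]
  linarith

end Pool.Agent.H85.DG
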