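import Pool.Agent.H85.DG.PhO
import Pool.Agent.H48.PV.DerC

/-!
# Module EBd: the weight is bounded and Lipschitz (with the scale `⟨v⟩`)

Only `FS e F G` with an arbitrary `G` (it is applied with `G = 0`) and `GB M' F` (`∫ F dν ≤ M'`, `∫ F jb^2 dν ≤ 2 M'`: private `cu_jb2` in H48/PV/CoreU.lean) are used.
* `ES_bd`: `|pot e 1 Φ B x v| ≤ (1/2) ∫ |Φ v| B dν` for `B ≥ 0` (`|kl 1 z| ≤ 1/2`, `loc e 1 = ∫ dμ`, `nu_integral`; private `DerC_pot`, `DerC_loc` in H48/PV/DerC.lean, copy and generalise from `chi` to a weight `Ψ w`), `|avn Φ B v| ≤ ∫ |Φ v| B dν`. Bounds: `|PhD v w| ≤ K jb v ^ a jb w ≤ K jb w ^ 2` (`PhD_TF`),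
  `0 ≤ chi ≤ 1`, `0 ≤ bet F ≤ F`. Differences: `pot e 1 Φ B x u - pot e 1 Φ B x v` is the potential of `Φ u w - Φ v w` (linear; all integrals exist), `PhD_osc`, `||x|-|y|| ≤ |x-y|` for `PhA`.
* `EX_bd`: `ED` and `avn (W0 R)` do not depend on `v` (`ED_v`, rfl), `ED_abs` (H48/PV/DerC.lean), `0 ≤ avn (W0 R)(bet F) ≤ M'`, `jb_osc`, `jb v ^ a ≤ 1`.
-/

set_option autoImplicit false

open MeasureTheory Set Filter Topology Pool.Agent.H25.Kin Pool.Agent.H82.BK Pool.Agent.H82.CM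
open Pool.Agent.H48.PL Pool.Agent.H48.PI Pool.Agent.H48.PW Pool.Agent.H48.PV

namespace Pool.Agent.H85.DG

variable {d : ℕ} {a : ℝ} {e : Fin d} {F G : Vec d → Vec d → ℝ}

/-- continuous planar periodic functions with rapid decay in the velocity -/
private structure EBdA (e : Fin d) (A : Vec d → Vec d → ℝ) : Prop where
  cont : Continuous fun p : Vec d × Vec d => A p.1 p.2
  dec : RX A
  per : ∀ x v i, A (x + Pi.single i 1) v = A x v
  pl : ∀ x y v, x e = y e → A x v = A y v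

private lemma EBd_bd {A : Vec d → Vec d → ℝ} (hA : EBdA e A) {Φ : Vec d → Vec d → ℝ} (hΦ : PGW Φ)
    (v : Vec d) : ∃ C, ∀ x w, |Φ v w * A x w| ≤ C * wt d w := by
  obtain ⟨N, K, hK0, hK⟩ := hΦ.le
  obtain ⟨C, hC⟩ := hA.dec (N + (d + 1))
  refine ⟨K * (1 + ‖v‖) ^ N * C, fun x w => ?_⟩
  have hw : 0 < 1 + ‖w‖ := w_pos w
  have hv : 0 < 1 + ‖v‖ := w_pos v
  have h2 := hC x w
  rw [abs_mul]
  unfold wt
  rw [← div_eq_mul_inv, le_div_iff₀ (by positivity)]
  calc |Φ v w| * |A x w| * (1 + ‖w‖) ^ (d + 1)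
      ≤ (K * ((1 + ‖v‖) ^ N * (1 + ‖w‖) ^ N)) * |A x w| * (1 + ‖w‖) ^ (d + 1) := by
        have := hK v w
        gcongr
    _ = K * (1 + ‖v‖) ^ N * ((1 + ‖w‖) ^ (N + (d + 1)) * |A x w|) := by rw [pow_add]; ring
    _ ≤ K * (1 + ‖v‖) ^ N * C := by gcongr

private lemma EBd_wc {A : Vec d → Vec d → ℝ} (hA : EBdA e A) {Φ : Vec d → Vec d → ℝ} (hΦ : PGW Φ)
    (x v : Vec d) : Continuous fun w => Φ v w * A x w :=
  (hΦ.cont.comp (by fun_prop : Continuous fun w : Vec d => (v, w))).mul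
    (hA.cont.comp (by fun_prop : Continuous fun w : Vec d => (x, w)))

private lemma EBd_int {A : Vec d → Vec d → ℝ} (hA : EBdA e A) {Φ : Vec d → Vec d → ℝ} (hΦ : PGW Φ)
    (x v : Vec d) : Integrable fun w => Φ v w * A x w := by
  obtain ⟨C, hC⟩ := EBd_bd hA hΦ v
  exact (integrable_wt.const_mul C).mono' (EBd_wc hA hΦ x v).aestronglyMeasurable
    (Eventually.of_forall fun w => hC x w)

private lemma EBd_nu {A : Vec d → Vec d → ℝ} (hA : EBdA e A) {Φ : Vec d → Vec d → ℝ} (hΦ : PGW Φ)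
    (v : Vec d) : Integrable (fun p : Vec d × Vec d => Φ v p.1 * A p.2 p.1) (nu d) := by
  obtain ⟨C, hC⟩ := EBd_bd hA hΦ v
  have hc : Continuous fun p : Vec d × Vec d => Φ v p.1 * A p.2 p.1 :=
    (hΦ.cont.comp (by fun_prop : Continuous fun p : Vec d × Vec d => (v, p.1))).mul
      (hA.cont.comp (by fun_prop : Continuous fun p : Vec d × Vec d => (p.2, p.1)))
  exact integrable_nu hc.aestronglyMeasurable fun p => hC p.2 p.1

private lemma EBd_pl {A : Vec d → Vec d → ℝ} (hA : EBdA e A) {Φ : Vec d → Vec d → ℝ} (hΦ : PGW Φ)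
    (v : Vec d) : PlF e fun x => ∫ w, Φ v w * A x w := by
  obtain ⟨C, hC⟩ := EBd_bd hA hΦ v
  refine ⟨?_, ?_, ?_⟩
  · refine continuous_of_dominated (bound := fun w => C * wt d w) ?_ ?_
      (integrable_wt.const_mul _) ?_
    · intro x
      exact (EBd_wc hA hΦ x v).aestronglyMeasurable
    · intro x
      exact Eventually.of_forall fun w => hC x w
    · refine Eventually.of_forall fun w => ?_
      exact continuous_const.mul
        (hA.cont.comp (by fun_prop : Continuous fun x : Vec d => (x, w)))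
  · intro x i
    congr 1
    funext w
    rw [hA.per]
  · intro x y hxy
    congr 1
    funext w
    rw [hA.pl x y w hxy]

private lemma EBd_loc {B : Vec d → ℝ} (hB : PlF e B) (x : Vec d) :
    loc e 1 B x = ∫ y, B y ∂(muD d) := by
  obtain ⟨C, hC⟩ := pl_bdd hB
  have hfin : IsFiniteMeasure ((volume : Measure ℝ).restrict (Ioo (-(1 / 2)) (1 / 2))) :=
    ⟨by rw [Measure.restrict_apply_univ]; exact measure_Ioo_lt_top⟩
  have hi : Integrable (fun z : ℝ => B (x - Pi.single e z))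
      (volume.restrict (Ioo (-(1 / 2)) (1 / 2))) := by
    have hc : Continuous fun z : ℝ => x - (Pi.single e z : Vec d) :=
      continuous_const.sub (continuous_single (A := fun _ : Fin d => ℝ) e)
    exact Integrable.of_bound (hB.cont.comp hc).aestronglyMeasurable C
      (Eventually.of_forall fun z => hC _)
  have hv : (∫ _z in Ioo (-(1 / 2) : ℝ) (1 / 2), C) = C := by
    rw [setIntegral_const, Real.volume_real_Ioo_of_le (by norm_num)]
    norm_num
  have hm : (∫ _y : Vec d, C ∂(muD d)) = C := by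
    rw [integral_const, measureReal_def, muD_univ]
    simp
  have h1 : PlF e fun y => C - B y :=
    ⟨continuous_const.sub hB.cont, fun x i => by rw [hB.per], fun x y h => by rw [hB.pl x y h]⟩
  have h2 : PlF e fun y => C + B y :=
    ⟨continuous_const.add hB.cont, fun x i => by rw [hB.per], fun x y h => by rw [hB.pl x y h]⟩
  have e1 := loc_le h1 (fun y => by have := (abs_le.mp (hC y)).2; linarith) one_pos le_rfl x
  have e2 := loc_le h2 (fun y => by have := (abs_le.mp (hC y)).1; linarith) one_pos le_rfl x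
  unfold loc at e1 e2 ⊢
  rw [integral_sub (integrable_const _) hi, integral_sub (integrable_const _) (pl_int hB), hv,
    hm] at e1
  rw [integral_add (integrable_const _) hi, integral_add (integrable_const _) (pl_int hB), hv,
    hm] at e2
  linarith

private lemma EBd_bet {C : ℝ} (hC : 0 < C) (h : FS e F G) : EBdA e fun x w => bet C (F x w) := by
  refine ⟨?_, ?_, ?_, ?_⟩
  · unfold bet
    refine (continuous_const.mul h.contF).div (continuous_const.add h.contF) fun p => ?_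
    have := h.nonneg p.1 p.2
    positivity
  · intro N
    obtain ⟨K, hK⟩ := h.decF N
    refine ⟨K, fun x w => le_trans ?_ (hK x w)⟩
    have hw : 0 < 1 + ‖w‖ := w_pos w
    refine mul_le_mul_of_nonneg_left ?_ (by positivity)
    rw [abs_of_nonneg (bet_nonneg hC (h.nonneg x w)), abs_of_nonneg (h.nonneg x w)]
    exact bet_le hC (h.nonneg x w)
  · intro x w i
    simp only [h.perF]
  · intro x y w hxy
    simp only [h.plF x y w hxy]

private lemma EBd_F (h : FS e F G) : EBdA e F := ⟨h.contF, h.decF, h.perF, h.plF⟩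

/-- the weight of the second moment -/
private noncomputable def EBd_J (_v w : Vec d) : ℝ := jb w ^ 2

private lemma EBd_JP : PGW (EBd_J : Vec d → Vec d → ℝ) := by
  refine ⟨(jb_cont.comp continuous_snd).pow 2, 2, 1 + d, by positivity, fun v w => ?_⟩
  show |jb w ^ 2| ≤ _
  rw [abs_of_nonneg (by positivity), jb_sq]
  have h1 := sq_le w
  have h2 := norm_nonneg w
  have h3 := norm_nonneg v
  have h4 : (0 : ℝ) ≤ d := Nat.cast_nonneg _
  have h5 : 1 + nsq w ≤ (1 + d) * (1 + ‖w‖) ^ 2 := by nlinarith [mul_nonneg h4 h2]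
  have h6 : (1 : ℝ) ≤ (1 + ‖v‖) ^ 2 := by nlinarith
  calc 1 + nsq w ≤ (1 + d) * (1 + ‖w‖) ^ 2 := h5
    _ = (1 + d) * (1 * (1 + ‖w‖) ^ 2) := by ring
    _ ≤ (1 + d) * ((1 + ‖v‖) ^ 2 * (1 + ‖w‖) ^ 2) := by gcongr

/-- the second moment -/
private noncomputable def EBd_m (B : Vec d → Vec d → ℝ) : ℝ :=
  ∫ p, jb p.1 ^ 2 * B p.2 p.1 ∂(nu d)

private lemma EBd_avn {B : Vec d → Vec d → ℝ} (hB : EBdA e B) (hB0 : ∀ x w, 0 ≤ B x w)
    {Φ : Vec d → Vec d → ℝ} {K : ℝ} (v : Vec d)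
    (hK : ∀ w, |Φ v w| ≤ K * jb w ^ 2) : |avn Φ B v| ≤ K * EBd_m B := by
  have i0 : Integrable (fun p : Vec d × Vec d => jb p.1 ^ 2 * B p.2 p.1) (nu d) :=
    EBd_nu hB EBd_JP v
  unfold avn EBd_m
  rw [← integral_const_mul]
  have h1 : ‖∫ p, Φ v p.1 * B p.2 p.1 ∂(nu d)‖ ≤ ∫ p, K * (jb p.1 ^ 2 * B p.2 p.1) ∂(nu d) := by
    refine norm_integral_le_of_norm_le (i0.const_mul K) (Eventually.of_forall fun p => ?_)
    rw [Real.norm_eq_abs, abs_mul, abs_of_nonneg (hB0 _ _)]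
    have := mul_le_mul_of_nonneg_right (hK p.1) (hB0 p.2 p.1)
    linarith
  exact h1

private lemma EBd_pot {B : Vec d → Vec d → ℝ} (hB : EBdA e B) (hB0 : ∀ x w, 0 ≤ B x w)
    {Φ : Vec d → Vec d → ℝ} {K : ℝ} (x v : Vec d)
    (hK : ∀ w, |Φ v w| ≤ K * jb w ^ 2) : |pot e 1 Φ B x v| ≤ 1 / 2 * (K * EBd_m B) := by
  have i0 : Integrable (fun p : Vec d × Vec d => jb p.1 ^ 2 * B p.2 p.1) (nu d) :=
    EBd_nu hB EBd_JP v
  have q0 : PlF e fun y => ∫ w, (EBd_J : Vec d → Vec d → ℝ) v w * B y w := EBd_pl hB EBd_JP v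
  have e0 : EBd_m B = ∫ y, (∫ w, (EBd_J : Vec d → Vec d → ℝ) v w * B y w) ∂(muD d) :=
    Pool.Agent.H15.AV.nu_integral i0
  have l0 := EBd_loc q0 x
  have hc : Continuous fun z : ℝ => x - (Pi.single e z : Vec d) :=
    continuous_const.sub (continuous_single (A := fun _ : Fin d => ℝ) e)
  have hfin : IsFiniteMeasure ((volume : Measure ℝ).restrict (Ioo (-(1 / 2)) (1 / 2))) :=
    ⟨by rw [Measure.restrict_apply_univ]; exact measure_Ioo_lt_top⟩
  obtain ⟨C', hC'⟩ := pl_bdd q0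
  have him : Integrable (fun z : ℝ => ∫ w, (EBd_J : Vec d → Vec d → ℝ) v w * B (x - Pi.single e z) w)
      (volume.restrict (Ioo (-(1 / 2)) (1 / 2))) :=
    Integrable.of_bound (q0.cont.comp hc).aestronglyMeasurable C'
      (Eventually.of_forall fun z => hC' _)
  unfold loc at l0
  rw [e0, ← l0, ← integral_const_mul, ← integral_const_mul]
  unfold pot
  have h1 : ‖∫ z in Ioo (-(1 / 2) : ℝ) (1 / 2), kl 1 z * ∫ w, Φ v w * B (x - Pi.single e z) w‖ ≤
      ∫ z in Ioo (-(1 / 2) : ℝ) (1 / 2), 1 / 2 *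
        (K * ∫ w, (EBd_J : Vec d → Vec d → ℝ) v w * B (x - Pi.single e z) w) := by
    refine norm_integral_le_of_norm_le ((him.const_mul _).const_mul _) ?_
    filter_upwards [ae_restrict_mem measurableSet_Ioo] with z hz
    have h3 : |kl 1 z| ≤ 1 / 2 := kl_abs one_pos hz
    have h2 : ‖∫ w, Φ v w * B (x - Pi.single e z) w‖ ≤
        ∫ w, K * ((EBd_J : Vec d → Vec d → ℝ) v w * B (x - Pi.single e z) w) := by
      refine norm_integral_le_of_norm_le ((EBd_int hB EBd_JP _ v).const_mul K)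
        (Eventually.of_forall fun w => ?_)
      rw [Real.norm_eq_abs, abs_mul, abs_of_nonneg (hB0 _ _)]
      have := mul_le_mul_of_nonneg_right (hK w) (hB0 (x - Pi.single e z) w)
      unfold EBd_J
      linarith
    rw [integral_const_mul, Real.norm_eq_abs] at h2
    rw [norm_mul, Real.norm_eq_abs, Real.norm_eq_abs]
    exact mul_le_mul h3 h2 (abs_nonneg _) (by norm_num)
  exact h1

private lemma EBd_avs {B : Vec d → Vec d → ℝ} (hB : EBdA e B) {Φ : Vec d → Vec d → ℝ} (hΦ : PGW Φ)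
    (u v : Vec d) : avn Φ B u - avn Φ B v = avn (fun _ w => Φ u w - Φ v w) B v := by
  unfold avn
  rw [← integral_sub (EBd_nu hB hΦ u) (EBd_nu hB hΦ v)]
  refine integral_congr_ae (Eventually.of_forall fun p => ?_)
  simp only
  ring

private lemma EBd_pos {B : Vec d → Vec d → ℝ} (hB : EBdA e B) {Φ : Vec d → Vec d → ℝ} (hΦ : PGW Φ)
    (x u v : Vec d) :
    pot e 1 Φ B x u - pot e 1 Φ B x v = pot e 1 (fun _ w => Φ u w - Φ v w) B x v := by
  have hc : Continuous fun z : ℝ => x - (Pi.single e z : Vec d) :=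
    continuous_const.sub (continuous_single (A := fun _ : Fin d => ℝ) e)
  have hfin : IsFiniteMeasure ((volume : Measure ℝ).restrict (Ioo (-(1 / 2)) (1 / 2))) :=
    ⟨by rw [Measure.restrict_apply_univ]; exact measure_Ioo_lt_top⟩
  have key : ∀ t : Vec d, Integrable (fun z : ℝ => kl 1 z * ∫ w, Φ t w * B (x - Pi.single e z) w)
      (volume.restrict (Ioo (-(1 / 2)) (1 / 2))) := by
    intro t
    have q0 : PlF e fun y => ∫ w, Φ t w * B y w := EBd_pl hB hΦ t
    obtain ⟨C', hC'⟩ := pl_bdd q0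
    refine Integrable.of_bound
      ((kl_meas 1).aestronglyMeasurable.mul (q0.cont.comp hc).aestronglyMeasurable) (1 / 2 * C') ?_
    filter_upwards [ae_restrict_mem measurableSet_Ioo] with z hz
    have h3 : |kl 1 z| ≤ 1 / 2 := kl_abs one_pos hz
    have h2 := hC' (x - Pi.single e z)
    rw [norm_mul, Real.norm_eq_abs, Real.norm_eq_abs]
    exact mul_le_mul h3 h2 (abs_nonneg _) (by norm_num)
  unfold pot
  rw [← integral_sub (key u) (key v)]
  refine integral_congr_ae (Eventually.of_forall fun z => ?_)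
  simp only
  rw [← mul_sub, ← integral_sub (EBd_int hB hΦ _ u) (EBd_int hB hΦ _ v)]
  congr 1
  refine integral_congr_ae (Eventually.of_forall fun w => ?_)
  simp only
  ring

private lemma EBd_one : PGW (fun _ _ => 1 : Vec d → Vec d → ℝ) := by
  refine ⟨continuous_const, 0, 1, zero_le_one, fun v w => ?_⟩
  simp

private lemma EBd_nsq : PGW (fun _ w => nsq w : Vec d → Vec d → ℝ) := by
  refine ⟨continuous_sq.comp continuous_snd, 2, d, Nat.cast_nonneg _, fun v w => ?_⟩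
  show |nsq w| ≤ _
  rw [abs_of_nonneg (sq_nonneg' w)]
  have h1 := sq_le w
  have h2 := norm_nonneg w
  have h3 := norm_nonneg v
  have h4 : (0 : ℝ) ≤ d := Nat.cast_nonneg _
  have h6 : (1 : ℝ) ≤ (1 + ‖v‖) ^ 2 := by nlinarith
  calc nsq w ≤ d * ‖w‖ ^ 2 := h1
    _ ≤ d * (1 + ‖w‖) ^ 2 := by gcongr; linarith
    _ = d * (1 * (1 + ‖w‖) ^ 2) := by ring
    _ ≤ d * ((1 + ‖v‖) ^ 2 * (1 + ‖w‖) ^ 2) := by gcongr

private lemma EBd_mF (h : FS e F G) {M : ℝ} (hg : GB M F) : EBd_m F ≤ 2 * M := by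
  have i1 := EBd_nu (EBd_F h) EBd_one (0 : Vec d)
  have i2 := EBd_nu (EBd_F h) EBd_nsq (0 : Vec d)
  have e1 : EBd_m F = ∫ p, 1 * F p.2 p.1 ∂(nu d) + ∫ p, nsq p.1 * F p.2 p.1 ∂(nu d) := by
    unfold EBd_m
    rw [← integral_add i1 i2]
    refine integral_congr_ae (Eventually.of_forall fun p => ?_)
    simp only
    rw [jb_sq]
    ring
  have e2 : ∫ p, 1 * F p.2 p.1 ∂(nu d) = ∫ p, F p.2 p.1 ∂(nu d) :=
    integral_congr_ae (Eventually.of_forall fun p => one_mul _)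
  have e3 : ∫ p, nsq p.1 * F p.2 p.1 ∂(nu d) = ∫ p, F p.2 p.1 * nsq p.1 ∂(nu d) :=
    integral_congr_ae (Eventually.of_forall fun p => mul_comm _ _)
  rw [e1, e2, e3]
  linarith [hg.mass, hg.energy]

private lemma EBd_mB {C : ℝ} (hC : 0 < C) (h : FS e F G) :
    EBd_m (fun x w => bet C (F x w)) ≤ EBd_m F := by
  refine integral_mono (EBd_nu (EBd_bet hC h) EBd_JP (0 : Vec d)) (EBd_nu (EBd_F h) EBd_JP (0 : Vec d))
    fun p => ?_
  exact mul_le_mul_of_nonneg_left (bet_le hC (h.nonneg _ _)) (by positivity)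

private lemma EBd_m0 {B : Vec d → Vec d → ℝ} (hB0 : ∀ x w, 0 ≤ B x w) : 0 ≤ EBd_m B :=
  integral_nonneg fun p => mul_nonneg (by positivity) (hB0 _ _)

private lemma EBd_one_le (v : Vec d) : 1 ≤ jb v := by
  have h1 := jb_sq v
  have h2 := jb_pos v
  have h3 := sq_nonneg' v
  nlinarith

theorem ES_bd {P : Pd} (hP : P.Ok) (M' : ℝ) : ∃ K : ℝ, 0 ≤ K ∧ ∀ (e : Fin d) (F G : Vec d → Vec d → ℝ),
    FS e F G → GB M' F → ∀ x u v : Vec d, |ES P e F x v| ≤ K ∧
      |ES P e F x u - ES P e F x v| ≤ K * min 1 (len (u - v) / jb v) := by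
  obtain ⟨K₁, hK₁, h₁⟩ := PhD_TF (d := d) hP.ha hP.ha0 hP.hr hP.hr1
  obtain ⟨K₂, hK₂, h₂⟩ := PhD_osc (d := d) hP.ha hP.ha0 hP.hr hP.hr1
  refine ⟨P.K * (2 * (K₁ + K₂) * (2 * |M'|)), by have := hP.hK; positivity, ?_⟩
  intro e F G h hg x u v
  have hB := EBd_bet hP.hC0 h
  have hF := EBd_F h
  have hF0 := h.nonneg
  have hB0 : ∀ x w, 0 ≤ (fun x w => bet P.C₀ (F x w)) x w := fun x w => bet_nonneg hP.hC0 (h.nonneg x w)
  have hm1 : EBd_m F ≤ 2 * |M'| := (EBd_mF h hg).trans (by linarith [le_abs_self M'])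
  have hm2 := EBd_mB hP.hC0 h
  have hm0 := EBd_m0 hF0
  have hm3 := EBd_m0 hB0
  set m := EBd_m F
  set m' := EBd_m fun x w => bet P.C₀ (F x w)
  have pD := PhD_PGW (d := d) hP.ha hP.ha0 hP.hr e
  have pA := PhA_PGW (d := d) hP.ha hP.ha0 hP.hr e
  have hJ : ∀ w : Vec d, 0 ≤ jb w ^ 2 := fun w => by positivity
  have d0 : ∀ w, |PhD e P.a P.r v w| ≤ K₁ * jb w ^ 2 := by
    intro w
    have q1 := (h₁ e v).h0 w
    have q2 : jb v ^ P.a ≤ 1 := Real.rpow_le_one_of_one_le_of_nonpos (EBd_one_le v) hP.ha0.le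
    have q3 := EBd_one_le w
    have q4 : 0 ≤ jb v ^ P.a := Real.rpow_nonneg (jb_pos v).le _
    calc |PhD e P.a P.r v w| ≤ K₁ * jb v ^ P.a * jb w := q1
      _ ≤ K₁ * 1 * jb w ^ 2 := by
        have : jb w ≤ jb w ^ 2 := by nlinarith
        gcongr
      _ = K₁ * jb w ^ 2 := by ring
  have c0 : ∀ w, |cutW P.R (PhD e P.a P.r) v w| ≤ K₁ * jb w ^ 2 := by
    intro w
    unfold cutW
    rw [abs_mul, abs_of_nonneg (chi_nonneg _ _)]
    exact (mul_le_of_le_one_left (abs_nonneg _) (chi_le_one _ w)).trans (d0 w)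
  have a0 : ∀ w, |cutW P.R (PhA e P.a P.r) v w| ≤ K₁ * jb w ^ 2 := by
    intro w
    unfold cutW PhA
    rw [abs_mul, abs_of_nonneg (chi_nonneg _ _), abs_abs]
    exact (mul_le_of_le_one_left (abs_nonneg _) (chi_le_one _ w)).trans (d0 w)
  set k := min 1 (len (u - v) / jb v)
  have hk : 0 ≤ k := le_min zero_le_one (div_nonneg (Real.sqrt_nonneg _) (jb_pos v).le)
  have d1 : ∀ w, |PhD e P.a P.r u w - PhD e P.a P.r v w| ≤ K₂ * k * jb w ^ 2 := by
    intro w
    have := h₂ e u v w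
    linarith
  have c1 : ∀ w, |cutW P.R (PhD e P.a P.r) u w - cutW P.R (PhD e P.a P.r) v w| ≤ K₂ * k * jb w ^ 2 := by
    intro w
    unfold cutW
    rw [← mul_sub, abs_mul, abs_of_nonneg (chi_nonneg _ _)]
    exact (mul_le_of_le_one_left (abs_nonneg _) (chi_le_one _ w)).trans (d1 w)
  have a1 : ∀ w, |cutW P.R (PhA e P.a P.r) u w - cutW P.R (PhA e P.a P.r) v w| ≤ K₂ * k * jb w ^ 2 := by
    intro w
    unfold cutW PhA
    rw [← mul_sub, abs_mul, abs_of_nonneg (chi_nonneg _ _)]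
    exact (mul_le_of_le_one_left (abs_nonneg _) (chi_le_one _ w)).trans
      ((abs_abs_sub_abs_le_abs_sub _ _).trans (d1 w))
  have t1 := EBd_pot (e := e) hF hF0 x v d0
  have t2 := EBd_avn hB hB0 v a0
  have t3 := EBd_pot (e := e) hB hB0 x v c0
  have s1 := EBd_pot (e := e) hF hF0 (Φ := fun _ w => PhD e P.a P.r u w - PhD e P.a P.r v w) x v d1
  have s2 := EBd_avn hB hB0
    (Φ := fun _ w => cutW P.R (PhA e P.a P.r) u w - cutW P.R (PhA e P.a P.r) v w) v a1
  have s3 := EBd_pot (e := e) hB hB0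
    (Φ := fun _ w => cutW P.R (PhD e P.a P.r) u w - cutW P.R (PhD e P.a P.r) v w) x v c1
  rw [← EBd_pos hF pD] at s1
  rw [← EBd_avs hB (cutW_PGW pA P.R)] at s2
  rw [← EBd_pos hB (cutW_PGW pD P.R)] at s3
  have b1 := abs_le.mp t1
  have b2 := abs_le.mp t2
  have b3 := abs_le.mp t3
  have f1 := abs_le.mp s1
  have f2 := abs_le.mp s2
  have f3 := abs_le.mp s3
  have w1 : K₁ * m' ≤ K₁ * m := mul_le_mul_of_nonneg_left hm2 hK₁
  have w2 : K₁ * m ≤ K₁ * (2 * |M'|) := mul_le_mul_of_nonneg_left hm1 hK₁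
  have w3 : 0 ≤ K₂ * (2 * |M'|) := by positivity
  have w4 : K₂ * k * m' ≤ K₂ * k * m := mul_le_mul_of_nonneg_left hm2 (by positivity)
  have w5 : K₂ * k * m ≤ K₂ * k * (2 * |M'|) := mul_le_mul_of_nonneg_left hm1 (by positivity)
  have w6 : 0 ≤ K₁ * (2 * |M'|) * k := by positivity
  have w7 : 0 ≤ K₁ * (2 * |M'|) := by positivity
  have w8 : 0 ≤ K₂ * k * (2 * |M'|) := by positivity
  unfold ES
  constructor
  · rw [← mul_add, abs_mul, abs_of_nonneg hP.hK]
    refine mul_le_mul_of_nonneg_left ?_ hP.hK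
    rw [abs_le]
    constructor <;> nlinarith [b1.1, b1.2, b2.1, b2.2, b3.1, b3.2]
  · have e1 : ∀ A A' B B' D D' : ℝ, P.K * A + P.K * (B - D) - (P.K * A' + P.K * (B' - D')) =
        P.K * ((A - A') + (B - B') - (D - D')) := by intros; ring
    rw [e1, abs_mul, abs_of_nonneg hP.hK, mul_assoc]
    refine mul_le_mul_of_nonneg_left ?_ hP.hK
    rw [abs_le]
    constructor <;> nlinarith [f1.1, f1.2, f2.1, f2.2, f3.1, f3.2]

theorem EX_bd (ha : -1 ≤ a) (ha0 : a < 0) {R : ℝ} (hR : 1 ≤ R) (M' : ℝ) : ∃ K : ℝ, 0 ≤ K ∧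
    ∀ C : ℝ, 0 < C → ∀ (e : Fin d) (F G : Vec d → Vec d → ℝ), FS e F G → GB M' F → ∀ x u v : Vec d,
      |EX a R C e F x v| ≤ K ∧ |EX a R C e F x u - EX a R C e F x v| ≤ K * min 1 (len (u - v) / jb v) := by
  have hkD : 0 ≤ kD R := by unfold kD; positivity
  refine ⟨4 * (2 * R * M' ^ 2 + kD R * (2 * |M'|)), by positivity, ?_⟩
  intro C hC e F G h hg x u v
  have hB := EBd_bet hC h
  have hB0 : ∀ x w, 0 ≤ (fun x w => bet C (F x w)) x w := fun x w => bet_nonneg hC (h.nonneg x w)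
  have hm1 : EBd_m F ≤ 2 * |M'| := (EBd_mF h hg).trans (by linarith [le_abs_self M'])
  have hm2 := EBd_mB hC h
  have t1 := ED_abs hR hC h hg.mass x v
  have t2 : |avn (W0 R) (fun y w => bet C (F y w)) v| ≤ 1 * EBd_m fun x w => bet C (F x w) := by
    refine EBd_avn hB hB0 v fun w => ?_
    unfold W0
    rw [abs_of_nonneg (chi_nonneg _ _)]
    have h1 := chi_le_one R w
    have h2 := EBd_one_le w
    nlinarith
  have t3 : |avn (W0 R) (fun y w => bet C (F y w)) v| ≤ 2 * |M'| := by linarith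
  have t4 : |ED R C e F x v + kD R * avn (W0 R) (fun y w => bet C (F y w)) v| ≤
      2 * R * M' ^ 2 + kD R * (2 * |M'|) := by
    refine (abs_add_le _ _).trans ?_
    rw [abs_mul, abs_of_nonneg hkD]
    exact add_le_add t1 (mul_le_mul_of_nonneg_left t3 hkD)
  have q2 : jb v ^ a ≤ 1 := Real.rpow_le_one_of_one_le_of_nonpos (EBd_one_le v) ha0.le
  have q4 : 0 ≤ jb v ^ a := Real.rpow_nonneg (jb_pos v).le _
  have q5 : 0 ≤ 2 * R * M' ^ 2 + kD R * (2 * |M'|) := by positivity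
  unfold EX
  constructor
  · rw [abs_mul, abs_of_nonneg q4]
    have := mul_le_mul q2 t4 (abs_nonneg _) zero_le_one
    linarith
  · have e1 : jb u ^ a * (ED R C e F x u + kD R * avn (W0 R) (fun y w => bet C (F y w)) u) -
        jb v ^ a * (ED R C e F x v + kD R * avn (W0 R) (fun y w => bet C (F y w)) v) =
        (jb u ^ a - jb v ^ a) * (ED R C e F x v + kD R * avn (W0 R) (fun y w => bet C (F y w)) v) := by
      rw [ED_v e F x u v]
      have : avn (W0 R) (fun y w => bet C (F y w)) u = avn (W0 R) (fun y w => bet C (F y w)) v := rfl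
      rw [this]
      ring
    rw [e1, abs_mul]
    have h1 := jb_osc ha ha0 u v
    calc _ ≤ 4 * min 1 (len (u - v) / jb v) * (2 * R * M' ^ 2 + kD R * (2 * |M'|)) :=
          mul_le_mul h1 t4 (abs_nonneg _) ((abs_nonneg _).trans h1)
      _ = 4 * (2 * R * M' ^ 2 + kD R * (2 * |M'|)) * min 1 (len (u - v) / jb v) := by ring

end Pool.Agent.H85.DG
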