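import Pool.Agent.H85.DG.PhP

/-!
# Module EDefD: continuity, periodicity and derivative of the weight function

As `EG_cont`, `EG_per`, `EG_char` (H48/PG/EGDef.lean). The factor `jb v ^ a` does not depend on `t, x`.
-/

set_option autoImplicit false

open MeasureTheory Set Filter Topology Pool.Agent.H25.Kin Pool.Agent.H82.BK Pool.Agent.H82.CM
open Pool.Agent.H48.PL Pool.Agent.H48.PI Pool.Agent.H48.PW Pool.Agent.H48.PV

namespace Pool.Agent.H85.DG

variable {d : ℕ} {T : ℝ} {Q f : ℝ → Vec d → Vec d → ℝ} {P : Pd} {a R C : ℝ}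

private lemma edef_avn {Φ : Vec d → Vec d → ℝ} (hf : IsClassicalSol T Q f) (hΦ : PGW Φ) :
    ContinuousOn (unc fun t (_ : Vec d) v => avn Φ (f t) v) (Ico 0 T ×ˢ univ) := by
  have h1 : Continuous fun z : ℝ × Vec d × Vec d => (z.1, z.2.2) := by fun_prop
  exact (avn_cont hf hΦ).comp h1.continuousOn fun z hz => ⟨hz.1, mem_univ _⟩

private lemma edef_ED (hC : 0 < C) (hf : IsClassicalSol T Q f) (e : Fin d) :
    ContinuousOn (unc fun t x v => ED R C e (f t) x v) (Ico 0 T ×ˢ univ) := by
  have hb := bet_sol hC hf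
  have h1 := edef_avn hb (W0_PGW (d := d) R)
  have h2 := pot_cont hb (W1_PGW e R) e one_pos
  have h3 := edef_avn hb (W1_PGW e R)
  have h4 := pot_cont hb (W0_PGW (d := d) R) e one_pos
  exact (h1.mul h2).sub (h3.mul h4)

private lemma edef_jb (a : ℝ) : Continuous fun v : Vec d => jb v ^ a :=
  jb_cont.rpow_const fun v => Or.inl (jb_pos v).ne'

theorem EX_cont (hC : 0 < C) (hf : IsClassicalSol T Q f) (e : Fin d) :
    ContinuousOn (unc fun t x v => EX a R C e (f t) x v) (Ico 0 T ×ˢ univ) := by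
  have hb := bet_sol hC hf
  have h1 := edef_ED (R := R) hC hf e
  have h2 := edef_avn hb (W0_PGW (d := d) R)
  have h3 : Continuous fun z : ℝ × Vec d × Vec d => jb z.2.2 ^ a :=
    (edef_jb a).comp (by fun_prop : Continuous fun z : ℝ × Vec d × Vec d => z.2.2)
  exact h3.continuousOn.mul (h1.add (continuousOn_const.mul h2))

private lemma edef_ES (hP : P.Ok) (hf : IsClassicalSol T Q f) (e : Fin d) :
    ContinuousOn (unc fun t x v => ES P e (f t) x v) (Ico 0 T ×ˢ univ) := by
  have hb := bet_sol hP.hC0 hf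
  have hO := PhD_PGW hP.ha hP.ha0 hP.hr e
  have hA := PhA_PGW hP.ha hP.ha0 hP.hr e
  have h1 := pot_cont hf hO e one_pos
  have h2 := edef_avn hb (cutW_PGW hA P.R)
  have h3 := pot_cont hb (cutW_PGW hO P.R) e one_pos
  exact (continuousOn_const.mul h1).add (continuousOn_const.mul (h2.sub h3))

theorem ET_cont (hP : P.Ok) (hf : IsClassicalSol T Q f) (e : Fin d) :
    ContinuousOn (unc fun t x v => ET P e (f t) x v) (Ico 0 T ×ˢ univ) :=
  (edef_ES hP hf e).add (continuousOn_const.mul (EX_cont hP.hC₂ hf e))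

lemma EX_per {F : Vec d → Vec d → ℝ} (hF : ∀ x v i, F (x + Pi.single i 1) v = F x v) (e : Fin d)
    (x v : Vec d) (i : Fin d) : EX a R C e F (x + Pi.single i 1) v = EX a R C e F x v := by
  have hb : ∀ (y w : Vec d) (j : Fin d), (fun y w => bet C (F y w)) (y + Pi.single j 1) w =
      (fun y w => bet C (F y w)) y w := by
    intro y w j
    show bet C (F (y + Pi.single j 1) w) = bet C (F y w)
    rw [hF]
  unfold EX ED
  rw [pot_per hb, pot_per hb]

lemma ET_per {F : Vec d → Vec d → ℝ} (hF : ∀ x v i, F (x + Pi.single i 1) v = F x v) (e : Fin d)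
    (x v : Vec d) (i : Fin d) : ET P e F (x + Pi.single i 1) v = ET P e F x v := by
  have hb : ∀ (y w : Vec d) (j : Fin d), (fun y w => bet P.C₀ (F y w)) (y + Pi.single j 1) w =
      (fun y w => bet P.C₀ (F y w)) y w := by
    intro y w j
    show bet P.C₀ (F (y + Pi.single j 1) w) = bet P.C₀ (F y w)
    rw [hF]
  unfold ET ES
  rw [EX_per hF, pot_per hF, pot_per hb]

private lemma edef_ED_char (hC : 0 < C) (hf : IsClassicalSol T Q f) {e : Fin d} (hpl : Planar e T f) {t : ℝ}
    (ht : t ∈ Ioo 0 T) (x v : Vec d) :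
    HasDerivAt (fun r => ED R C e (f r) (x + r • v) v) (dED R C e (f t) (Q t) (x + t • v) v) t := by
  have hb := bet_sol hC hf
  have hbp : Planar e T fun t x v => bet C (f t x v) := bet_planar hpl
  have h1 := avn_deriv hb (W0_PGW (d := d) R) ht v
  have h2 := pot_char hb hbp (W1_PGW e R) one_pos ht x v
  have h3 := avn_deriv hb (W1_PGW e R) ht v
  have h4 := pot_char hb hbp (W0_PGW (d := d) R) one_pos ht x v
  exact (h1.mul h2).sub (h3.mul h4)

theorem EX_char (hC : 0 < C) (hf : IsClassicalSol T Q f) {e : Fin d} (hpl : Planar e T f) {t : ℝ}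
    (ht : t ∈ Ioo 0 T) (x v : Vec d) :
    HasDerivAt (fun r => EX a R C e (f r) (x + r • v) v) (dEX a R C e (f t) (Q t) (x + t • v) v) t := by
  have hb := bet_sol hC hf
  have h1 := edef_ED_char (R := R) hC hf hpl ht x v
  have h2 := avn_deriv hb (W0_PGW (d := d) R) ht v
  exact (h1.add (h2.const_mul (kD R))).const_mul (jb v ^ a)

theorem ET_char (hP : P.Ok) (hf : IsClassicalSol T Q f) {e : Fin d} (hpl : Planar e T f)
    {t : ℝ} (ht : t ∈ Ioo 0 T) (x v : Vec d) :
    HasDerivAt (fun q => ET P e (f q) (x + q • v) v) (dET P e (f t) (Q t) (x + t • v) v) t := by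
  have hb := bet_sol hP.hC0 hf
  have hbp : Planar e T fun t x v => bet P.C₀ (f t x v) := bet_planar hpl
  have hO := PhD_PGW hP.ha hP.ha0 hP.hr e
  have hA := PhA_PGW hP.ha hP.ha0 hP.hr e
  have h1 := pot_char hf hpl hO one_pos ht x v
  have h2 := avn_deriv hb (cutW_PGW hA P.R) ht v
  have h3 := pot_char hb hbp (cutW_PGW hO P.R) one_pos ht x v
  have h4 : HasDerivAt (fun q => ES P e (f q) (x + q • v) v) (dES P e (f t) (Q t) (x + t • v) v) t :=
    (h1.const_mul P.K).add ((h2.sub h3).const_mul P.K)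
  exact h4.add ((EX_char hP.hC₂ hf hpl ht x v).const_mul P.lam)

end Pool.Agent.H85.DG
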