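import Pool.Agent.H85.DG.PhV

/-!
# Module SmD: the regularisation error and the unbounded part are small

`g (1+nsq)^p ≤ A` gives `g ≤ A jb ^ (-2p)`, `2p ≥ d + 4`.
* `r_small`: `VPhS_PhD`, `0 ≤ g - g₁ ≤ g`: the difference of the two integrals is `≤ r^(1+a) ∫_(len (v-w) < r) g ≤ r^(1+a) A (jb v/2)^(-2p) vol{len (v-w) < r}` (`jb v ≤ jb w + 1 ≤ 2 jb w`), `vol{len < r} = r^d vol{len < 1}` (or simply `≤ (2r)^d ≤ 2^d r`: `len u < r` implies `‖u‖ < r`, volume of the cube), `r^(1+a) ≤ 1`,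
  `jb v ^ (-2p) ≤ jb v ^ a`: choose `r = min 1 (ε/(4^p 2^d |A| + 1))`.
* `g2_small`: `g - chi bet(g) ≤ g` and, for `jb w ≤ R` (`chi = 1`, `chi_eq_one`), `= g^2/(C₀+g) ≤ A g/C₀` (`sub_bet`); `VPhS_le`: the integral is `≤ 2 jb v ^ a (A/C₀ ∫ g jb + ∫_(jb > R) g jb) ≤ 2 jb v ^ a (A^2/C₀ + A/R) ∫ jb ^ (2-2p)`, and `∫ jb ^ (2-2p) < ∞` as `2p - 2 ≥ d + 2`.
-/

set_option autoImplicit false

open MeasureTheory Set Filter Topology Pool.Agent.H25.Kin Pool.Agent.H82.BK Pool.Agent.H82.CM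
open Pool.Agent.H48.PL Pool.Agent.H48.PI Pool.Agent.H48.PW Pool.Agent.H48.PV

namespace Pool.Agent.H85.DG

variable {d : ℕ} {a : ℝ}

private lemma smd_norm_sq_le (w : Vec d) : ‖w‖ ^ 2 ≤ nsq w := by
  have h := norm_le_len w
  have h1 := len_sq w
  have h2 := norm_nonneg w
  nlinarith [len_nonneg w]

private lemma smd_int (q : ℕ) (h : (d : ℝ) < 2 * q) :
    Integrable fun w : Vec d => ((1 + nsq w) ^ q)⁻¹ := by
  have h0 := integrable_one_add_norm (E := Vec d) (μ := volume) (r := ((2 * q : ℕ) : ℝ))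
    (by
      rw [Module.finrank_fin_fun]
      push_cast
      exact h)
  have hm : Measurable fun w : Vec d => ((1 + nsq w) ^ q)⁻¹ :=
    ((measurable_const.add continuous_sq.measurable).pow_const q).inv
  refine (h0.const_mul (2 ^ q)).mono' hm.aestronglyMeasurable (Eventually.of_forall fun w => ?_)
  have hn := sq_nonneg' w
  have hw := norm_nonneg w
  have h1 : 0 < 1 + nsq w := by linarith
  rw [Real.norm_eq_abs, abs_of_nonneg (by positivity)]
  have h2 : (1 + ‖w‖) ^ 2 ≤ 2 * (1 + nsq w) := by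
    have := smd_norm_sq_le w
    nlinarith [_root_.sq_nonneg (1 - ‖w‖)]
  have h3 : ((1 + ‖w‖) ^ 2) ^ q ≤ (2 * (1 + nsq w)) ^ q := pow_le_pow_left₀ (by positivity) h2 q
  rw [Real.rpow_neg (by linarith), Real.rpow_natCast, pow_mul]
  rw [mul_pow] at h3
  rw [← div_eq_mul_inv, inv_eq_one_div, div_le_div_iff₀ (by positivity) (by positivity)]
  linarith

private lemma smd_jb_inv (w : Vec d) {p : ℕ} (hp : 1 ≤ p) :
    jb w * ((1 + nsq w) ^ p)⁻¹ ≤ ((1 + nsq w) ^ (p - 1))⁻¹ := by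
  obtain ⟨q, rfl⟩ : ∃ q, p = q + 1 := ⟨p - 1, by omega⟩
  have hn := sq_nonneg' w
  have h1 : 0 < 1 + nsq w := by linarith
  have h2 : jb w ≤ 1 + nsq w := by
    have := jb_sq w
    nlinarith [one_le_jb w]
  rw [Nat.add_sub_cancel, ← div_eq_mul_inv, inv_eq_one_div,
    div_le_div_iff₀ (by positivity) (by positivity), pow_succ, one_mul]
  rw [mul_comm ((1 + nsq w) ^ q)]
  exact mul_le_mul_of_nonneg_right h2 (by positivity)

private lemma smd_jb2_inv (w : Vec d) {p : ℕ} (hp : 1 ≤ p) :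
    jb w ^ 2 * ((1 + nsq w) ^ p)⁻¹ = ((1 + nsq w) ^ (p - 1))⁻¹ := by
  obtain ⟨q, rfl⟩ : ∃ q, p = q + 1 := ⟨p - 1, by omega⟩
  have hn := sq_nonneg' w
  have h1 : 0 < 1 + nsq w := by linarith
  rw [jb_sq, Nat.add_sub_cancel, pow_succ]
  field_simp

private lemma smd_inv_one (w : Vec d) {p : ℕ} (hp : 1 ≤ p) :
    ((1 + nsq w) ^ p)⁻¹ ≤ ((1 + nsq w) ^ (p - 1))⁻¹ := by
  have h := smd_jb_inv w hp
  have hn := sq_nonneg' w
  have h1 : (0 : ℝ) < 1 + nsq w := by linarith
  have h2 : 0 ≤ ((1 + nsq w) ^ p)⁻¹ := by positivity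
  nlinarith [one_le_jb w]

private lemma smd_g_le {g : Vec d → ℝ} {p : ℕ} {A : ℝ} (hA : ∀ u, g u * (1 + nsq u) ^ p ≤ A)
    (w : Vec d) : g w ≤ |A| * ((1 + nsq w) ^ p)⁻¹ := by
  have hn := sq_nonneg' w
  have h1 : (0 : ℝ) < (1 + nsq w) ^ p := by positivity
  rw [← div_eq_mul_inv, le_div_iff₀ h1]
  exact (hA w).trans (le_abs_self A)

private lemma smd_meas (e : Fin d) (a r : ℝ) (v : Vec d) :
    Measurable fun w : Vec d => (v e - w e) * PhD e a r v w := by
  have hj : Measurable (jb : Vec d → ℝ) := jb_cont.measurable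
  have hl : Measurable fun w : Vec d => len (v - w) :=
    (continuous_len.comp (continuous_const.sub continuous_id)).measurable
  have he : Measurable fun w : Vec d => v e - w e := (measurable_const.sub (measurable_pi_apply e))
  unfold PhD phiD phi
  refine he.mul ((((measurable_const.min (hj.div_const _)).pow_const 4)).mul ?_)
  refine ((measurable_const.min (hl.div_const r)).pow_const 2).mul ?_
  exact he.mul (hl.pow_const (a - 1))

private lemma smd_VS_nonneg (e : Fin d) (a : ℝ) (v w : Vec d) : 0 ≤ (v e - w e) * PhS e a v w := by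
  unfold PhS phi
  have h1 : (v e - w e) * (min 1 (jb w / jb v) ^ 4 * ((v - w) e * len (v - w) ^ (a - 1))) =
      min 1 (jb w / jb v) ^ 4 * ((v e - w e) ^ 2 * len (v - w) ^ (a - 1)) := by
    rw [Pi.sub_apply]
    ring
  rw [h1]
  have h2 := Real.rpow_nonneg (len_nonneg (v - w)) (a - 1)
  positivity

private lemma smd_p {p : ℕ} (ha : -1 ≤ a) (hp : (d : ℝ) + (1 + a) + 4 ≤ 2 * p) :
    1 ≤ p ∧ (d : ℝ) < 2 * ((p - 1 : ℕ) : ℝ) := by
  have hd : (0 : ℝ) ≤ d := Nat.cast_nonneg d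
  have h1 : 1 ≤ p := by
    rcases Nat.eq_zero_or_pos p with h | h
    · subst h
      norm_num at hp
      linarith
    · exact h
  refine ⟨h1, ?_⟩
  rw [Nat.cast_sub h1]
  push_cast
  linarith

private lemma smd_inv_jb (ha : -1 ≤ a) {p : ℕ} (hp : 1 ≤ p) (v : Vec d) :
    ((1 + nsq v) ^ p)⁻¹ ≤ jb v ^ a := by
  have h1 := one_le_jb v
  have h2 : jb v ^ (-1 : ℝ) ≤ jb v ^ a := Real.rpow_le_rpow_of_exponent_le h1 ha
  refine le_trans ?_ h2
  rw [Real.rpow_neg_one]
  refine inv_anti₀ (by linarith) ?_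
  rw [← jb_sq, ← pow_mul]
  calc jb v = jb v ^ 1 := (pow_one _).symm
    _ ≤ jb v ^ (2 * p) := pow_le_pow_right₀ h1 (by omega)

theorem r_small (ha : -1 ≤ a) (ha0 : a < 0) {p : ℕ} (hp : (d : ℝ) + (1 + a) + 4 ≤ 2 * p) (A : ℝ) {ε : ℝ} (hε : 0 < ε) :
    ∃ r : ℝ, 0 < r ∧ r ≤ 1 ∧ ∀ (e : Fin d) (g g₁ : Vec d → ℝ), Nice g → (∀ u, 0 ≤ g u) → Measurable g₁ →
      (∀ u, 0 ≤ g₁ u) → (∀ u, g₁ u ≤ g u) → (∀ u, g u * (1 + nsq u) ^ p ≤ A) → ∀ v : Vec d,
      ∫ w, (v e - w e) * PhS e a v w * (g w - g₁ w) ≤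
        (∫ w, (v e - w e) * PhD e a r v w * (g w - g₁ w)) + ε * jb v ^ a := by
  obtain ⟨hp1, hp2⟩ := smd_p ha hp
  set D : ℝ := 4 ^ p * 2 ^ d * |A| + 1 with hD
  have hD0 : 0 < D := by positivity
  have hr0 : 0 < min 1 (ε / D) := lt_min one_pos (div_pos hε hD0)
  refine ⟨min 1 (ε / D), hr0, min_le_left _ _, fun e g g₁ hg hg0 hm1 hg₁0 hg₁ hA v => ?_⟩
  set r := min 1 (ε / D) with hr
  have hr1 : r ≤ 1 := min_le_left _ _
  have hrε : r * D ≤ ε := by
    have : r ≤ ε / D := min_le_right _ _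
    rwa [le_div_iff₀ hD0] at this
  have hd1 : 1 ≤ d := by
    have := e.2
    omega
  have hv1 := one_le_jb v
  have hva : 0 ≤ jb v ^ a := Real.rpow_nonneg (by linarith) a
  have hh0 : ∀ w, 0 ≤ g w - g₁ w := fun w => sub_nonneg.2 (hg₁ w)
  have hh1 : ∀ w, g w - g₁ w ≤ |A| * ((1 + nsq w) ^ p)⁻¹ := fun w =>
    (sub_le_self _ (hg₁0 w)).trans (smd_g_le hA w)
  have hhm : Measurable fun w => g w - g₁ w := hg.cont.measurable.sub hm1
  have hi := smd_int (p - 1) hp2
  have hr1a : r ^ (1 + a) ≤ 1 := Real.rpow_le_one hr0.le hr1 (by linarith)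
  have hra0 : 0 ≤ r ^ (1 + a) := Real.rpow_nonneg hr0.le _
  have i1 : Integrable fun w => (v e - w e) * PhD e a r v w * (g w - g₁ w) := by
    refine (hi.const_mul (2 * jb v ^ a * |A|)).mono'
      ((smd_meas e a r v).mul hhm).aestronglyMeasurable (Eventually.of_forall fun w => ?_)
    have h1 := VPhD_nonneg hr0 e a v w
    have h2 := (VPhD_le_PhS hr0 e a v w).trans (VPhS_le ha ha0 e v w)
    rw [Real.norm_eq_abs, abs_of_nonneg (mul_nonneg h1 (hh0 w))]
    have h3 := smd_jb_inv w hp1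
    have h4 : 0 ≤ jb w := by linarith [one_le_jb w]
    calc (v e - w e) * PhD e a r v w * (g w - g₁ w)
        ≤ (2 * (jb v ^ a * jb w)) * (|A| * ((1 + nsq w) ^ p)⁻¹) :=
          mul_le_mul h2 (hh1 w) (hh0 w) (by positivity)
      _ = 2 * jb v ^ a * |A| * (jb w * ((1 + nsq w) ^ p)⁻¹) := by ring
      _ ≤ 2 * jb v ^ a * |A| * ((1 + nsq w) ^ (p - 1))⁻¹ :=
          mul_le_mul_of_nonneg_left h3 (by positivity)
  have hset : MeasurableSet {w : Vec d | len (v - w) < r} :=
    measurableSet_lt (continuous_len.comp (continuous_const.sub continuous_id)).measurable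
      measurable_const
  have hF2m : Measurable fun w : Vec d => (if len (v - w) < r then r ^ (1 + a) else 0) * (g w - g₁ w) :=
    (Measurable.ite hset measurable_const measurable_const).mul hhm
  have hite : ∀ w : Vec d, (if len (v - w) < r then r ^ (1 + a) else 0) ≤ (1 : ℝ) ∧
      0 ≤ (if len (v - w) < r then r ^ (1 + a) else (0 : ℝ)) := fun w => by
    split_ifs
    · exact ⟨hr1a, hra0⟩
    · exact ⟨zero_le_one, le_rfl⟩
  have i2 : Integrable fun w : Vec d =>
      (if len (v - w) < r then r ^ (1 + a) else 0) * (g w - g₁ w) := by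
    refine (hi.const_mul |A|).mono' hF2m.aestronglyMeasurable (Eventually.of_forall fun w => ?_)
    rw [Real.norm_eq_abs, abs_of_nonneg (mul_nonneg (hite w).2 (hh0 w))]
    calc (if len (v - w) < r then r ^ (1 + a) else 0) * (g w - g₁ w)
        ≤ 1 * (|A| * ((1 + nsq w) ^ p)⁻¹) :=
          mul_le_mul (hite w).1 (hh1 w) (hh0 w) zero_le_one
      _ ≤ |A| * ((1 + nsq w) ^ (p - 1))⁻¹ := by
          rw [one_mul]
          exact mul_le_mul_of_nonneg_left (smd_inv_one w hp1) (abs_nonneg A)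
  have hmain : ∫ w, (v e - w e) * PhS e a v w * (g w - g₁ w) ≤
      ∫ w, ((v e - w e) * PhD e a r v w * (g w - g₁ w) +
        (if len (v - w) < r then r ^ (1 + a) else 0) * (g w - g₁ w)) := by
    refine integral_mono_of_nonneg (Eventually.of_forall fun w => ?_) (i1.add i2)
      (Eventually.of_forall fun w => ?_)
    · exact mul_nonneg (smd_VS_nonneg e a v w) (hh0 w)
    · have := mul_le_mul_of_nonneg_right (VPhS_PhD ha ha0 hr0 e v w) (hh0 w)
      rwa [add_mul] at this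
  rw [integral_add i1 i2] at hmain
  refine hmain.trans (add_le_add le_rfl ?_)
  set c : ℝ := |A| * 4 ^ p * jb v ^ a with hc
  have hc0 : 0 ≤ c := by positivity
  have hbm : MeasurableSet (Metric.ball v r) := measurableSet_ball
  have hvol : volume (Metric.ball v r) = ENNReal.ofReal ((2 * r) ^ d) := by
    rw [Real.volume_pi_ball v hr0, Fintype.card_fin]
  have hlast : ∫ w, (if len (v - w) < r then r ^ (1 + a) else 0) * (g w - g₁ w) ≤
      ∫ w, (Metric.ball v r).indicator (fun _ => c) w := by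
    refine integral_mono_of_nonneg (Eventually.of_forall fun w => mul_nonneg (hite w).2 (hh0 w)) ?_
      (Eventually.of_forall fun w => ?_)
    · refine (integrable_indicator_iff hbm).2 (integrableOn_const ?_)
      rw [hvol]
      exact ENNReal.ofReal_ne_top
    · by_cases hw : len (v - w) < r
      · have hw1 : w ∈ Metric.ball v r := by
          rw [Metric.mem_ball, dist_eq_norm, ← norm_neg, neg_sub]
          exact (norm_le_len _).trans_lt hw
        have hj : jb v ≤ 2 * jb w := by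
          have h1 := (abs_le.1 (jb_lip v w)).2
          have h2 := one_le_jb w
          linarith
        have hq : ((1 + nsq w) ^ p)⁻¹ ≤ 4 ^ p * jb v ^ a := by
          have h5 : ((1 + nsq w) ^ p)⁻¹ ≤ 4 ^ p * ((1 + nsq v) ^ p)⁻¹ := by
            rw [← jb_sq, ← jb_sq]
            have h6 : 0 < jb w := jb_pos w
            have h7 : 0 < jb v := jb_pos v
            rw [← div_eq_mul_inv, inv_eq_one_div, div_le_div_iff₀ (by positivity) (by positivity),
              ← mul_pow, one_mul]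
            refine pow_le_pow_left₀ (by positivity) ?_ p
            nlinarith
          exact h5.trans (mul_le_mul_of_nonneg_left (smd_inv_jb ha hp1 v) (by positivity))
        rw [Set.indicator_of_mem hw1]
        calc (if len (v - w) < r then r ^ (1 + a) else 0) * (g w - g₁ w)
            ≤ 1 * (|A| * ((1 + nsq w) ^ p)⁻¹) :=
              mul_le_mul (hite w).1 (hh1 w) (hh0 w) zero_le_one
          _ ≤ |A| * (4 ^ p * jb v ^ a) := by
              rw [one_mul]
              exact mul_le_mul_of_nonneg_left hq (abs_nonneg A)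
          _ = c := by rw [hc]; ring
      · beta_reduce
        rw [if_neg hw, zero_mul]
        exact Set.indicator_nonneg (fun _ _ => hc0) w
  refine hlast.trans ?_
  rw [integral_indicator hbm, setIntegral_const, smul_eq_mul, Measure.real, hvol,
    ENNReal.toReal_ofReal (by positivity)]
  have h8 : (2 * r) ^ d ≤ 2 ^ d * r := by
    rw [mul_pow]
    refine mul_le_mul_of_nonneg_left ?_ (by positivity)
    calc r ^ d ≤ r ^ 1 := pow_le_pow_of_le_one hr0.le hr1 hd1
      _ = r := pow_one r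
  calc (2 * r) ^ d * c ≤ 2 ^ d * r * c := mul_le_mul_of_nonneg_right h8 hc0
    _ = r * (4 ^ p * 2 ^ d * |A|) * jb v ^ a := by rw [hc]; ring
    _ ≤ r * D * jb v ^ a := by
        refine mul_le_mul_of_nonneg_right (mul_le_mul_of_nonneg_left ?_ hr0.le) hva
        rw [hD]
        linarith
    _ ≤ ε * jb v ^ a := mul_le_mul_of_nonneg_right hrε hva

theorem g2_small (ha : -1 ≤ a) (ha0 : a < 0) {p : ℕ} (hp : (d : ℝ) + (1 + a) + 4 ≤ 2 * p) (A : ℝ) {ε : ℝ} (hε : 0 < ε) :
    ∃ R₀ C₁ : ℝ, 1 ≤ R₀ ∧ 0 < C₁ ∧ ∀ R ≥ R₀, ∀ C₀ ≥ C₁, ∀ (e : Fin d) (g : Vec d → ℝ), Nice g →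
      (∀ u, 0 ≤ g u) → (∀ u, g u * (1 + nsq u) ^ p ≤ A) → ∀ v : Vec d,
      ∫ w, (v e - w e) * PhS e a v w * (g w - chi R w * bet C₀ (g w)) ≤ ε * jb v ^ a := by
  obtain ⟨hp1, hp2⟩ := smd_p ha hp
  have hi := smd_int (d := d) (p - 1) hp2
  set I : ℝ := ∫ w : Vec d, ((1 + nsq w) ^ (p - 1))⁻¹ with hI
  have hI0 : 0 ≤ I := integral_nonneg fun w => by
    have := sq_nonneg' w
    positivity
  set B : ℝ := 4 * (|A| + 1) ^ 2 * (I + 1) / ε with hB
  have hB0 : 0 < B := by positivity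
  refine ⟨max 1 B, B, le_max_left _ _, hB0, fun R hR C₀ hC e g hg hg0 hA v => ?_⟩
  have hR1 : 1 ≤ R := (le_max_left _ _).trans hR
  have hRB : B ≤ R := (le_max_right _ _).trans hR
  have hR0 : 0 < R := by linarith
  have hC0 : 0 < C₀ := hB0.trans_le hC
  have hva : 0 ≤ jb v ^ a := Real.rpow_nonneg (by linarith [one_le_jb v]) a
  have hgA : ∀ w, g w ≤ |A| := fun w => by
    refine (smd_g_le hA w).trans (mul_le_of_le_one_right (abs_nonneg A) ?_)
    refine inv_le_one_of_one_le₀ (one_le_pow₀ ?_)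
    linarith [sq_nonneg' w]
  have hb0 : ∀ w, 0 ≤ g w - chi R w * bet C₀ (g w) := fun w => by
    have h1 := bet_le hC0 (hg0 w)
    have h2 := bet_nonneg hC0 (hg0 w)
    have h3 := chi_le_one R w
    have h4 : chi R w * bet C₀ (g w) ≤ bet C₀ (g w) := mul_le_of_le_one_left h2 h3
    linarith
  set κ : ℝ := |A| / C₀ + 1 / R with hκ
  have hκ0 : 0 ≤ κ := by positivity
  have hpt : ∀ w, jb w * (g w - chi R w * bet C₀ (g w)) ≤ κ * |A| * ((1 + nsq w) ^ (p - 1))⁻¹ := by
    intro w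
    have hw1 := one_le_jb w
    have hn := sq_nonneg' w
    have hinv : 0 ≤ ((1 + nsq w) ^ (p - 1))⁻¹ := by positivity
    rcases le_or_gt (jb w) R with hw | hw
    · rw [chi_eq_one hR1 hw, one_mul, sub_bet hC0 (hg0 w)]
      have h1 : g w ^ 2 / (C₀ + g w) ≤ |A| / C₀ * g w := by
        have h2 : 0 < C₀ + g w := by linarith [hg0 w]
        rw [div_le_iff₀ h2, div_mul_eq_mul_div, div_mul_eq_mul_div, le_div_iff₀ hC0]
        have h3 := hg0 w
        have h4 := hgA w
        nlinarith [mul_nonneg h3 h3, mul_nonneg h3 hC0.le, mul_nonneg (abs_nonneg A) (mul_nonneg h3 h3),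
          mul_le_mul_of_nonneg_right h4 (mul_nonneg h3 hC0.le)]
      calc jb w * (g w ^ 2 / (C₀ + g w)) ≤ jb w * (|A| / C₀ * g w) :=
            mul_le_mul_of_nonneg_left h1 (by linarith)
        _ ≤ jb w * (|A| / C₀ * (|A| * ((1 + nsq w) ^ p)⁻¹)) := by
            refine mul_le_mul_of_nonneg_left (mul_le_mul_of_nonneg_left (smd_g_le hA w) ?_) (by linarith)
            positivity
        _ = |A| / C₀ * |A| * (jb w * ((1 + nsq w) ^ p)⁻¹) := by ring
        _ ≤ |A| / C₀ * |A| * ((1 + nsq w) ^ (p - 1))⁻¹ :=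
            mul_le_mul_of_nonneg_left (smd_jb_inv w hp1) (by positivity)
        _ ≤ κ * |A| * ((1 + nsq w) ^ (p - 1))⁻¹ := by
            refine mul_le_mul_of_nonneg_right (mul_le_mul_of_nonneg_right ?_ (abs_nonneg A)) hinv
            rw [hκ]
            have : 0 ≤ 1 / R := by positivity
            linarith
    · have h1 : g w - chi R w * bet C₀ (g w) ≤ g w := by
        have := mul_nonneg (chi_nonneg R w) (bet_nonneg hC0 (hg0 w))
        linarith
      have h2 : jb w ≤ 1 / R * jb w ^ 2 := by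
        rw [one_div, inv_mul_eq_div, le_div_iff₀ hR0]
        nlinarith
      calc jb w * (g w - chi R w * bet C₀ (g w)) ≤ jb w * g w :=
            mul_le_mul_of_nonneg_left h1 (by linarith)
        _ ≤ (1 / R * jb w ^ 2) * (|A| * ((1 + nsq w) ^ p)⁻¹) :=
            mul_le_mul h2 (smd_g_le hA w) (hg0 w) (by positivity)
        _ = 1 / R * |A| * (jb w ^ 2 * ((1 + nsq w) ^ p)⁻¹) := by ring
        _ = 1 / R * |A| * ((1 + nsq w) ^ (p - 1))⁻¹ := by rw [smd_jb2_inv w hp1]
        _ ≤ κ * |A| * ((1 + nsq w) ^ (p - 1))⁻¹ := by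
            refine mul_le_mul_of_nonneg_right (mul_le_mul_of_nonneg_right ?_ (abs_nonneg A)) hinv
            rw [hκ]
            have : 0 ≤ |A| / C₀ := by positivity
            linarith
  have hmain : ∫ w, (v e - w e) * PhS e a v w * (g w - chi R w * bet C₀ (g w)) ≤
      ∫ w : Vec d, 2 * jb v ^ a * (κ * |A|) * ((1 + nsq w) ^ (p - 1))⁻¹ := by
    refine integral_mono_of_nonneg (Eventually.of_forall fun w => ?_) (hi.const_mul _)
      (Eventually.of_forall fun w => ?_)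
    · exact mul_nonneg (smd_VS_nonneg e a v w) (hb0 w)
    · calc (v e - w e) * PhS e a v w * (g w - chi R w * bet C₀ (g w))
          ≤ 2 * (jb v ^ a * jb w) * (g w - chi R w * bet C₀ (g w)) :=
            mul_le_mul_of_nonneg_right (VPhS_le ha ha0 e v w) (hb0 w)
        _ = 2 * jb v ^ a * (jb w * (g w - chi R w * bet C₀ (g w))) := by ring
        _ ≤ 2 * jb v ^ a * (κ * |A| * ((1 + nsq w) ^ (p - 1))⁻¹) :=
            mul_le_mul_of_nonneg_left (hpt w) (by positivity)
        _ = 2 * jb v ^ a * (κ * |A|) * ((1 + nsq w) ^ (p - 1))⁻¹ := by ring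
  refine hmain.trans ?_
  rw [integral_const_mul, ← hI]
  have hκB : κ ≤ (|A| + 1) / B := by
    have h1 : |A| / C₀ ≤ |A| / B := div_le_div_of_nonneg_left (abs_nonneg A) hB0 hC
    have h2 : 1 / R ≤ 1 / B := div_le_div_of_nonneg_left zero_le_one hB0 hRB
    rw [hκ, add_div]
    exact add_le_add h1 h2
  have hA1 : 0 < |A| + 1 := by positivity
  have h5 : (|A| + 1) / B = ε / (4 * (|A| + 1) * (I + 1)) := by
    rw [hB]
    field_simp
  have h6 : κ * |A| * I ≤ ε / 2 := by
    rw [h5] at hκB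
    have h7 : |A| * I ≤ (|A| + 1) * (I + 1) := by nlinarith [abs_nonneg A]
    calc κ * |A| * I = κ * (|A| * I) := by ring
      _ ≤ ε / (4 * (|A| + 1) * (I + 1)) * ((|A| + 1) * (I + 1)) :=
          mul_le_mul hκB h7 (by positivity) (by positivity)
      _ = ε / 4 := by
          have h8 : I + 1 ≠ 0 := by positivity
          field_simp
      _ ≤ ε / 2 := by linarith
  calc 2 * jb v ^ a * (κ * |A|) * I = 2 * jb v ^ a * (κ * |A| * I) := by ring
    _ ≤ 2 * jb v ^ a * (ε / 2) := mul_le_mul_of_nonneg_left h6 (by positivity)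
    _ = ε * jb v ^ a := by ring

end Pool.Agent.H85.DG
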