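import Pool.Agent.H85.DG.Defs
import Pool.Agent.H48.PL.Glob
import Pool.Agent.H25.PN.ScaB

/-!
# Module SolD: slices of the scaled solutions, global bounds

`b' x = M * b x` is again a kernel (`kernel_scale`, H25/PN/ScaB.lean), so `exists_hypL` gives `Hyp` for `b'`; `boltzQ γ b' g v = M * boltzQ γ b g v` for `Nice g` (`boltzQ_scale`).
* `sl_of`: `fs_of` (H48/PL/Glob) for `b'`, then rewrite the source with `boltzQ_scale` (slices are `Nice`: `IsClassicalSol.nice`); `bet_fs` (H48/PI/BetS); mass: `mass_of`.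
* `mass_of`: `Pool.Agent.H15.AV.mass_const` with `boltz_HasInvariants`, see H48/PW/FinG.lean. `gb_of`: `glob_bounds`.
* `fs0_of`: continuity from `hf.isCont` restricted to the slice, decay from `hf.decay`, planar; source `0`. (For `t ∈ [0,T)`.)
* `gb_al`: `∫ F nsq dν ≤ |α| ∫ nsq/(1+nsq)^p < ∞` (`2p ≥ d + 4`; `nu_integral` and `integrable_wt`), `F log F ≤ F log (max 1 α)` as `F ≤ α`. `M' = max`.
-/

set_option autoImplicit false

open MeasureTheory Set Filter Topology Pool.Agent.H25.Kin Pool.Agent.H82.BK Pool.Agent.H82.CM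
open Pool.Agent.H48.PL Pool.Agent.H48.PI Pool.Agent.H48.PW Pool.Agent.H48.PV

namespace Pool.Agent.H85.DG

variable {d : ℕ} {s γ T : ℝ} {b : ℝ → ℝ} {h : ℝ → Vec d → Vec d → ℝ}

/-- the hypotheses for the scaled kernel -/
private lemma sold_hyp (hd : 2 ≤ d) (hs : 0 < s) (hs1 : s < 1) (h0 : 0 ≤ γ + 2 * s) (h2 : γ + 2 * s ≤ 2)
    (hb : IsKernel d s b) {M : ℝ} (hM : 0 < M) : ∃ C Ca, Hyp d γ s (fun x => M * b x) C Ca :=
  exists_hyp hd hs hs1 h0 h2 (Pool.Agent.H25.PN.kernel_scale hb hM)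

theorem mass_of (hd : 2 ≤ d) (hs : 0 < s) (hs1 : s < 1) (h0 : 0 ≤ γ + 2 * s) (h2 : γ + 2 * s ≤ 2)
    (hb : IsKernel d s b) {M : ℝ} (hM : 0 < M) (hf : IsBoltzmannSol γ (fun x => M * b x) T h)
    (h1 : ∫ q, h 0 q.2 q.1 ∂(nu d) = 1) {t : ℝ} (ht : t ∈ Ico 0 T) : ∫ q, h t q.2 q.1 ∂(nu d) = 1 := by
  obtain ⟨C, Ca, H⟩ := sold_hyp (γ := γ) hd hs hs1 h0 h2 hb hM
  rw [Pool.Agent.H15.AV.mass_const (Q := boltzQ γ (fun x => M * b x)) hf (boltz_HasInvariants H hf) ht]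
  exact h1

theorem gb_of (hd : 2 ≤ d) (hs : 0 < s) (hs1 : s < 1) (h0 : 0 ≤ γ + 2 * s) (h2 : γ + 2 * s ≤ 2)
    (hb : IsKernel d s b) {M : ℝ} (hM : 0 < M) (hf : IsBoltzmannSol γ (fun x => M * b x) T h)
    {M' : ℝ} (h1 : GB M' (h 0)) {t : ℝ} (ht : t ∈ Ico 0 T) : GB M' (h t) := by
  obtain ⟨C, Ca, H⟩ := sold_hyp (γ := γ) hd hs hs1 h0 h2 hb hM
  exact glob_bounds H hf h1 ht

theorem sl_of (hd : 2 ≤ d) (hs : 0 < s) (hs1 : s < 1) (h0 : 0 ≤ γ + 2 * s) (h2 : γ + 2 * s ≤ 2)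
    (hb : IsKernel d s b) {M : ℝ} (hM : 0 < M) (hf : IsBoltzmannSol γ (fun x => M * b x) T h) {e : Fin d}
    (hpl : Planar e T h) (h1 : ∫ q, h 0 q.2 q.1 ∂(nu d) = 1) {t : ℝ} (ht : t ∈ Ioo 0 T) {p : ℕ} {A : ℝ}
    (hA : ∀ x v, h t x v * (1 + nsq v) ^ p ≤ A) : SL γ b M A p e (h t) := by
  have ht' : t ∈ Ico 0 T := ⟨ht.1.le, ht.2⟩
  have hn : ∀ x, Nice (h t x) := fun x => IsClassicalSol.nice hf ht x
  have hfs := fs_of hf hpl ht
  have e1 : (fun x => boltzQ γ (fun x => M * b x) (h t x)) = fun x w => M * boltzQ γ b (h t x) w := by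
    funext x w
    exact Pool.Agent.H25.PN.boltzQ_scale hd hs hs1 h0 h2 hb M (hn x) w
  refine ⟨?_, fun C hC => ?_, hn, hA, mass_of hd hs hs1 h0 h2 hb hM hf h1 ht'⟩
  · rw [← e1]
    exact hfs
  · have h3 := bet_fs hC hf hpl ht hfs
    have e2 : (fun x w => bet' C (h t x w) * (M * boltzQ γ b (h t x) w)) =
        fun x w => bet' C (h t x w) * boltzQ γ (fun x => M * b x) (h t x) w := by
      funext x w
      rw [Pool.Agent.H25.PN.boltzQ_scale hd hs hs1 h0 h2 hb M (hn x) w]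
    rw [e2]
    exact h3

theorem fs0_of {Q : ℝ → Vec d → Vec d → ℝ} (hf : IsClassicalSol T Q h) {e : Fin d} (hpl : Planar e T h)
    {t : ℝ} (ht : t ∈ Ico 0 T) : FS e (h t) fun _ _ => 0 := by
  refine ⟨fun x v => hf.nonneg t ht x v, fun x v i => hf.periodic t ht x v i, fun _ _ _ => rfl,
    fun x y v hxy => hpl t ht x y v hxy, fun _ _ _ _ => rfl, IsClassicalSol.cont_slice hf ht,
    continuous_const, ?_, ?_⟩
  · intro N
    obtain ⟨C, hC⟩ := hf.decay t ht.2 N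
    refine ⟨C, fun x v => ?_⟩
    rw [abs_of_nonneg (hf.nonneg t ht x v)]
    exact hC t ⟨ht.1, le_rfl⟩ x v
  · intro N
    refine ⟨0, fun x v => ?_⟩
    simp

private lemma sold_wt {p : ℕ} (hp : (d : ℝ) + 4 ≤ 2 * p) {α r : ℝ} {v : Vec d}
    (hA : r * (1 + nsq v) ^ p ≤ α) (u : Vec d) (hu : u = v) :
    r * nsq u ≤ |α| * (2 ^ (p - 1) * wt d u) := by
  subst hu
  have hp2 : 2 ≤ p := by
    have h3 : (0 : ℝ) ≤ d := Nat.cast_nonneg d
    have h4 : (2 : ℝ) ≤ p := by linarith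
    exact_mod_cast h4
  have hdp : d + 1 ≤ 2 * (p - 1) := by
    have h4 : d + 4 ≤ 2 * p := by exact_mod_cast hp
    omega
  have hn := sq_nonneg' u
  have h1 : (0 : ℝ) < 1 + nsq u := by linarith
  have h2 : (0 : ℝ) < 1 + ‖u‖ := w_pos u
  have h3 : (1 + ‖u‖) ^ (d + 1) ≤ 2 ^ (p - 1) * (1 + nsq u) ^ (p - 1) := by
    calc (1 + ‖u‖) ^ (d + 1) ≤ (1 + ‖u‖) ^ (2 * (p - 1)) :=
          pow_le_pow_right₀ (by linarith [norm_nonneg u]) hdp
      _ = ((1 + ‖u‖) ^ 2) ^ (p - 1) := pow_mul _ _ _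
      _ ≤ (2 * (1 + nsq u)) ^ (p - 1) := pow_le_pow_left₀ (by positivity) (norm_le_nsq u) _
      _ = 2 ^ (p - 1) * (1 + nsq u) ^ (p - 1) := mul_pow _ _ _
  have h4 : r * (1 + nsq u) ≤ |α| / (1 + nsq u) ^ (p - 1) := by
    rw [le_div_iff₀ (pow_pos h1 _)]
    calc r * (1 + nsq u) * (1 + nsq u) ^ (p - 1) = r * (1 + nsq u) ^ p := by
          rw [mul_assoc, ← pow_succ', Nat.sub_add_cancel (by omega : 1 ≤ p)]
      _ ≤ α := hA
      _ ≤ |α| := le_abs_self α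
  have h5 : 1 / (1 + nsq u) ^ (p - 1) ≤ 2 ^ (p - 1) * wt d u := by
    unfold wt
    rw [← div_eq_mul_inv, div_le_div_iff₀ (pow_pos h1 _) (pow_pos h2 _), one_mul]
    exact h3
  rcases le_or_gt 0 r with hr | hr
  · calc r * nsq u ≤ r * (1 + nsq u) := mul_le_mul_of_nonneg_left (by linarith) hr
      _ ≤ |α| / (1 + nsq u) ^ (p - 1) := h4
      _ = |α| * (1 / (1 + nsq u) ^ (p - 1)) := by ring
      _ ≤ |α| * (2 ^ (p - 1) * wt d u) := mul_le_mul_of_nonneg_left h5 (abs_nonneg α)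
  · exact (mul_nonpos_of_nonpos_of_nonneg hr.le hn).trans
      (mul_nonneg (abs_nonneg α) (mul_nonneg (by positivity) (wt_nonneg u)))

theorem gb_al {p : ℕ} (hp : (d : ℝ) + 4 ≤ 2 * p) (α : ℝ) : ∃ M' : ℝ, 1 ≤ M' ∧ ∀ F : Vec d → Vec d → ℝ,
    (∃ e : Fin d, FS e F fun _ _ => 0) → (∀ x v, F x v * (1 + nsq v) ^ p ≤ α) →
    ∫ q, F q.2 q.1 ∂(nu d) = 1 → GB M' F := by
  have hnn : ∀ q : Vec d × Vec d, 0 ≤ wt d q.1 := fun q => wt_nonneg q.1
  refine ⟨max 1 (max (|α| * (2 ^ (p - 1) * ∫ q, wt d q.1 ∂(nu d))) (Real.log (max 1 α))), le_max_left _ _,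
    fun F hF hA h1 => ?_⟩
  obtain ⟨e, hF⟩ := hF
  have hw : Integrable (fun q : Vec d × Vec d => wt d q.1) (nu d) :=
    (integrable_wt (d := d)).comp_fst (muD d)
  have hFi : Integrable (fun q : Vec d × Vec d => F q.2 q.1) (nu d) := by
    by_contra hne
    rw [integral_undef hne] at h1
    exact zero_ne_one h1
  have hlog : 0 ≤ Real.log (max 1 α) := Real.log_nonneg (le_max_left _ _)
  have hFα : ∀ x v, F x v ≤ α := fun x v => by
    have h3 : (1 : ℝ) ≤ (1 + nsq v) ^ p := one_le_pow₀ (by linarith [sq_nonneg' v])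
    exact (le_mul_of_one_le_right (hF.nonneg x v) h3).trans (hA x v)
  refine ⟨?_, ?_, ?_⟩
  · rw [h1]
    exact le_max_left _ _
  · refine le_trans ?_ ((le_max_left _ _).trans (le_max_right _ _))
    rw [← integral_const_mul, ← integral_const_mul]
    refine integral_mono_of_nonneg (Eventually.of_forall fun q => mul_nonneg (hF.nonneg _ _) (sq_nonneg' _))
      ((hw.const_mul _).const_mul _) (Eventually.of_forall fun q => ?_)
    exact sold_wt hp (hA q.2 q.1) q.1 rfl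
  · refine le_trans ?_ ((le_max_right _ _).trans (le_max_right _ _))
    by_cases hi : Integrable (fun q : Vec d × Vec d => F q.2 q.1 * Real.log (F q.2 q.1)) (nu d)
    · calc ∫ q, F q.2 q.1 * Real.log (F q.2 q.1) ∂(nu d)
          ≤ ∫ q, F q.2 q.1 * Real.log (max 1 α) ∂(nu d) := by
            refine integral_mono hi (hFi.mul_const _) fun q => ?_
            rcases (hF.nonneg q.2 q.1).eq_or_lt with h0 | h0
            · simp only [← h0, zero_mul, le_refl]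
            · exact mul_le_mul_of_nonneg_left
                (Real.log_le_log h0 ((hFα q.2 q.1).trans (le_max_right _ _))) h0.le
        _ = Real.log (max 1 α) := by rw [integral_mul_const, h1, one_mul]
    · rw [integral_undef hi]
      exact hlog

end Pool.Agent.H85.DG
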