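import Pool.Agent.H85.DG.Defs
import Pool.Agent.H48.PI.WinT
import Pool.Agent.H48.PI.MaxN

/-!
# Module TchD: the touching condition; the bootstrap

* `touch_D`: `touch_E` (H48/PI/WinT.lean, `a = 1`, `δ = δ₁/4`; `Real.rpow_one`) gives `Touch δ₁ 1 p g v`; `TouchS` by the private lemma `cu_touch` of H48/PV/CoreU.lean (copy with `cu_mm`, `cu_mm01`, `cu_mm_meas`).
* `boot_D`: suppose `L < h t₁ x₁ v₁ W` for some `t₁ < T`; `0 < t₁` by `h0`. (a) If `h W < 2L` on `[0,t₁]`: `step` with `T' = t₁` gives `h W ≤ L` on `[0,t₁)`, and by continuity in `t` (`hf.isCont` at `(t₁,x₁,v₁)`, limit from the left) `h t₁ x₁ v₁ W ≤ L`: contradiction.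
  (b) Otherwise `first_touch` (H82/BK/Touch.lean, `T₁ = t₁`, `B = 2L`) gives `t₀ ∈ (0,t₁]` with `h t₀ x₀ v₀ W = 2L` and `h W < 2L` on `[0,t₀)`; `step` with `T' = t₀`: `h W ≤ L` on `[0,t₀)`, by continuity `2L = h t₀ x₀ v₀ W ≤ L`: contradiction (`0 < L`).
-/

set_option autoImplicit false

open MeasureTheory Set Filter Topology Pool.Agent.H25.Kin Pool.Agent.H82.BK Pool.Agent.H82.CM
open Pool.Agent.H48.PL Pool.Agent.H48.PI Pool.Agent.H48.PW Pool.Agent.H48.PV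

namespace Pool.Agent.H85.DG

variable {d : ℕ}

private lemma tchD_mm (a : ℝ) (v u : Vec d) : mm a v u = min 1 (len (u - v) / jb v) ^ a := by
  have hj := jb_pos v
  have hn : 0 ≤ nsq (u - v) := by
    unfold nsq
    exact Finset.sum_nonneg fun i _ => sq_nonneg _
  have hl : 0 ≤ len (u - v) := Real.sqrt_nonneg _
  have h1 : nsq (u - v) / (1 + nsq v) = (len (u - v) / jb v) ^ 2 := by
    rw [div_pow, jb_sq]
    unfold len
    rw [Real.sq_sqrt hn]
  have hr : 0 ≤ len (u - v) / jb v := by positivity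
  have h2 : min 1 ((len (u - v) / jb v) ^ 2) = (min 1 (len (u - v) / jb v)) ^ 2 := by
    rcases le_total (len (u - v) / jb v) 1 with h | h
    · rw [min_eq_right h, min_eq_right (by nlinarith)]
    · rw [min_eq_left h, min_eq_left (by nlinarith)]
      norm_num
  have h3 : 0 ≤ min 1 (len (u - v) / jb v) := le_min zero_le_one hr
  unfold mm
  rw [h1, h2, ← Real.rpow_natCast, ← Real.rpow_mul h3]
  congr 1
  push_cast
  ring

private lemma tchD_mm01 (v u : Vec d) : 0 ≤ mm 1 v u ∧ mm 1 v u ≤ 1 := by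
  rw [tchD_mm]
  have hr : 0 ≤ min 1 (len (u - v) / jb v) :=
    le_min zero_le_one (div_nonneg (Real.sqrt_nonneg _) (jb_pos v).le)
  exact ⟨Real.rpow_nonneg hr _, Real.rpow_le_one hr (min_le_left _ _) zero_le_one⟩

private lemma tchD_meas (v : Vec d) : Measurable fun u : Vec d => mm 1 v u := by
  have e1 : (fun u : Vec d => mm 1 v u) = fun u : Vec d => min 1 (len (u - v) / jb v) ^ (1 : ℝ) := by
    funext u
    exact tchD_mm 1 v u
  rw [e1]
  have h1 : Measurable fun u : Vec d => len (u - v) / jb v :=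
    (continuous_len.comp (continuous_id.sub continuous_const)).measurable.div_const _
  exact (measurable_const.min h1).pow_const _

private lemma tchD_touch {δ : ℝ} (hδ : 0 < δ) {p : ℕ} {g : Vec d → ℝ} {v : Vec d}
    (h : Touch δ 1 p g v) : TouchS δ 1 p g v := by
  refine ⟨fun u => δ * mm 1 v u, (tchD_meas v).const_mul δ, fun u => h u, fun u => ?_,
    fun w _ k _ => ?_⟩
  · have h1 := tchD_mm01 v u
    rw [abs_of_nonneg (mul_nonneg hδ.le h1.1)]
    nlinarith [h1.2]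
  · have e1 : ∀ σ : Vec d, k (co w σ) * (δ * mm 1 v (v + hh σ w)) =
        δ * (k (co w σ) * mm 1 v (v + hh σ w)) := fun σ => by ring
    simp_rw [e1]
    rw [integral_const_mul]

/-- a bound on `[0,t₁)` holds at `t₁` -/
private lemma tchD_lim {T : ℝ} {Q h : ℝ → Vec d → Vec d → ℝ} (hf : IsClassicalSol T Q h) (p : ℕ) {L t₁ : ℝ}
    (ht : 0 < t₁) (htT : t₁ < T) (x v : Vec d) (hb : ∀ t ∈ Ico 0 t₁, h t x v * (1 + nsq v) ^ p ≤ L) :
    h t₁ x v * (1 + nsq v) ^ p ≤ L := by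
  have hFc : ContinuousOn (unc h) (Ico 0 T ×ˢ univ) := hf.isCont
  have hc : ContinuousOn (fun t : ℝ => h t x v * (1 + nsq v) ^ p) (Icc 0 t₁) := by
    have h3 : ContinuousOn (fun t : ℝ => unc h (t, x, v)) (Icc 0 t₁) := by
      refine hFc.comp (Continuous.continuousOn (by fun_prop)) fun t ht => ⟨⟨ht.1, ht.2.trans_lt htT⟩, mem_univ _⟩
    exact h3.mul continuousOn_const
  have hne : (𝓝[Ico 0 t₁] t₁).NeBot := by
    rw [← mem_closure_iff_nhdsWithin_neBot, closure_Ico ht.ne]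
    exact ⟨ht.le, le_rfl⟩
  have hs : Ico 0 t₁ ⊆ Icc 0 t₁ := fun t ht => ⟨ht.1, ht.2.le⟩
  have l1 : Tendsto (fun t : ℝ => h t x v * (1 + nsq v) ^ p) (𝓝[Ico 0 t₁] t₁)
      (𝓝 (h t₁ x v * (1 + nsq v) ^ p)) := (hc t₁ ⟨ht.le, le_rfl⟩).mono hs
  refine le_of_tendsto l1 ?_
  filter_upwards [self_mem_nhdsWithin] with t ht
  exact hb t ht

theorem touch_D {δ₁ : ℝ} (hδ : 0 < δ₁) (hδ1 : δ₁ ≤ 1) {g E : Vec d → ℝ} {p : ℕ} (hg : ∀ v, 0 ≤ g v) {v : Vec d}
    (hE : ∀ u, |E u - E v| ≤ δ₁ / 2 * min 1 (len (u - v) / jb v))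
    (h : ∀ u, g u * (1 + nsq u) ^ p * Real.exp (-E u) ≤ g v * (1 + nsq v) ^ p * Real.exp (-E v)) :
    TouchS δ₁ 1 p g v := by
  have h1 : Touch (4 * (δ₁ / 4)) 1 p g v := by
    refine touch_E zero_lt_one (by linarith) (by linarith) hg (fun u => ?_) h
    rw [Real.rpow_one]
    have := hE u
    linarith
  have e : 4 * (δ₁ / 4) = δ₁ := by ring
  rw [e] at h1
  exact tchD_touch hδ h1

theorem boot_D {T : ℝ} {Q h : ℝ → Vec d → Vec d → ℝ} (hf : IsClassicalSol T Q h) (p : ℕ) {L : ℝ} (hL : 0 < L)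
    (h0 : ∀ x v, h 0 x v * (1 + nsq v) ^ p ≤ L)
    (step : ∀ T' ≤ T, (∀ t ∈ Ico 0 T', ∀ x v, h t x v * (1 + nsq v) ^ p ≤ 2 * L) →
      ∀ t ∈ Ico 0 T', ∀ x v, h t x v * (1 + nsq v) ^ p ≤ L) :
    ∀ t ∈ Ico 0 T, ∀ x v, h t x v * (1 + nsq v) ^ p ≤ L := by
  intro t₁ ht₁ x₁ v₁
  by_contra hcon
  push Not at hcon
  have hpos : 0 < t₁ := by
    rcases ht₁.1.lt_or_eq with h2 | h2
    · exact h2
    · subst h2
      exact absurd hcon (not_lt.2 (h0 x₁ v₁))
  by_cases hex : ∃ t ∈ Icc 0 t₁, ∃ x v, 2 * L ≤ h t x v * (1 + nsq v) ^ p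
  · obtain ⟨t₀, ht₀, x₀, v₀, he, hlt, -⟩ := first_touch hf p ht₁.1 ht₁.2 (B := fun _ => 2 * L)
      continuousOn_const (fun _ _ => by linarith) (fun x v => by have := h0 x v; linarith) hex
    have ht₀T : t₀ < T := ht₀.2.trans_lt ht₁.2
    have h2 := step t₀ ht₀T.le fun t ht x v => (hlt t ht x v).le
    have h3 := tchD_lim hf p ht₀.1 ht₀T x₀ v₀ fun t ht => h2 t ht x₀ v₀
    rw [he] at h3
    linarith
  · push Not at hex
    have h2 := step t₁ ht₁.2.le fun t ht x v => (hex t ⟨ht.1, ht.2.le⟩ x v).le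
    have h3 := tchD_lim hf p hpos ht₁.2 x₁ v₁ fun t ht => h2 t ht x₁ v₁
    exact absurd hcon (not_lt.2 h3)

end Pool.Agent.H85.DG
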