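import Pool.Agent.H85.DG.OpD
import Pool.Agent.H85.DG.AvD
import Pool.Agent.H85.DG.SmD
import Pool.Agent.H85.DG.EBd
import Pool.Agent.H85.DG.EDefD
import Pool.Agent.H85.DG.DerX
import Pool.Agent.H85.DG.SolD
import Pool.Agent.H85.DG.TchD
import Pool.Agent.H48.PV.VarL

/-!
# Module MomD: all weights `(1+|v|²)^p₁`, `p₁ ≥ p`, with the same smallness of the mass

Given `h W ≤ L` on `[0,T)`. `M'` from `gb_al` (`α = L`), `R₂, C₂, cV` from `var_low M'` (`m₀ = 1`), `K_X` from `dEX_low` (`R = R₂`), `B` from `EX_bd`. `Ms = min 1 (cV/(4 (K_X L^2 + 1)))`. For `p₁`: `K₀, κ, δ₁` from `op_d` (`p₁`), `lam = min (κ/(12 R₂^2)) (min (1/8) (δ₁/2)/(B+1)) > 0`,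
`R₀, C₁` from `g2_small` (`A = L`, weight `p`, `ε = lam cV/(4 (K₀+1))`), `R = max R₀ R₂`, `C₀ = max C₁ C₂`, `N₁` from `op_d` (`C₀`, `2R`), `K = 2 (1 + N₁)`.
`max_high` (H48/PI/MaxN) with `E t x v = M lam EX a R₂ C₂ e (h t) x v`, `DE = M lam dEX ..` (`EX_cont`, `EX_per`, `EX_char`; `|E| ≤ M lam B ≤ 1/8` by `EX_bd` with `fs0_of`), `m = 0`, `A₁' = exp (1/8) N₁`, `A₀ = exp (1/8) max A₁ N₁`.
At a touching point: `touch_D` (`|E u - E v| ≤ M lam B min(..) ≤ δ₁/2 min(..)`), `h W₁ ≥ A₁' exp(E) ≥ N₁`; `op_d` with `g₁ = chi R bet C₀ (h)`, `boltzQ γ (M b) = M boltzQ γ b`: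
`M boltzQ ≤ h M [K₀ ε jb^a - κ ∫ len^(1+a) g₁] ≤ h M lam jb^a [cV/4 - 4 R₂ ∫ len g']` (`loc_D`: `lam 4R₂ jb^a ∫ len g' ≤ lam 12 R₂^2 ∫ len^(1+a) g₁ ≤ κ ∫ len^(1+a) g₁`) `≤ h M lam dEX` (`dEX_low` with `A = L`: `dEX ≥ jb^a (cV - 4R₂ ∫ len g' - K_X M L^2)`, `K_X M L^2 ≤ cV/4`).
So `h W₁ ≤ exp(1/4) max A₁ N₁ ≤ 2 (|A₁| + N₁)`; `A₁ ≥ 0` since `h ≥ 0` (if `T > 0`). See module CoreD for the same argument.
-/

set_option autoImplicit false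

open MeasureTheory Set Filter Topology Pool.Agent.H25.Kin Pool.Agent.H82.BK Pool.Agent.H82.CM
open Pool.Agent.H48.PL Pool.Agent.H48.PI Pool.Agent.H48.PW Pool.Agent.H48.PV

namespace Pool.Agent.H85.DG

variable {d : ℕ} {s a C Ca cb : ℝ} {b : ℝ → ℝ}

/-- the conclusion of `op_d` with fixed constants and `g₁ = chi R bet C₀ (g)` -/
private lemma MomD_g1 {R C₀ : ℝ} (hR : 1 ≤ R) (hC : 0 < C₀) {g : Vec d → ℝ} (hN : Nice g)
    (hg : ∀ u, 0 ≤ g u) : Measurable (fun u => chi R u * bet C₀ (g u)) ∧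
      (∀ u, 0 ≤ chi R u * bet C₀ (g u)) ∧ (∀ u, chi R u * bet C₀ (g u) ≤ g u) ∧
      (∀ u, chi R u * bet C₀ (g u) ≤ C₀) ∧ (∀ u, 2 * R < jb u → chi R u * bet C₀ (g u) = 0) := by
  have hb0 : ∀ u, 0 ≤ bet C₀ (g u) := fun u => bet_nonneg hC (hg u)
  have gb' : ∀ u, chi R u * bet C₀ (g u) ≤ bet C₀ (g u) := fun u => by
    calc chi R u * bet C₀ (g u) ≤ 1 * bet C₀ (g u) :=
          mul_le_mul_of_nonneg_right (chi_le_one _ _) (hb0 u)
      _ = bet C₀ (g u) := one_mul _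
  refine ⟨?_, fun u => mul_nonneg (chi_nonneg _ _) (hb0 u), fun u => (gb' u).trans (bet_le hC (hg u)),
    fun u => (gb' u).trans (bet_le_C hC (hg u)), fun u hu => ?_⟩
  · have m1 : Measurable (bet C₀) := by
      unfold bet
      exact (measurable_const.mul measurable_id).div (measurable_const.add measurable_id)
    exact (chi_cont _).measurable.mul (m1.comp hN.cont.measurable)
  · rw [chi_eq_zero hR hu.le, zero_mul]

/-- the comparison at a touching point -/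
private lemma MomD_alg {Q g j K₀ ε I₂ κ I₁ lam R₂ Ln V cV KX S D M : ℝ} (hg : 0 ≤ g) (hj : 0 ≤ j)
    (hK₀ : 0 ≤ K₀) (hlam : 0 ≤ lam) (hM : 0 ≤ M) (hR₂ : 1 ≤ R₂) (hI₁ : 0 ≤ I₁) (hcV : 0 ≤ cV)
    (main : Q ≤ g * (K₀ * I₂ - κ * I₁)) (f1 : I₂ ≤ ε * j) (hε : K₀ * ε ≤ lam * (cV / 4))
    (f2 : j * Ln ≤ 3 * R₂ * I₁) (hκ : lam * (12 * R₂ ^ 2) ≤ κ)
    (f3 : j * (V - 4 * R₂ * Ln - KX * S) ≤ D) (hV : cV ≤ V) (hS : KX * S ≤ cV / 4) :
    M * Q ≤ g * (M * (lam * D)) := by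
  have h1 : K₀ * I₂ ≤ lam * (cV / 4) * j := by
    calc K₀ * I₂ ≤ K₀ * (ε * j) := mul_le_mul_of_nonneg_left f1 hK₀
      _ = K₀ * ε * j := by ring
      _ ≤ lam * (cV / 4) * j := mul_le_mul_of_nonneg_right hε hj
  have h2 : lam * (4 * R₂ * (j * Ln)) ≤ κ * I₁ := by
    calc lam * (4 * R₂ * (j * Ln)) ≤ lam * (4 * R₂ * (3 * R₂ * I₁)) := by gcongr
      _ = lam * (12 * R₂ ^ 2) * I₁ := by ring
      _ ≤ κ * I₁ := mul_le_mul_of_nonneg_right hκ hI₁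
  have h3 : j * (cV / 2) ≤ j * (V - KX * S) := mul_le_mul_of_nonneg_left (by linarith) hj
  have h4 : lam * (j * (cV / 2)) - lam * (4 * R₂ * (j * Ln)) ≤ lam * D := by
    have k1 := mul_le_mul_of_nonneg_left f3 hlam
    have k2 := mul_le_mul_of_nonneg_left h3 hlam
    have k3 : lam * (j * (V - 4 * R₂ * Ln - KX * S)) =
        lam * (j * (V - KX * S)) - lam * (4 * R₂ * (j * Ln)) := by ring
    linarith
  have h5 : K₀ * I₂ - κ * I₁ ≤ lam * D := by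
    have k1 : 0 ≤ lam * (j * (cV / 4)) := by positivity
    have k2 : lam * (cV / 4) * j = lam * (j * (cV / 4)) := by ring
    have k3 : lam * (j * (cV / 2)) = lam * (j * (cV / 4)) + lam * (j * (cV / 4)) := by ring
    linarith
  calc M * Q ≤ M * (g * (K₀ * I₂ - κ * I₁)) := mul_le_mul_of_nonneg_left main hM
    _ ≤ M * (g * (lam * D)) := by gcongr
    _ = g * (M * (lam * D)) := by ring

private lemma MomD_exp {E : ℝ} (hE : |E| ≤ 1 / 2) : Real.exp (-E) ≤ 2 ∧ 1 / 2 ≤ Real.exp (-E) := by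
  obtain ⟨k1, k2⟩ := abs_le.1 hE
  constructor
  · have k3 : Real.exp (-E) ≤ Real.exp (1 / 2) := Real.exp_le_exp.2 (by linarith)
    have k4 : Real.exp (1 / 2) ≤ 2 := by
      have k5 : Real.exp (1 / 2) ^ 2 ≤ 2 ^ 2 := by
        rw [← Real.exp_nat_mul]
        have k6 : ((2 : ℕ) : ℝ) * (1 / 2) = 1 := by norm_num
        rw [k6]
        have := Real.exp_one_lt_d9
        linarith
      exact (pow_le_pow_iff_left₀ (Real.exp_pos _).le (by norm_num) (by norm_num)).1 k5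
    exact k3.trans k4
  · have k3 := Real.add_one_le_exp (-E)
    linarith

theorem mom_D (hd : 2 ≤ d) (hs : 0 < s) (hs1 : 2 * s < 1) (hb : IsKernel d s b)
    (HL : HypL d (1 + a) s b C Ca cb) (ha : -1 ≤ a) (ha0 : a < 0) {p : ℕ}
    (hp : (d : ℝ) + (1 + a) + 4 ≤ 2 * p) (e : Fin d) (L : ℝ) :
    ∃ Ms : ℝ, 0 < Ms ∧ Ms ≤ 1 ∧ ∀ p₁ : ℕ, p ≤ p₁ → ∃ K : ℝ, 0 ≤ K ∧ ∀ M : ℝ, 0 < M → M ≤ Ms →
    ∀ (T : ℝ) (h : ℝ → Vec d → Vec d → ℝ), IsBoltzmannSol (1 + a) (fun x => M * b x) T h → Planar e T h →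
      ∫ q, h 0 q.2 q.1 ∂(nu d) = 1 → (∀ t ∈ Ico 0 T, ∀ x v, h t x v * (1 + nsq v) ^ p ≤ L) →
      ∀ A₁ : ℝ, (∀ x v, h 0 x v * (1 + nsq v) ^ p₁ ≤ A₁) →
      ∀ t ∈ Ico 0 T, ∀ x v, h t x v * (1 + nsq v) ^ p₁ ≤ K * (A₁ + 1) := by
  have hs' : s < 1 := by linarith
  have hγ0 : 0 ≤ (1 + a) + 2 * s := by linarith
  have hγ2 : (1 + a) + 2 * s ≤ 2 := by linarith
  obtain ⟨M', hM', hgb⟩ := gb_al (d := d) (p := p) (by linarith) L
  obtain ⟨R₂, C₂, cV, hR₂, hC₂, hcV, hvar⟩ := var_low (d := d) M' one_pos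
  have hC₂0 : 0 < C₂ := by linarith
  obtain ⟨KX, hKX, hdEX⟩ := dEX_low HL ha ha0 hs1 hp hR₂
  obtain ⟨B, hB, hEX⟩ := EX_bd (d := d) ha ha0 hR₂ M'
  refine ⟨min 1 (cV / (4 * (KX * L ^ 2 + 1))), lt_min one_pos (by positivity), min_le_left _ _,
    fun p₁ hp₁ => ?_⟩
  have hpp : (p : ℝ) ≤ p₁ := by exact_mod_cast hp₁
  obtain ⟨K₀, κ, δ₁, hK₀, hκ, hδ₁, hδ₁1, hop⟩ := op_d HL ha ha0 hs1 (p := p₁) (by linarith) e
  obtain ⟨lam, hlamd⟩ : ∃ lam : ℝ, lam = min (κ / (12 * R₂ ^ 2)) (min (1 / 8) (δ₁ / 2) / (B + 1)) :=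
    ⟨_, rfl⟩
  have hlam : 0 < lam := by
    rw [hlamd]
    have : 0 < min (1 / 8 : ℝ) (δ₁ / 2) := lt_min (by norm_num) (by positivity)
    exact lt_min (by positivity) (by positivity)
  have l1 : lam * (12 * R₂ ^ 2) ≤ κ := by
    have h1 : lam ≤ κ / (12 * R₂ ^ 2) := by rw [hlamd]; exact min_le_left _ _
    rwa [le_div_iff₀ (by positivity)] at h1
  have l2 : lam * (B + 1) ≤ min (1 / 8 : ℝ) (δ₁ / 2) := by
    have h1 : lam ≤ min (1 / 8 : ℝ) (δ₁ / 2) / (B + 1) := by rw [hlamd]; exact min_le_right _ _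
    rwa [le_div_iff₀ (by positivity)] at h1
  have l3 : lam * B ≤ 1 / 8 := by
    have := l2.trans (min_le_left _ _)
    linarith
  have l4 : lam * B ≤ δ₁ / 2 := by
    have := l2.trans (min_le_right _ _)
    linarith
  have hε : 0 < lam * cV / (4 * (K₀ + 1)) := by positivity
  obtain ⟨R₀, C₁, hR₀, hC₁, hsm⟩ := g2_small (d := d) ha ha0 hp L hε
  obtain ⟨R, hRd⟩ : ∃ R : ℝ, R = max R₀ R₂ := ⟨_, rfl⟩
  obtain ⟨C₀, hC₀d⟩ : ∃ C₀ : ℝ, C₀ = max C₁ C₂ := ⟨_, rfl⟩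
  have hR₀R : R₀ ≤ R := by rw [hRd]; exact le_max_left _ _
  have hR₂R : R₂ ≤ R := by rw [hRd]; exact le_max_right _ _
  have hC₁C : C₁ ≤ C₀ := by rw [hC₀d]; exact le_max_left _ _
  have hC₂C : C₂ ≤ C₀ := by rw [hC₀d]; exact le_max_right _ _
  have hR1 : 1 ≤ R := hR₀.trans hR₀R
  have hC₀ : 0 < C₀ := hC₁.trans_le hC₁C
  obtain ⟨N₁, hN₁, hop1⟩ := hop C₀ (2 * R) hC₀ (by linarith)
  refine ⟨6 * N₁ + 4, by positivity, fun M hM hMs T h hf hpl hm hL A₁ hA₁ => ?_⟩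
  have hM1 : M ≤ 1 := hMs.trans (min_le_left _ _)
  have hMc : KX * (M * L ^ 2) ≤ cV / 4 := by
    have h1 : M ≤ cV / (4 * (KX * L ^ 2 + 1)) := hMs.trans (min_le_right _ _)
    rw [le_div_iff₀ (by positivity)] at h1
    have h2 : KX * (M * L ^ 2) = (M * (4 * (KX * L ^ 2 + 1)) - 4 * M) / 4 := by ring
    rw [h2]
    linarith
  have hms : ∀ t ∈ Ico 0 T, ∫ q, h t q.2 q.1 ∂(nu d) = 1 := fun t ht =>
    mass_of hd hs hs' hγ0 hγ2 hb hM hf hm ht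
  have hfs0 : ∀ t ∈ Ico 0 T, FS e (h t) fun _ _ => 0 := fun t ht => fs0_of hf hpl ht
  have hGB : ∀ t ∈ Ico 0 T, GB M' (h t) := fun t ht => hgb (h t) ⟨e, hfs0 t ht⟩ (hL t ht) (hms t ht)
  -- the weight is small
  have hE : ∀ t ∈ Ico 0 T, ∀ x v, |M * (lam * EX a R₂ C₂ e (h t) x v)| ≤ 1 / 2 := by
    intro t ht x v
    have h1 := (hEX C₂ hC₂0 e (h t) _ (hfs0 t ht) (hGB t ht) x v v).1
    rw [abs_mul, abs_mul, abs_of_pos hM, abs_of_pos hlam]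
    calc M * (lam * |EX a R₂ C₂ e (h t) x v|) ≤ 1 * (lam * B) := by gcongr
      _ ≤ 1 / 2 := by linarith
  have hcont : ContinuousOn (unc fun t x v => M * (lam * EX a R₂ C₂ e (h t) x v)) (Ico 0 T ×ˢ univ) :=
    continuousOn_const.mul (continuousOn_const.mul (EX_cont hC₂0 hf e))
  intro t ht x v
  have h0T : (0 : ℝ) ∈ Ico 0 T := ⟨le_rfl, ht.1.trans_lt ht.2⟩
  have hnsq : ∀ v : Vec d, 0 ≤ nsq v := fun v => by
    unfold nsq
    exact Finset.sum_nonneg fun i _ => sq_nonneg _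
  have hA₁0 : 0 ≤ A₁ := by
    refine le_trans (mul_nonneg (hf.nonneg 0 h0T x v) ?_) (hA₁ x v)
    have := hnsq v
    positivity
  have key := max_high hf p₁ (E := fun t x v => M * (lam * EX a R₂ C₂ e (h t) x v))
    (DE := fun t x v => M * (lam * dEX a R₂ C₂ e (h t)
      (fun x w => boltzQ (1 + a) (fun x => M * b x) (h t x) w) x v))
    hcont (fun t ht x v i => by rw [EX_per (hf.periodic t ht) e x v i])
    (fun T₁ hT₁ => ⟨1 / 2, fun τ hτ y u => hE τ ⟨hτ.1, hτ.2.trans_lt hT₁⟩ y u⟩)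
    (fun τ hτ y u => ((EX_char hC₂0 hf hpl hτ y u).const_mul lam).const_mul M)
    (m := fun _ => 0) (integrableOn_zero) (fun _ _ => le_rfl) (A₁ := 3 * N₁)
    (fun τ hτ y u hhigh htch => by
      have hτ' : τ ∈ Ico 0 T := ⟨hτ.1.le, hτ.2⟩
      have hsl := sl_of (γ := 1 + a) hd hs hs' hγ0 hγ2 hb hM hf hpl hm hτ (hL τ hτ')
      have hNi := hsl.nice y
      have hg0 : ∀ u, 0 ≤ h τ y u := fun u => hsl.fs.nonneg y u
      have hQ : ∀ x w, boltzQ (1 + a) (fun x => M * b x) (h τ x) w = M * boltzQ (1 + a) b (h τ x) w :=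
        fun x w => Pool.Agent.H25.PN.boltzQ_scale hd hs hs' hγ0 hγ2 hb M (hsl.nice x) w
      simp only [hQ]
      rw [add_zero]
      have hHi : N₁ ≤ h τ y u * (1 + nsq u) ^ p₁ := high_E hN₁ (hE τ hτ' y u) hhigh
      have hTo : TouchS δ₁ 1 p₁ (h τ y) u := by
        refine touch_D hδ₁ hδ₁1 (E := fun u => M * (lam * EX a R₂ C₂ e (h τ) y u)) hg0 (fun z => ?_) htch
        have h1 := (hEX C₂ hC₂0 e (h τ) _ (hfs0 τ hτ') (hGB τ hτ') y z u).2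
        have h2 : 0 ≤ min 1 (len (z - u) / jb u) :=
          le_min zero_le_one (div_nonneg (len_nonneg _) (jb_pos u).le)
        show |M * (lam * EX a R₂ C₂ e (h τ) y z) - M * (lam * EX a R₂ C₂ e (h τ) y u)| ≤ _
        rw [← mul_sub, ← mul_sub, abs_mul, abs_mul, abs_of_pos hM, abs_of_pos hlam]
        calc M * (lam * |EX a R₂ C₂ e (h τ) y z - EX a R₂ C₂ e (h τ) y u|)
            ≤ 1 * (lam * (B * min 1 (len (z - u) / jb u))) := by gcongr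
          _ = lam * B * min 1 (len (z - u) / jb u) := by ring
          _ ≤ δ₁ / 2 * min 1 (len (z - u) / jb u) := mul_le_mul_of_nonneg_right l4 h2
      obtain ⟨g1, g2, g3, g4, g5⟩ := MomD_g1 hR1 hC₀ hNi hg0
      have main := hop1 (h τ y) _ hNi hg0 g1 g2 g3 g4 g5 u hTo hHi
      have f1 := hsm R hR₀R C₀ hC₁C e (h τ y) hNi hg0 (fun z => hL τ hτ' y z) u
      have f2 := loc_D ha ha0 hR₂ hR₂R hC₂0 hC₂C hNi hg0 u
      have f3 := hdEX C₂ hC₂0 M L hM.le e (h τ) hsl y u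
      have f4 := hvar e (h τ) _ (hfs0 τ hτ') (hGB τ hτ') (hms τ hτ').ge
      have hI₁ : 0 ≤ ∫ w, len (u - w) ^ (1 + a) * (chi R w * bet C₀ (h τ y w)) :=
        integral_nonneg fun w => mul_nonneg (Real.rpow_nonneg (len_nonneg _) _) (g2 w)
      have hε' : K₀ * (lam * cV / (4 * (K₀ + 1))) ≤ lam * (cV / 4) := by
        have k1 : K₀ * (lam * cV / (4 * (K₀ + 1))) = lam * (cV / 4) * (K₀ / (K₀ + 1)) := by
          field_simp
        have k2 : K₀ / (K₀ + 1) ≤ 1 := by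
          rw [div_le_one (by positivity)]
          linarith
        rw [k1]
        exact mul_le_of_le_one_right (by positivity) k2
      exact MomD_alg (hg0 u) (Real.rpow_nonneg (jb_pos u).le a) hK₀ hlam.le hM.le hR₂ hI₁ hcV.le
        main f1 hε' f2 l1 f3 f4 hMc)
    (A₀ := 3 * N₁ + 2 * A₁) (by linarith)
    (fun y u => by
      have h1 := (MomD_exp (hE 0 h0T y u)).1
      have h3 := mul_le_mul (hA₁ y u) h1 (Real.exp_pos _).le hA₁0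
      linarith) t ht x v
  have e0 : ∫ _ in Ioc 0 t, (0 : ℝ) = 0 := by simp
  rw [e0, Real.exp_zero, mul_one] at key
  have h1 := (MomD_exp (hE t ht x v)).2
  have h2 : 0 ≤ h t x v * (1 + nsq v) ^ p₁ := mul_nonneg (hf.nonneg t ht x v) (by
    have := hnsq v
    positivity)
  have h3 := mul_le_mul_of_nonneg_left h1 h2
  have h4 : 0 ≤ N₁ * A₁ := by positivity
  nlinarith

end Pool.Agent.H85.DG
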