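import Pool.Agent.H85.DG.CoreD
import Pool.Agent.H85.DG.MomD
import Pool.Agent.H85.DG.FinD
import Pool.Agent.H85.DG.DirD
import Pool.Agent.H48.PR.Fin

/-!
# Dilute plane symmetric gas, `0 ≤ γ < 1`, `2s < 1`: all plane symmetric solutions and data, constants independent of `T`
-/

set_option autoImplicit false

open MeasureTheory Set Filter Topology Pool.Agent.H25.Kin Pool.Agent.H82.BK Pool.Agent.H82.CM
open Pool.Agent.H48.PL Pool.Agent.H48.PI Pool.Agent.H93.CM Pool.Agent.H25.PN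

namespace Pool.Agent.H85.DG

variable {d : ℕ} {s γ : ℝ} {b : ℝ → ℝ}

theorem dil_h (hd : 2 ≤ d) (hs : 0 < s) (h0 : 0 ≤ γ) (h1 : γ < 1) (h2 : 2 * s < 1)
    (hb : IsKernel d s b) (e : Fin d) : DilH d γ b e := by
  obtain ⟨C, Ca, cb, HL⟩ := exists_hypL hd hs (by linarith) (by linarith : 0 ≤ γ + 2 * s) (by linarith) hb
  obtain ⟨a, rfl⟩ : ∃ a : ℝ, γ = 1 + a := ⟨γ - 1, by ring⟩
  intro p hp α
  obtain ⟨Ms₁, L, hMs₁, -, -, hL⟩ := core_D hd hs h2 hb HL (by linarith) (by linarith) hp e α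
  obtain ⟨Ms₂, hMs₂, -, hK⟩ := mom_D hd hs h2 hb HL (by linarith) (by linarith) hp e L
  refine ⟨min Ms₁ Ms₂, lt_min hMs₁ hMs₂, fun p₁ hp₁ => ?_⟩
  obtain ⟨K, hK0, hK⟩ := hK p₁ hp₁
  refine ⟨K, hK0, fun M hM hMm T h hf hpl hm hα A₁ hA₁ => ?_⟩
  exact hK M hM (hMm.trans (min_le_right _ _)) T h hf hpl hm
    (hL M hM (hMm.trans (min_le_left _ _)) T h hf hpl hm hα) A₁ hA₁

/-- **dilute plane symmetric gas**: plane symmetric solutions and data in any direction -/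
theorem dil_all (hd : 2 ≤ d) (hs : 0 < s) (h0 : 0 ≤ γ) (h1 : γ < 1) (h2 : 2 * s < 1)
    (hb : IsKernel d s b) {ν : Vec d} (hν : ν ≠ 0) :
    DilE d γ b fun T f => PlaneSym ν T f ∨ Pool.Agent.H48.PR.PlaneData s ν (f 0) := by
  refine (dir_D hd hs (by linarith) (by linarith) (by linarith)
    (fun b hb e => fin_D hd hs (by linarith) h0 (by linarith) hb e (dil_h hd hs h0 h1 h2 hb e)) hb hν).mono ?_
  intro T f hf h
  rcases h with h | h
  · exact h
  · obtain ⟨C, Ca, cb, HL⟩ := exists_hypL hd hs (by linarith) (by linarith : 0 ≤ γ + 2 * s) (by linarith) hb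
    exact Pool.Agent.H48.PR.sym_of_hol HL h0 h2 hf h

end Pool.Agent.H85.DG
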