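import Pool.Agent.H85.DG.PhT
import Pool.Agent.H85.DG.WkR
import Pool.Agent.H48.PI.EDer

/-!
# Module DerS: lower bound for the derivative of the main part, one time slice

As `EA_der` (H48/PV/DerA.lean) / `EA_derG` (H48/PG/DerG.lean).
-/

set_option autoImplicit false

open MeasureTheory Set Filter Topology Pool.Agent.H25.Kin Pool.Agent.H82.BK Pool.Agent.H82.CM
open Pool.Agent.H48.PL Pool.Agent.H48.PI Pool.Agent.H48.PW Pool.Agent.H48.PV

namespace Pool.Agent.H85.DG

variable {d : ℕ} {s C Ca cb : ℝ} {b : ℝ → ℝ} {e : Fin d}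

/-- continuous planar periodic functions with rapid decay in the velocity -/
private structure DerSA (e : Fin d) (A : Vec d → Vec d → ℝ) : Prop where
  cont : Continuous fun p : Vec d × Vec d => A p.1 p.2
  dec : RX A
  per : ∀ x v i, A (x + Pi.single i 1) v = A x v
  pl : ∀ x y v, x e = y e → A x v = A y v

private lemma DerS_bd {A : Vec d → Vec d → ℝ} (hA : DerSA e A) {Φ : Vec d → Vec d → ℝ} (hΦ : PGW Φ)
    (v : Vec d) : ∃ C, ∀ x w, |Φ v w * A x w| ≤ C * wt d w := by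
  obtain ⟨N, K, hK0, hK⟩ := hΦ.le
  obtain ⟨C, hC⟩ := hA.dec (N + (d + 1))
  refine ⟨K * (1 + ‖v‖) ^ N * C, fun x w => ?_⟩
  have hw : 0 < 1 + ‖w‖ := w_pos w
  have hv : 0 < 1 + ‖v‖ := w_pos v
  have h2 := hC x w
  rw [abs_mul]
  unfold wt
  rw [← div_eq_mul_inv, le_div_iff₀ (by positivity)]
  calc |Φ v w| * |A x w| * (1 + ‖w‖) ^ (d + 1)
      ≤ (K * ((1 + ‖v‖) ^ N * (1 + ‖w‖) ^ N)) * |A x w| * (1 + ‖w‖) ^ (d + 1) := by
        have := hK v w
        gcongr
    _ = K * (1 + ‖v‖) ^ N * ((1 + ‖w‖) ^ (N + (d + 1)) * |A x w|) := by rw [pow_add]; ring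
    _ ≤ K * (1 + ‖v‖) ^ N * C := by gcongr

private lemma DerS_wc {A : Vec d → Vec d → ℝ} (hA : DerSA e A) {Φ : Vec d → Vec d → ℝ} (hΦ : PGW Φ)
    (x v : Vec d) : Continuous fun w => Φ v w * A x w :=
  (hΦ.cont.comp (by fun_prop : Continuous fun w : Vec d => (v, w))).mul
    (hA.cont.comp (by fun_prop : Continuous fun w : Vec d => (x, w)))

private lemma DerS_int {A : Vec d → Vec d → ℝ} (hA : DerSA e A) {Φ : Vec d → Vec d → ℝ} (hΦ : PGW Φ)
    (x v : Vec d) : Integrable fun w => Φ v w * A x w := by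
  obtain ⟨C, hC⟩ := DerS_bd hA hΦ v
  exact (integrable_wt.const_mul C).mono' (DerS_wc hA hΦ x v).aestronglyMeasurable
    (Eventually.of_forall fun w => hC x w)

private lemma DerS_nu {A : Vec d → Vec d → ℝ} (hA : DerSA e A) {Φ : Vec d → Vec d → ℝ} (hΦ : PGW Φ)
    (v : Vec d) : Integrable (fun p : Vec d × Vec d => Φ v p.1 * A p.2 p.1) (nu d) := by
  obtain ⟨C, hC⟩ := DerS_bd hA hΦ v
  have hc : Continuous fun p : Vec d × Vec d => Φ v p.1 * A p.2 p.1 :=
    (hΦ.cont.comp (by fun_prop : Continuous fun p : Vec d × Vec d => (v, p.1))).mul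
      (hA.cont.comp (by fun_prop : Continuous fun p : Vec d × Vec d => (p.2, p.1)))
  exact integrable_nu hc.aestronglyMeasurable fun p => hC p.2 p.1

private lemma DerS_pl {A : Vec d → Vec d → ℝ} (hA : DerSA e A) {Φ : Vec d → Vec d → ℝ} (hΦ : PGW Φ)
    (v : Vec d) : PlF e fun x => ∫ w, Φ v w * A x w := by
  obtain ⟨C, hC⟩ := DerS_bd hA hΦ v
  refine ⟨?_, ?_, ?_⟩
  · refine continuous_of_dominated (bound := fun w => C * wt d w) ?_ ?_
      (integrable_wt.const_mul _) ?_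
    · intro x
      exact (DerS_wc hA hΦ x v).aestronglyMeasurable
    · intro x
      exact Eventually.of_forall fun w => hC x w
    · refine Eventually.of_forall fun w => ?_
      exact continuous_const.mul
        (hA.cont.comp (by fun_prop : Continuous fun x : Vec d => (x, w)))
  · intro x i
    congr 1
    funext w
    rw [hA.per]
  · intro x y hxy
    congr 1
    funext w
    rw [hA.pl x y w hxy]

private lemma DerS_loc {B : Vec d → ℝ} (hB : PlF e B) (x : Vec d) :
    loc e 1 B x = ∫ y, B y ∂(muD d) := by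
  obtain ⟨C, hC⟩ := pl_bdd hB
  have hfin : IsFiniteMeasure ((volume : Measure ℝ).restrict (Ioo (-(1 / 2)) (1 / 2))) :=
    ⟨by rw [Measure.restrict_apply_univ]; exact measure_Ioo_lt_top⟩
  have hi : Integrable (fun z : ℝ => B (x - Pi.single e z))
      (volume.restrict (Ioo (-(1 / 2)) (1 / 2))) := by
    have hc : Continuous fun z : ℝ => x - (Pi.single e z : Vec d) :=
      continuous_const.sub (continuous_single (A := fun _ : Fin d => ℝ) e)
    exact Integrable.of_bound (hB.cont.comp hc).aestronglyMeasurable C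
      (Eventually.of_forall fun z => hC _)
  have hv : (∫ _z in Ioo (-(1 / 2) : ℝ) (1 / 2), C) = C := by
    rw [setIntegral_const, Real.volume_real_Ioo_of_le (by norm_num)]
    norm_num
  have hm : (∫ _y : Vec d, C ∂(muD d)) = C := by
    rw [integral_const, measureReal_def, muD_univ]
    simp
  have h1 : PlF e fun y => C - B y :=
    ⟨continuous_const.sub hB.cont, fun x i => by rw [hB.per], fun x y h => by rw [hB.pl x y h]⟩
  have h2 : PlF e fun y => C + B y :=
    ⟨continuous_const.add hB.cont, fun x i => by rw [hB.per], fun x y h => by rw [hB.pl x y h]⟩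
  have e1 := loc_le h1 (fun y => by have := (abs_le.mp (hC y)).2; linarith) one_pos le_rfl x
  have e2 := loc_le h2 (fun y => by have := (abs_le.mp (hC y)).1; linarith) one_pos le_rfl x
  unfold loc at e1 e2 ⊢
  rw [integral_sub (integrable_const _) hi, integral_sub (integrable_const _) (pl_int hB), hv,
    hm] at e1
  rw [integral_add (integrable_const _) hi, integral_add (integrable_const _) (pl_int hB), hv,
    hm] at e2
  linarith

private lemma DerS_kl {B : Vec d → ℝ} (hB : PlF e B) (x : Vec d) :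
    Integrable (fun z : ℝ => kl 1 z * B (x - Pi.single e z))
      (volume.restrict (Ioo (-(1 / 2)) (1 / 2))) := by
  obtain ⟨C, hC⟩ := pl_bdd hB
  have hfin : IsFiniteMeasure ((volume : Measure ℝ).restrict (Ioo (-(1 / 2)) (1 / 2))) :=
    ⟨by rw [Measure.restrict_apply_univ]; exact measure_Ioo_lt_top⟩
  have hc : Continuous fun z : ℝ => x - (Pi.single e z : Vec d) :=
    continuous_const.sub (continuous_single (A := fun _ : Fin d => ℝ) e)
  refine Integrable.of_bound ((kl_meas 1).aestronglyMeasurable.mul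
    (hB.cont.comp hc).aestronglyMeasurable) (1 / 2 * C) ?_
  filter_upwards [ae_restrict_mem measurableSet_Ioo] with z hz
  rw [norm_mul, Real.norm_eq_abs, Real.norm_eq_abs]
  exact mul_le_mul (kl_abs one_pos hz) (hC _) (abs_nonneg _) (by norm_num)

private lemma DerS_i {B : Vec d → ℝ} (hB : PlF e B) (x : Vec d) :
    Integrable (fun z : ℝ => B (x - Pi.single e z))
      (volume.restrict (Ioo (-(1 / 2)) (1 / 2))) := by
  obtain ⟨C, hC⟩ := pl_bdd hB
  have hfin : IsFiniteMeasure ((volume : Measure ℝ).restrict (Ioo (-(1 / 2)) (1 / 2))) :=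
    ⟨by rw [Measure.restrict_apply_univ]; exact measure_Ioo_lt_top⟩
  have hc : Continuous fun z : ℝ => x - (Pi.single e z : Vec d) :=
    continuous_const.sub (continuous_single (A := fun _ : Fin d => ℝ) e)
  exact Integrable.of_bound (hB.cont.comp hc).aestronglyMeasurable C
    (Eventually.of_forall fun z => hC _)

private lemma DerS_loc' {B : Vec d → ℝ} (hB : PlF e B) (x : Vec d) :
    (∫ z in Ioo (-(1 / 2) : ℝ) (1 / 2), B (x - Pi.single e z)) = ∫ y, B y ∂(muD d) := by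
  have h := DerS_loc hB x
  unfold loc at h
  exact h

private lemma DerS_sum {a b : Vec d → ℝ} (ha : PlF e a) (hb : PlF e b) (x : Vec d) :
    (∫ z in Ioo (-(1 / 2) : ℝ) (1 / 2), kl 1 z * a (x - Pi.single e z)) + ∫ y, b y ∂(muD d) =
      ∫ z in Ioo (-(1 / 2) : ℝ) (1 / 2), (kl 1 z * a (x - Pi.single e z) + b (x - Pi.single e z)) := by
  rw [← DerS_loc' hb x, ← integral_add (DerS_kl ha x) (DerS_i hb x)]

private lemma DerS_lo {a b m : Vec d → ℝ} (ha : PlF e a) (hb : PlF e b) (hm : PlF e m)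
    (h : ∀ x, ∀ z : ℝ, |z| ≤ 1 / 2 → -m x ≤ z * a x + b x) (x : Vec d) :
    -(∫ y, m y ∂(muD d)) ≤
      (∫ z in Ioo (-(1 / 2) : ℝ) (1 / 2), kl 1 z * a (x - Pi.single e z)) + ∫ y, b y ∂(muD d) := by
  rw [DerS_sum ha hb x, ← DerS_loc' hm x, ← integral_neg]
  refine integral_mono_ae (DerS_i hm x).neg ((DerS_kl ha x).add (DerS_i hb x)) ?_
  filter_upwards [ae_restrict_mem measurableSet_Ioo] with z hz
  exact h _ _ (kl_abs one_pos hz)


theorem dES_low {P : Pd} (hP : P.Ok) (HL : HypL d (1 + P.a) s b C Ca cb) (hs1 : 2 * s < 1) {p : ℕ}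
    (hp : (d : ℝ) + (1 + P.a) + 4 ≤ 2 * p) : ∃ K : ℝ, 0 ≤ K ∧ ∀ M A : ℝ, 0 ≤ M →
    ∀ (e : Fin d) (F : Vec d → Vec d → ℝ), SL (1 + P.a) b M A p e F → ∀ x v : Vec d,
      P.K * (∫ w, (v e - w e) * PhD e P.a P.r v w * (F x w - gb P.R P.C₀ F x w)) - P.K * avD P e F v -
        K * (M * A ^ 2) * jb v ^ P.a ≤ dES P e F (fun x w => M * boltzQ (1 + P.a) b (F x) w) x v := by
  have hg0 : 0 ≤ 1 + P.a := by linarith [hP.ha]
  have hg1 : 1 + P.a ≤ 1 := by linarith [hP.ha0]
  obtain ⟨C₁, hC₁, hw1⟩ := wk_n HL hg0 hg1 hs1 hp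
  obtain ⟨C₂, hC₂, hw2⟩ := wk_r HL hg0 hg1 hs1 hp
  obtain ⟨K₁, hK₁, ht1⟩ := PhD_TF (d := d) hP.ha hP.ha0 hP.hr hP.hr1
  obtain ⟨K₂, hK₂, ht2⟩ := PhC_TF (d := d) hP.ha hP.ha0 hP.hr hP.hr1
  have hK := hP.hK
  refine ⟨P.K * (C₁ * K₁ + C₂ * K₂), by positivity, fun M A hM e F hS x v => ?_⟩
  have hja : 0 ≤ jb v ^ P.a := Real.rpow_nonneg (jb_pos v).le _
  have h := hS.fs
  have hb := hS.fb P.C₀ hP.hC0
  set G : Vec d → Vec d → ℝ := fun x w => M * boltzQ (1 + P.a) b (F x) w with hG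
  have aF : DerSA e F := ⟨h.contF, h.decF, h.perF, h.plF⟩
  have aG : DerSA e G := ⟨h.contG, h.decG, h.perG, h.plG⟩
  have aB : DerSA e fun x w => bet P.C₀ (F x w) := ⟨hb.contF, hb.decF, hb.perF, hb.plF⟩
  have aH : DerSA e fun x w => bet' P.C₀ (F x w) * G x w := ⟨hb.contG, hb.decG, hb.perG, hb.plG⟩
  have a1 : DerSA e (gb P.R P.C₀ F) := by
    refine ⟨?_, ?_, ?_, ?_⟩
    · exact ((chi_cont P.R).comp continuous_snd).mul hb.contF
    · intro N
      obtain ⟨C, hC⟩ := hb.decF N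
      refine ⟨C, fun x w => le_trans ?_ (hC x w)⟩
      have hw : 0 < 1 + ‖w‖ := w_pos w
      refine mul_le_mul_of_nonneg_left ?_ (by positivity)
      unfold gb
      rw [abs_mul, abs_of_nonneg (chi_nonneg _ _)]
      exact mul_le_of_le_one_left (abs_nonneg _) (chi_le_one _ _)
    · intro x w i
      unfold gb
      rw [h.perF]
    · intro x y w hxy
      unfold gb
      rw [h.plF x y w hxy]
  have a2 : DerSA e fun x w => F x w - gb P.R P.C₀ F x w := by
    refine ⟨aF.cont.sub a1.cont, ?_, ?_, ?_⟩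
    · intro N
      obtain ⟨C, hC⟩ := aF.dec N
      obtain ⟨C', hC'⟩ := a1.dec N
      refine ⟨C + C', fun x w => ?_⟩
      have hw : 0 < 1 + ‖w‖ := w_pos w
      calc (1 + ‖w‖) ^ N * |F x w - gb P.R P.C₀ F x w|
          ≤ (1 + ‖w‖) ^ N * (|F x w| + |gb P.R P.C₀ F x w|) :=
            mul_le_mul_of_nonneg_left (abs_sub _ _) (by positivity)
        _ = (1 + ‖w‖) ^ N * |F x w| + (1 + ‖w‖) ^ N * |gb P.R P.C₀ F x w| := by ring
        _ ≤ C + C' := add_le_add (hC x w) (hC' x w)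
    · intro x w i
      simp only [aF.per, a1.per]
    · intro x y w hxy
      simp only [aF.pl x y w hxy, a1.pl x y w hxy]
  have po := PhD_PGW (d := d) hP.ha hP.ha0 hP.hr e
  have pa := PhA_PGW (d := d) hP.ha hP.ha0 hP.hr e
  have co := cutW_PGW po P.R
  have ca := cutW_PGW pa P.R
  have vo := po.vmul e
  have vc := co.vmul e
  -- the identity for the fluxes
  have hid : ∀ y, (∫ w, (v e - w e) * PhD e P.a P.r v w * F y w) -
      (∫ w, (v e - w e) * cutW P.R (PhD e P.a P.r) v w * bet P.C₀ (F y w)) =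
      ∫ w, (v e - w e) * PhD e P.a P.r v w * (F y w - gb P.R P.C₀ F y w) := by
    intro y
    rw [← integral_sub (DerS_int aF vo y v) (DerS_int aB vc y v)]
    congr 1
    funext w
    unfold gb cutW
    ring
  have q1 := DerS_pl aF vo v
  have q2 := DerS_pl aB vc v
  have hav : avD P e F v =
      (∫ y, (∫ w, (v e - w e) * PhD e P.a P.r v w * F y w) ∂(muD d)) -
        ∫ y, (∫ w, (v e - w e) * cutW P.R (PhD e P.a P.r) v w * bet P.C₀ (F y w)) ∂(muD d) := by
    have e1 : avD P e F v =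
        ∫ y, (∫ w, (v e - w e) * PhD e P.a P.r v w * (F y w - gb P.R P.C₀ F y w)) ∂(muD d) :=
      Pool.Agent.H15.AV.nu_integral (DerS_nu a2 vo v)
    rw [e1, ← integral_sub (pl_int q1) (pl_int q2)]
    congr 1
    funext y
    exact (hid y).symm
  have l1 := DerS_loc' q1 x
  have l2 := DerS_loc' q2 x
  have z0 : PlF e fun _ : Vec d => (0 : ℝ) := ⟨continuous_const, fun _ _ => rfl, fun _ _ _ => rfl⟩
  have zc : ∀ c : ℝ, PlF e fun _ : Vec d => c := fun c =>
    ⟨continuous_const, fun _ _ => rfl, fun _ _ _ => rfl⟩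
  have hm : ∀ c : ℝ, (∫ _y : Vec d, c ∂(muD d)) = c := by
    intro c
    rw [integral_const, measureReal_def, muD_univ]
    simp
  -- first source
  have h1 : ∀ y, |∫ w, PhD e P.a P.r v w * G y w| ≤ M * (C₁ * (K₁ * jb v ^ P.a) * A ^ 2) := by
    intro y
    have h3 := hw1 (F y) (hS.nice y) (fun u => h.nonneg y u) A (fun u => hS.bd y u) (K₁ * jb v ^ P.a)
      (fun w => PhD e P.a P.r v w) (ht1 e v)
    have h4 : (∫ w, PhD e P.a P.r v w * G y w) =
        M * ∫ w, boltzQ (1 + P.a) b (F y) w * PhD e P.a P.r v w := by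
      rw [← integral_const_mul]
      congr 1
      funext w
      simp only [hG]
      ring
    rw [h4, abs_mul, abs_of_nonneg hM]
    exact mul_le_mul_of_nonneg_left h3 hM
  have s1 := DerS_lo (DerS_pl aG po v) z0 (zc (M * (C₁ * (K₁ * jb v ^ P.a) * A ^ 2)))
    (fun y z hz => by
      have h3 := h1 y
      have h4 : |z * ∫ w, PhD e P.a P.r v w * G y w| ≤ M * (C₁ * (K₁ * jb v ^ P.a) * A ^ 2) := by
        rw [abs_mul]
        have h5 := abs_nonneg (∫ w, PhD e P.a P.r v w * G y w)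
        nlinarith
      have h6 := (abs_le.mp h4).1
      linarith) x
  -- second source
  have h2 : ∀ y, ∀ z : ℝ, |z| ≤ 1 / 2 → -(M * (C₂ * (K₂ * jb v ^ P.a) * A ^ 2)) ≤
      z * (-∫ w, cutW P.R (PhD e P.a P.r) v w * (bet' P.C₀ (F y w) * G y w)) +
        ∫ w, cutW P.R (PhA e P.a P.r) v w * (bet' P.C₀ (F y w) * G y w) := by
    intro y z hz
    have hz' : |(-z)| ≤ 1 := by
      rw [abs_neg]
      linarith
    obtain ⟨t1, t2⟩ := ht2 P.R hP.hR1 e v (-z) hz'
    have h3 := hw2 (F y) (hS.nice y) (fun u => h.nonneg y u) A (fun u => hS.bd y u) P.C₀ hP.hC0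
      (K₂ * jb v ^ P.a) (fun w => chi P.R w * (PhA e P.a P.r v w + (-z) * PhD e P.a P.r v w)) t1 t2
    have h4 : z * (-∫ w, cutW P.R (PhD e P.a P.r) v w * (bet' P.C₀ (F y w) * G y w)) +
        (∫ w, cutW P.R (PhA e P.a P.r) v w * (bet' P.C₀ (F y w) * G y w)) =
        M * ∫ w, bet' P.C₀ (F y w) * boltzQ (1 + P.a) b (F y) w *
          (chi P.R w * (PhA e P.a P.r v w + (-z) * PhD e P.a P.r v w)) := by
      have e0 : z * (-∫ w, cutW P.R (PhD e P.a P.r) v w * (bet' P.C₀ (F y w) * G y w)) =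
          ∫ w, (-z) * (cutW P.R (PhD e P.a P.r) v w * (bet' P.C₀ (F y w) * G y w)) := by
        rw [integral_const_mul]
        ring
      rw [e0, ← integral_add ((DerS_int aH co y v).const_mul (-z)) (DerS_int aH ca y v),
        ← integral_const_mul]
      congr 1
      funext w
      simp only [hG]
      unfold cutW
      ring
    rw [h4]
    have h5 := mul_le_mul_of_nonneg_left h3 hM
    linarith
  have qn : PlF e fun y => -∫ w, cutW P.R (PhD e P.a P.r) v w * (bet' P.C₀ (F y w) * G y w) := by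
    have q := DerS_pl aH co v
    exact ⟨q.cont.neg, fun x i => by rw [q.per], fun x y h => by rw [q.pl x y h]⟩
  have s2 := DerS_lo qn (DerS_pl aH ca v) (zc (M * (C₂ * (K₂ * jb v ^ P.a) * A ^ 2))) h2 x
  have r2 : avn (cutW P.R (PhA e P.a P.r)) (fun y w => bet' P.C₀ (F y w) * G y w) v =
      ∫ y, (∫ w, cutW P.R (PhA e P.a P.r) v w * (bet' P.C₀ (F y w) * G y w)) ∂(muD d) :=
    Pool.Agent.H15.AV.nu_integral (DerS_nu aH ca v)
  have s3 : (∫ z in Ioo (-(1 / 2) : ℝ) (1 / 2), kl 1 z *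
      -∫ w, cutW P.R (PhD e P.a P.r) v w * (bet' P.C₀ (F (x - Pi.single e z) w) *
        G (x - Pi.single e z) w)) =
      -∫ z in Ioo (-(1 / 2) : ℝ) (1 / 2), kl 1 z *
        ∫ w, cutW P.R (PhD e P.a P.r) v w * (bet' P.C₀ (F (x - Pi.single e z) w) *
          G (x - Pi.single e z) w) := by
    rw [← integral_neg]
    congr 1
    funext z
    ring
  rw [hm, integral_zero, add_zero] at s1
  rw [hm, s3] at s2
  have hx := hid x
  unfold dES dpot
  rw [one_div_one, one_mul, one_mul, r2, hav, ← hx]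
  rw [l1, l2]
  have k1 := mul_le_mul_of_nonneg_left s1 hK
  have k2 := mul_le_mul_of_nonneg_left s2 hK
  have k3 : P.K * (C₁ * K₁ + C₂ * K₂) * (M * A ^ 2) * jb v ^ P.a =
      P.K * (M * (C₁ * (K₁ * jb v ^ P.a) * A ^ 2)) + P.K * (M * (C₂ * (K₂ * jb v ^ P.a) * A ^ 2)) := by
    ring
  rw [k3]
  linarith

end Pool.Agent.H85.DG
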