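import Pool.Agent.H85.DG.OpD
import Pool.Agent.H85.DG.AvD
import Pool.Agent.H85.DG.SmD
import Pool.Agent.H85.DG.EBd
import Pool.Agent.H85.DG.EDefD
import Pool.Agent.H85.DG.DerS
import Pool.Agent.H85.DG.DerX
import Pool.Agent.H85.DG.SolD
import Pool.Agent.H85.DG.TchD
import Pool.Agent.H48.PV.VarL
import Pool.Agent.H48.PG.LocG
import Pool.Agent.H48.PI.Shift

/-!
# Module CoreD: the bound with the weight `(1+|v|²)^p`

Constants, in this order: `M'` (`gb_al`), `K₀, κ, δ₁` (`op_d`), `R₂, C₂, cV` (`var_low M'`, `m₀ = 1`), `lam = κ/(12 R₂^2)`, `ε₂ = lam cV/(16 (K₀+1))`, `R, C₀` (`gb_small M'`, `a = 0`), `N₁` (`op_d`, `C₀`, `2R`), `L = 2 (max α 0 + N₁)`, `A = 2L`, `r` (`r_small`, `ε = lam cV/(8 (K₀+1))`), `P = ⟨a,K₀,lam,r,R,C₀,R₂,C₂⟩`,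
`K_S, K_X` (`dES_low`, `dEX_low`), `B` (`ES_bd`, `EX_bd`), `Ms`.
-/

set_option autoImplicit false

open MeasureTheory Set Filter Topology Pool.Agent.H25.Kin Pool.Agent.H82.BK Pool.Agent.H82.CM
open Pool.Agent.H48.PL Pool.Agent.H48.PI Pool.Agent.H48.PW Pool.Agent.H48.PV

namespace Pool.Agent.H85.DG

variable {d : ℕ} {s a C Ca cb : ℝ} {b : ℝ → ℝ}

/-- the bounded part of a slice -/
private lemma cored_g1 {g : Vec d → ℝ} (hg : Nice g) (hg0 : ∀ u, 0 ≤ g u) {R C₀ : ℝ} (hR : 1 ≤ R) (hC : 0 < C₀) :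
    Measurable (fun u => chi R u * bet C₀ (g u)) ∧ (∀ u, 0 ≤ chi R u * bet C₀ (g u)) ∧
      (∀ u, chi R u * bet C₀ (g u) ≤ g u) ∧ (∀ u, chi R u * bet C₀ (g u) ≤ C₀) ∧
      ∀ u, 2 * R < jb u → chi R u * bet C₀ (g u) = 0 := by
  have hb0 : ∀ u, 0 ≤ bet C₀ (g u) := fun u => bet_nonneg hC (hg0 u)
  have gb' : ∀ u, chi R u * bet C₀ (g u) ≤ bet C₀ (g u) := fun u => by
    calc chi R u * bet C₀ (g u) ≤ 1 * bet C₀ (g u) :=
          mul_le_mul_of_nonneg_right (chi_le_one _ _) (hb0 u)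
      _ = bet C₀ (g u) := one_mul _
  refine ⟨?_, fun u => mul_nonneg (chi_nonneg _ _) (hb0 u), fun u => (gb' u).trans (bet_le hC (hg0 u)),
    fun u => (gb' u).trans (bet_le_C hC (hg0 u)), fun u hu => ?_⟩
  · have m1 : Measurable (bet C₀) := by
      unfold bet
      exact (measurable_const.mul measurable_id).div (measurable_const.add measurable_id)
    exact (chi_cont _).measurable.mul (m1.comp hg.cont.measurable)
  · rw [chi_eq_zero hR hu.le, zero_mul]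

/-- the choice of the constants, the touching inequality for one time slice -/
private theorem cored_slice (HL : HypL d (1 + a) s b C Ca cb) (hs1 : 2 * s < 1) (ha : -1 ≤ a) (ha0 : a < 0)
    {p : ℕ} (hp : (d : ℝ) + (1 + a) + 4 ≤ 2 * p) (e : Fin d) (α M' : ℝ) :
    ∃ (P : Pd) (N₁ Ms : ℝ), P.Ok ∧ P.a = a ∧ 0 < N₁ ∧ 0 < Ms ∧ Ms ≤ 1 ∧ ∀ M : ℝ, 0 < M → M ≤ Ms →
      (∀ F : Vec d → Vec d → ℝ, (FS e F fun _ _ => 0) → GB M' F → ∀ x v, |M * ET P e F x v| ≤ 1 / 8) ∧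
      ∀ F : Vec d → Vec d → ℝ, SL (1 + a) b M (4 * (max α 0 + N₁)) p e F → GB M' F → ∀ x v : Vec d,
        N₁ ≤ F x v * (1 + nsq v) ^ p →
        (∀ u, F x u * (1 + nsq u) ^ p * Real.exp (-(M * ET P e F x u)) ≤
          F x v * (1 + nsq v) ^ p * Real.exp (-(M * ET P e F x v))) →
        M * boltzQ (1 + a) b (F x) v ≤
          F x v * (M * dET P e F (fun x w => M * boltzQ (1 + a) b (F x) w) x v) := by
  obtain ⟨K₀, κ, δ₁, hK₀, hκ, hδ, hδ1, hop⟩ := op_d HL ha ha0 hs1 hp e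
  obtain ⟨R₂, C₂, cV, hR₂, hC₂, hcV, hvar⟩ := var_low (d := d) M' one_pos
  have hR₂0 : 0 < R₂ := by linarith
  have hC₂0 : 0 < C₂ := by linarith
  obtain ⟨lam, hlam, hlamd⟩ : ∃ lam : ℝ, 0 < lam ∧ 12 * R₂ ^ 2 * lam = κ :=
    ⟨κ / (12 * R₂ ^ 2), by positivity, by field_simp⟩
  have hlc : 0 < lam * cV := mul_pos hlam hcV
  obtain ⟨ε₂, hε₂, hε₂d⟩ : ∃ ε₂ : ℝ, 0 < ε₂ ∧ K₀ * (2 * ε₂) ≤ lam * cV / 8 := by
    refine ⟨lam * cV / (16 * (K₀ + 1)), by positivity, ?_⟩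
    have h1 : K₀ * (2 * (lam * cV / (16 * (K₀ + 1)))) = (K₀ / (K₀ + 1)) * (lam * cV / 8) := by
      field_simp
      ring
    have h2 : K₀ / (K₀ + 1) ≤ 1 := (div_le_one (by linarith)).2 (by linarith)
    rw [h1]
    exact mul_le_of_le_one_left (by positivity) h2
  obtain ⟨ε₃, hε₃, hε₃d⟩ : ∃ ε₃ : ℝ, 0 < ε₃ ∧ K₀ * ε₃ ≤ lam * cV / 8 := by
    refine ⟨lam * cV / (8 * (K₀ + 1)), by positivity, ?_⟩
    have h1 : K₀ * (lam * cV / (8 * (K₀ + 1))) = (K₀ / (K₀ + 1)) * (lam * cV / 8) := by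
      field_simp
    have h2 : K₀ / (K₀ + 1) ≤ 1 := (div_le_one (by linarith)).2 (by linarith)
    rw [h1]
    exact mul_le_of_le_one_left (by positivity) h2
  obtain ⟨R₀, hR₀, hgb⟩ := Pool.Agent.H48.PG.gb_small (d := d) (a := 0) M' le_rfl zero_lt_one hε₂
  obtain ⟨C₁, hC₁, hgb⟩ := hgb (max R₀ R₂) (le_max_left _ _)
  have hgb := hgb (max C₁ C₂) (le_max_left _ _)
  obtain ⟨N₁, hN₁, hop⟩ := hop (max C₁ C₂) (2 * max R₀ R₂) (lt_of_lt_of_le hC₂0 (le_max_right _ _))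
    (by linarith [le_max_left R₀ R₂])
  have hR1 : 1 ≤ max R₀ R₂ := hR₀.trans (le_max_left _ _)
  have hC0 : 0 < max C₁ C₂ := lt_of_lt_of_le hC₂0 (le_max_right _ _)
  obtain ⟨r, hr, hr1, hrs⟩ := r_small (d := d) ha ha0 hp (4 * (max α 0 + N₁)) hε₃
  obtain ⟨P, hPd⟩ : ∃ P : Pd, P = ⟨a, K₀, lam, r, max R₀ R₂, max C₁ C₂, R₂, C₂⟩ := ⟨_, rfl⟩
  have Pa : P.a = a := by rw [hPd]
  have PK : P.K = K₀ := by rw [hPd]
  have Pl : P.lam = lam := by rw [hPd]
  have Pr : P.r = r := by rw [hPd]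
  have PR : P.R = max R₀ R₂ := by rw [hPd]
  have PC : P.C₀ = max C₁ C₂ := by rw [hPd]
  have PR₂ : P.R₂ = R₂ := by rw [hPd]
  have PC₂ : P.C₂ = C₂ := by rw [hPd]
  have hP : P.Ok := ⟨by rw [Pa]; exact ha, by rw [Pa]; exact ha0, by rw [PK]; exact hK₀,
    by rw [Pl]; exact hlam.le, by rw [Pr]; exact hr, by rw [Pr]; exact hr1, by rw [PR₂]; exact hR₂,
    by rw [PR, PR₂]; exact le_max_right _ _, by rw [PC₂]; exact hC₂0,
    by rw [PC, PC₂]; exact le_max_right _ _⟩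
  obtain ⟨KS, hKS, hS⟩ := dES_low (b := b) hP (by rw [Pa]; exact HL) hs1 (by rw [Pa]; exact hp)
  obtain ⟨KX, hKX, hX⟩ := dEX_low HL ha ha0 hs1 hp hR₂
  obtain ⟨BS, hBS, hbS⟩ := ES_bd (d := d) hP M'
  obtain ⟨BX, hBX, hbX⟩ := EX_bd (d := d) ha ha0 hR₂ M'
  obtain ⟨B, hBd⟩ : ∃ B : ℝ, B = BS + lam * BX := ⟨_, rfl⟩
  have hB : 0 ≤ B := by rw [hBd]; positivity
  obtain ⟨A, hA⟩ : ∃ A : ℝ, A = 4 * (max α 0 + N₁) := ⟨_, rfl⟩
  obtain ⟨Z, hZ⟩ : ∃ Z : ℝ, Z = (KS + lam * KX) * A ^ 2 := ⟨_, rfl⟩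
  have hZ0 : 0 ≤ Z := by rw [hZ]; positivity
  have hET : ∀ F G : Vec d → Vec d → ℝ, FS e F G → GB M' F → ∀ x u v : Vec d, |ET P e F x v| ≤ B ∧
      |ET P e F x u - ET P e F x v| ≤ B * min 1 (len (u - v) / jb v) := by
    intro F G hF hG x u v
    have h1 := hbS e F G hF hG x u v
    have h2 := hbX C₂ hC₂0 e F G hF hG x u v
    unfold ET
    rw [Pl, Pa, PR₂, PC₂]
    have hm : 0 ≤ min 1 (len (u - v) / jb v) :=
      le_min zero_le_one (div_nonneg (Real.sqrt_nonneg _) (jb_pos v).le)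
    constructor
    · refine (abs_add_le _ _).trans ?_
      rw [abs_mul, abs_of_pos hlam, hBd]
      exact add_le_add h1.1 (mul_le_mul_of_nonneg_left h2.1 hlam.le)
    · have e1 : ES P e F x u + lam * EX a R₂ C₂ e F x u - (ES P e F x v + lam * EX a R₂ C₂ e F x v) =
          (ES P e F x u - ES P e F x v) + lam * (EX a R₂ C₂ e F x u - EX a R₂ C₂ e F x v) := by ring
      rw [e1]
      refine (abs_add_le _ _).trans ?_
      rw [abs_mul, abs_of_pos hlam, hBd]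
      have h3 := mul_le_mul_of_nonneg_left h2.2 hlam.le
      have h4 := h1.2
      linarith
  refine ⟨P, N₁, min 1 (min (1 / (8 * (B + 1))) (min (δ₁ / (2 * (B + 1))) (lam * cV / (8 * (Z + 1))))), hP, Pa,
    hN₁, ?_, min_le_left _ _, fun M hM hMm => ⟨fun F hF hG x v => ?_, fun F hF hG x v hhigh htch => ?_⟩⟩
  · exact lt_min one_pos (lt_min (by positivity) (lt_min (by positivity) (by positivity)))
  · have h1 := (hET F _ hF hG x v v).1
    have h2 : M ≤ 1 / (8 * (B + 1)) := hMm.trans ((min_le_right _ _).trans (min_le_left _ _))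
    rw [le_div_iff₀ (by positivity)] at h2
    rw [abs_mul, abs_of_pos hM]
    have h3 := mul_le_mul_of_nonneg_left h1 hM.le
    linarith
  -- the touching inequality
  have hm1 : M ≤ δ₁ / (2 * (B + 1)) :=
    hMm.trans ((min_le_right _ _).trans ((min_le_right _ _).trans (min_le_left _ _)))
  have hm2 : M ≤ lam * cV / (8 * (Z + 1)) :=
    hMm.trans ((min_le_right _ _).trans ((min_le_right _ _).trans (min_le_right _ _)))
  rw [le_div_iff₀ (by positivity)] at hm1 hm2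
  have hF0 : ∀ u, 0 ≤ F x u := fun u => hF.fs.nonneg x u
  have hT : TouchS δ₁ 1 p (F x) v := by
    refine touch_D hδ hδ1 (E := fun u => M * ET P e F x u) hF0 (fun u => ?_) htch
    have h1 := (hET F _ hF.fs hG x u v).2
    have hm : 0 ≤ min 1 (len (u - v) / jb v) :=
      le_min zero_le_one (div_nonneg (Real.sqrt_nonneg _) (jb_pos v).le)
    have e1 : M * ET P e F x u - M * ET P e F x v = M * (ET P e F x u - ET P e F x v) := by ring
    rw [e1, abs_mul, abs_of_pos hM]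
    calc M * |ET P e F x u - ET P e F x v| ≤ M * (B * min 1 (len (u - v) / jb v)) :=
          mul_le_mul_of_nonneg_left h1 hM.le
      _ = (M * B) * min 1 (len (u - v) / jb v) := by ring
      _ ≤ δ₁ / 2 * min 1 (len (u - v) / jb v) := by
          refine mul_le_mul_of_nonneg_right ?_ hm
          linarith
  obtain ⟨gm, g0, gg, gC, gR⟩ := cored_g1 (hF.nice x) hF0 hR1 hC0
  have main := hop (F x) _ (hF.nice x) hF0 gm g0 gg gC gR v hT hhigh
  have hq : K₀ * (∫ w, (v e - w e) * PhS e a v w * (F x w - chi (max R₀ R₂) w * bet (max C₁ C₂) (F x w))) -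
      κ * (∫ w, len (v - w) ^ (1 + a) * (chi (max R₀ R₂) w * bet (max C₁ C₂) (F x w))) ≤
      dET P e F (fun x w => M * boltzQ (1 + a) b (F x) w) x v := by
    have hj : 0 < jb v ^ a := Real.rpow_pos_of_pos (jb_pos v) _
    have f1 := mul_le_mul_of_nonneg_left
      (hrs e (F x) _ (hF.nice x) hF0 gm g0 gg (fun u => hF.bd x u) v) hK₀
    have f2 := loc_D ha ha0 hR₂ (le_max_right R₀ R₂) hC₂0 (le_max_right C₁ C₂) (hF.nice x) hF0 v
    have hSL : SL (1 + P.a) b M A p e F := by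
      rw [Pa, hA]
      exact hF
    have f3 := hS M A hM.le e F hSL x v
    have f4 := hX C₂ hC₂0 M A hM.le e F (by rw [hA]; exact hF) x v
    have f5 := avD_le hP hF.fs (ε₂ := ε₂) (by
      rw [PR, PC]
      exact hgb e F _ hF.fs hG) v
    have f6 := hvar e F _ hF.fs hG (le_of_eq hF.mass.symm)
    rw [Pa, Pr, PK] at f3
    rw [Pa] at f5
    unfold gb at f3 f4
    rw [PR, PC] at f3
    unfold dET
    rw [Pl, Pa, PR₂, PC₂]
    obtain ⟨IS, hIS⟩ : ∃ X : ℝ, X = ∫ w, (v e - w e) * PhS e a v w *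
      (F x w - chi (max R₀ R₂) w * bet (max C₁ C₂) (F x w)) := ⟨_, rfl⟩
    obtain ⟨ID, hID⟩ : ∃ X : ℝ, X = ∫ w, (v e - w e) * PhD e a r v w *
      (F x w - chi (max R₀ R₂) w * bet (max C₁ C₂) (F x w)) := ⟨_, rfl⟩
    obtain ⟨J, hJ⟩ : ∃ X : ℝ, X = ∫ w, len (v - w) ^ (1 + a) *
      (chi (max R₀ R₂) w * bet (max C₁ C₂) (F x w)) := ⟨_, rfl⟩
    obtain ⟨I, hI⟩ : ∃ X : ℝ, X = ∫ w, len (v - w) * (chi R₂ w * bet C₂ (F x w)) := ⟨_, rfl⟩
    rw [← hIS, ← hID] at f1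
    rw [← hID] at f3
    rw [← hJ, ← hI] at f2
    rw [← hI] at f4
    rw [← hIS, ← hJ]
    obtain ⟨j, hjd⟩ : ∃ X : ℝ, X = jb v ^ a := ⟨_, rfl⟩
    rw [← hjd] at f1 f2 f3 f4 f5 hj
    have f7 := mul_le_mul_of_nonneg_left f5 hK₀
    have f8 := mul_le_mul_of_nonneg_left f4 hlam.le
    have f9 := mul_le_mul_of_nonneg_left f2 (by positivity : 0 ≤ 4 * R₂ * lam)
    have f10 : lam * (j * cV) ≤ lam * (j * VarU R₂ C₂ e F) :=
      mul_le_mul_of_nonneg_left (mul_le_mul_of_nonneg_left f6 hj.le) hlam.le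
    have e1 : 4 * R₂ * lam * (3 * R₂ * J) = κ * J := by rw [← hlamd]; ring
    rw [e1] at f9
    have f11 : M * Z ≤ lam * cV / 8 := by linarith
    have f12 : j * (K₀ * ε₃ + K₀ * (2 * ε₂) + M * Z) ≤ j * (lam * cV) :=
      mul_le_mul_of_nonneg_left (by linarith) hj.le
    rw [hZ] at f12
    linarith
  calc M * boltzQ (1 + a) b (F x) v ≤ M * (F x v * _) := mul_le_mul_of_nonneg_left main hM.le
    _ = F x v * (M * _) := by ring
    _ ≤ _ := mul_le_mul_of_nonneg_left (mul_le_mul_of_nonneg_left hq hM.le) (hF0 v)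

theorem core_D (hd : 2 ≤ d) (hs : 0 < s) (hs1 : 2 * s < 1) (hb : IsKernel d s b)
    (HL : HypL d (1 + a) s b C Ca cb) (ha : -1 ≤ a) (ha0 : a < 0) {p : ℕ}
    (hp : (d : ℝ) + (1 + a) + 4 ≤ 2 * p) (e : Fin d) (α : ℝ) :
    ∃ Ms L : ℝ, 0 < Ms ∧ Ms ≤ 1 ∧ 0 < L ∧ ∀ M : ℝ, 0 < M → M ≤ Ms →
    ∀ (T : ℝ) (h : ℝ → Vec d → Vec d → ℝ), IsBoltzmannSol (1 + a) (fun x => M * b x) T h → Planar e T h →
      ∫ q, h 0 q.2 q.1 ∂(nu d) = 1 → (∀ x v, h 0 x v * (1 + nsq v) ^ p ≤ α) →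
      ∀ t ∈ Ico 0 T, ∀ x v, h t x v * (1 + nsq v) ^ p ≤ L := by
  have g0 : 0 ≤ (1 + a) + 2 * s := by linarith
  have g2 : (1 + a) + 2 * s ≤ 2 := by linarith
  obtain ⟨M', hM', hgb⟩ := gb_al (d := d) (p := p) (by linarith) α
  obtain ⟨P, N₁, Ms, hP, Pa, hN₁, hMs, hMs1, H⟩ := cored_slice HL hs1 ha ha0 hp e α M'
  have hα0 : 0 ≤ max α 0 := le_max_right _ _
  refine ⟨Ms, 2 * (max α 0 + N₁), hMs, hMs1, by positivity, fun M hM hMm T h hf hpl hmass hα => ?_⟩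
  obtain ⟨Hb, Ht⟩ := H M hM hMm
  have hf' : IsClassicalSol T (fun t x => boltzQ (1 + a) (fun x => M * b x) (h t x)) h := hf
  refine boot_D hf' p (by positivity) (fun x v => ?_) fun T' hT' hup => ?_
  · have := hα x v
    have h2 := le_max_left α 0
    linarith
  intro t ht x v
  have hT'0 : 0 < T' := ht.1.trans_lt ht.2
  have hf1 : IsClassicalSol T' (fun t x => boltzQ (1 + a) (fun x => M * b x) (h t x)) h := sol_restrict hf' hT'
  have hf2 : IsBoltzmannSol (1 + a) (fun x => M * b x) T' h := hf1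
  have hpl1 : Planar e T' h := fun t ht => hpl t ⟨ht.1, ht.2.trans_le hT'⟩
  have hG0 : GB M' (h 0) := hgb (h 0) ⟨e, fs0_of hf1 hpl1 ⟨le_rfl, hT'0⟩⟩ hα hmass
  have hG : ∀ t ∈ Ico 0 T', GB M' (h t) := fun t ht => gb_of hd hs (by linarith) g0 g2 hb hM hf2 hG0 ht
  have hsrc : ∀ t ∈ Ioo 0 T', (fun x => boltzQ (1 + a) (fun x => M * b x) (h t x)) =
      fun x w => M * boltzQ (1 + a) b (h t x) w := by
    intro t ht
    funext x w
    exact Pool.Agent.H25.PN.boltzQ_scale hd hs (by linarith) g0 g2 hb M (hf1.nice ht x) w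
  have hE8 : ∀ t ∈ Ico 0 T', ∀ x v, |M * ET P e (h t) x v| ≤ 1 / 8 := fun t ht x v =>
    Hb (h t) (fs0_of hf1 hpl1 ht) (hG t ht) x v
  have e18 : Real.exp (1 / 8) * Real.exp (1 / 8) ≤ 2 := by
    rw [← Real.exp_add]
    have h1 : Real.exp (1 / 8 + 1 / 8) ≤ Real.exp (1 / 2) := Real.exp_le_exp.2 (by norm_num)
    have h2 : Real.exp (1 / 2) ≤ 2 := by
      have h3 := Real.exp_bound' (x := 1 / 2) (by norm_num) (by norm_num) (n := 3) (by norm_num)
      refine h3.trans ?_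
      norm_num [Finset.sum_range_succ, Nat.factorial]
    linarith
  have key := max_high hf1 p (E := fun t x v => M * ET P e (h t) x v)
    (DE := fun t x v => M * dET P e (h t) (fun x => boltzQ (1 + a) (fun x => M * b x) (h t x)) x v)
    (continuousOn_const.mul (ET_cont hP hf1 e))
    (fun t ht x v i => by
      show M * ET P e (h t) (x + Pi.single i 1) v = M * ET P e (h t) x v
      rw [ET_per (fun x v i => hf1.periodic t ht x v i)])
    (fun T₁ hT₁ => ⟨1 / 8, fun t ht x v => hE8 t ⟨ht.1, ht.2.trans_lt hT₁⟩ x v⟩)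
    (fun t ht x v => (ET_char hP hf1 hpl1 ht x v).const_mul M)
    (m := fun _ => 0) integrableOn_zero (fun _ _ => le_rfl) (A₁ := Real.exp (1 / 8) * N₁)
    (fun t ht x v hhigh htch => by
      have ht' : t ∈ Ico 0 T' := ⟨ht.1.le, ht.2⟩
      have hSL : SL (1 + a) b M (4 * (max α 0 + N₁)) p e (h t) := by
        refine sl_of hd hs (by linarith) g0 g2 hb hM hf2 hpl1 hmass ht fun x v => ?_
        have := hup t ht' x v
        linarith
      have hle : (0 : ℝ) ≤ h t x v * (1 + nsq v) ^ p :=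
        mul_nonneg (hf1.nonneg t ht' x v) (pow_nonneg (by linarith [sq_nonneg' v]) _)
      have hN : N₁ ≤ h t x v * (1 + nsq v) ^ p := by
        have h1 : Real.exp (-(M * ET P e (h t) x v)) ≤ Real.exp (1 / 8) := by
          refine Real.exp_le_exp.2 ?_
          have := (abs_le.1 (hE8 t ht' x v)).1
          linarith
        have h2 := mul_le_mul_of_nonneg_left h1 hle
        have h3 : Real.exp (1 / 8) * N₁ ≤ Real.exp (1 / 8) * (h t x v * (1 + nsq v) ^ p) := by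
          have h4 := hhigh.trans h2
          linarith
        exact le_of_mul_le_mul_left h3 (Real.exp_pos _)
      have h5 := Ht (h t) hSL (hG t ht') x v hN htch
      have h6 : boltzQ (1 + a) (fun x => M * b x) (h t x) v = M * boltzQ (1 + a) b (h t x) v :=
        congrFun (congrFun (hsrc t ht) x) v
      show boltzQ (1 + a) (fun x => M * b x) (h t x) v ≤ h t x v *
        (M * dET P e (h t) (fun x => boltzQ (1 + a) (fun x => M * b x) (h t x)) x v + 0)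
      rw [h6, hsrc t ht, add_zero]
      exact h5)
    (A₀ := Real.exp (1 / 8) * (max α 0 + N₁))
    (mul_le_mul_of_nonneg_left (by linarith) (Real.exp_pos _).le)
    (fun x v => by
      have h1 : Real.exp (-(M * ET P e (h 0) x v)) ≤ Real.exp (1 / 8) := by
        refine Real.exp_le_exp.2 ?_
        have := (abs_le.1 (hE8 0 ⟨le_rfl, hT'0⟩ x v)).1
        linarith
      have h2 : h 0 x v * (1 + nsq v) ^ p ≤ max α 0 + N₁ :=
        (hα x v).trans (by linarith [le_max_left α 0])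
      calc h 0 x v * (1 + nsq v) ^ p * Real.exp (-(M * ET P e (h 0) x v))
          ≤ (max α 0 + N₁) * Real.exp (-(M * ET P e (h 0) x v)) :=
            mul_le_mul_of_nonneg_right h2 (Real.exp_pos _).le
        _ ≤ (max α 0 + N₁) * Real.exp (1 / 8) := mul_le_mul_of_nonneg_left h1 (by positivity)
        _ = Real.exp (1 / 8) * (max α 0 + N₁) := mul_comm _ _)
    t ht x v
  simp only [integral_zero, Real.exp_zero, mul_one] at key
  have h1 : Real.exp (M * ET P e (h t) x v) ≤ Real.exp (1 / 8) := by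
    refine Real.exp_le_exp.2 ?_
    exact (abs_le.1 (hE8 t ht x v)).2
  have h2 := mul_le_mul_of_nonneg_right key (Real.exp_pos (M * ET P e (h t) x v)).le
  have h3 : h t x v * (1 + nsq v) ^ p * Real.exp (-(M * ET P e (h t) x v)) *
      Real.exp (M * ET P e (h t) x v) = h t x v * (1 + nsq v) ^ p := by
    rw [mul_assoc, ← Real.exp_add, neg_add_cancel, Real.exp_zero, mul_one]
  rw [h3] at h2
  calc h t x v * (1 + nsq v) ^ p ≤ Real.exp (1 / 8) * (max α 0 + N₁) * Real.exp (M * ET P e (h t) x v) := h2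
    _ ≤ Real.exp (1 / 8) * (max α 0 + N₁) * Real.exp (1 / 8) :=
        mul_le_mul_of_nonneg_left h1 (by positivity)
    _ = (Real.exp (1 / 8) * Real.exp (1 / 8)) * (max α 0 + N₁) := by ring
    _ ≤ 2 * (max α 0 + N₁) := mul_le_mul_of_nonneg_right e18 (by positivity)

end Pool.Agent.H85.DG
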