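import Pool.Agent.H48.PV.EUDef

/-!
# Dilute plane symmetric gas, `γ = 1 + a`, `-1 ≤ a < 0`, `2s < 1` (MP_c15324_an): definitions

Paper: /team-store/h15_dilute_paper.md, with one simplification: the scale `r` of the regularised weight `PhD` is a FIXED constant (chosen after
the bound `A` of the bootstrap and before the mass `M`), so nothing has to be uniform in `r`.

`h = f/M` is a solution for the kernel `M b`, with total mass `1`; the weight of the maximum principle is `M ET`.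
* `ET = ES + lam EX`; `ES = K pot[PhD] F + K (avn[chi_R |PhD|](bet F) - pot[chi_R PhD](bet F))`;
* `EX = ⟨v⟩^a (ED + 4 R₂ (2 R₂ + 1) avn[chi_R₂](bet F))`, `ED` the damping potential (H48/PV/EUDef).
-/

set_option autoImplicit false

open MeasureTheory Set Filter Topology Pool.Agent.H25.Kin Pool.Agent.H82.BK Pool.Agent.H82.CM
open Pool.Agent.H48.PL Pool.Agent.H48.PI Pool.Agent.H48.PW Pool.Agent.H48.PV

namespace Pool.Agent.H85.DG

variable {d : ℕ}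

/-- `φ(y) min(1,|y|/r)²`, `φ(y) = y_e |y|^(a-1)` -/
noncomputable def phiD (e : Fin d) (a r : ℝ) (y : Vec d) : ℝ := min 1 (len y / r) ^ 2 * phi e a y

/-- `min(1,⟨w⟩/⟨v⟩)^4 φ(v-w) min(1,|v-w|/r)²` -/
noncomputable def PhD (e : Fin d) (a r : ℝ) (v w : Vec d) : ℝ :=
  min 1 (jb w / jb v) ^ 4 * phiD e a r (v - w)

/-- its absolute value -/
noncomputable def PhA (e : Fin d) (a r : ℝ) (v w : Vec d) : ℝ := |PhD e a r v w|

/-- test functions: bounded by `K ⟨w⟩`, increments `≤ K min(1,|w-w'|) (⟨w⟩+⟨w'⟩)` -/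
structure TF (K : ℝ) (ψ : Vec d → ℝ) : Prop where
  cont : Continuous ψ
  h0 : ∀ w, |ψ w| ≤ K * jb w
  h1 : ∀ w w', |ψ w - ψ w'| ≤ K * (min 1 (len (w - w')) * (jb w + jb w'))

/-- the parameters -/
structure Pd where
  a : ℝ
  K : ℝ
  lam : ℝ
  r : ℝ
  R : ℝ
  C₀ : ℝ
  R₂ : ℝ
  C₂ : ℝ

/-- conditions on the parameters -/
structure Pd.Ok (P : Pd) : Prop where
  ha : -1 ≤ P.a
  ha0 : P.a < 0
  hK : 0 ≤ P.K
  hlam : 0 ≤ P.lam
  hr : 0 < P.r
  hr1 : P.r ≤ 1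
  hR₂ : 1 ≤ P.R₂
  hR : P.R₂ ≤ P.R
  hC₂ : 0 < P.C₂
  hC : P.C₂ ≤ P.C₀

lemma Pd.Ok.hC0 {P : Pd} (hP : P.Ok) : 0 < P.C₀ := hP.hC₂.trans_le hP.hC

lemma Pd.Ok.hR1 {P : Pd} (hP : P.Ok) : 1 ≤ P.R := hP.hR₂.trans hP.hR

/-- the main part -/
noncomputable def ES (P : Pd) (e : Fin d) (F : Vec d → Vec d → ℝ) (x v : Vec d) : ℝ :=
  P.K * pot e 1 (PhD e P.a P.r) F x v +
    P.K * (avn (cutW P.R (PhA e P.a P.r)) (fun y w => bet P.C₀ (F y w)) v -
      pot e 1 (cutW P.R (PhD e P.a P.r)) (fun y w => bet P.C₀ (F y w)) x v)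

/-- its derivative -/
noncomputable def dES (P : Pd) (e : Fin d) (F G : Vec d → Vec d → ℝ) (x v : Vec d) : ℝ :=
  P.K * dpot e 1 (PhD e P.a P.r) F G x v +
    P.K * (avn (cutW P.R (PhA e P.a P.r)) (fun y w => bet' P.C₀ (F y w) * G y w) v -
      dpot e 1 (cutW P.R (PhD e P.a P.r)) (fun y w => bet P.C₀ (F y w))
        (fun y w => bet' P.C₀ (F y w) * G y w) x v)

/-- the coefficient of the compensating term -/
noncomputable def kD (R : ℝ) : ℝ := 4 * R * (2 * R + 1)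

/-- the damping part -/
noncomputable def EX (a R C : ℝ) (e : Fin d) (F : Vec d → Vec d → ℝ) (x v : Vec d) : ℝ :=
  jb v ^ a * (ED R C e F x v + kD R * avn (W0 R) (fun y w => bet C (F y w)) v)

/-- its derivative -/
noncomputable def dEX (a R C : ℝ) (e : Fin d) (F G : Vec d → Vec d → ℝ) (x v : Vec d) : ℝ :=
  jb v ^ a * (dED R C e F G x v + kD R * avn (W0 R) (fun y w => bet' C (F y w) * G y w) v)

/-- the weight function -/
noncomputable def ET (P : Pd) (e : Fin d) (F : Vec d → Vec d → ℝ) (x v : Vec d) : ℝ :=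
  ES P e F x v + P.lam * EX P.a P.R₂ P.C₂ e F x v

/-- its derivative along characteristics -/
noncomputable def dET (P : Pd) (e : Fin d) (F G : Vec d → Vec d → ℝ) (x v : Vec d) : ℝ :=
  dES P e F G x v + P.lam * dEX P.a P.R₂ P.C₂ e F G x v

/-- the average over the torus of the flux of the unbounded part -/
noncomputable def avD (P : Pd) (e : Fin d) (F : Vec d → Vec d → ℝ) (v : Vec d) : ℝ :=
  ∫ p, (v e - p.1 e) * PhD e P.a P.r v p.1 * (F p.2 p.1 - gb P.R P.C₀ F p.2 p.1) ∂(nu d)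

/-- a time slice of a solution for the kernel `M b`, bounded by `A`, total mass `1` -/
structure SL (γ : ℝ) (b : ℝ → ℝ) (M A : ℝ) (p : ℕ) (e : Fin d) (F : Vec d → Vec d → ℝ) : Prop where
  fs : FS e F fun x w => M * boltzQ γ b (F x) w
  fb : ∀ C : ℝ, 0 < C → FS e (fun x w => bet C (F x w))
    fun x w => bet' C (F x w) * (M * boltzQ γ b (F x) w)
  nice : ∀ x, Nice (F x)
  bd : ∀ x v, F x v * (1 + nsq v) ^ p ≤ A
  mass : ∫ q, F q.2 q.1 ∂(nu d) = 1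

/-- the uniform bounds for the scaled solutions `h = f/M` (kernel `M b`) -/
def DilH (d : ℕ) (γ : ℝ) (b : ℝ → ℝ) (e : Fin d) : Prop :=
  ∀ p : ℕ, (d : ℝ) + γ + 4 ≤ 2 * p → ∀ α : ℝ, ∃ Ms : ℝ, 0 < Ms ∧ ∀ p₁ : ℕ, p ≤ p₁ → ∃ K : ℝ, 0 ≤ K ∧
    ∀ M : ℝ, 0 < M → M ≤ Ms → ∀ (T : ℝ) (h : ℝ → Vec d → Vec d → ℝ),
      IsBoltzmannSol γ (fun x => M * b x) T h → Planar e T h → ∫ q, h 0 q.2 q.1 ∂(nu d) = 1 →
      (∀ x v, h 0 x v * (1 + nsq v) ^ p ≤ α) →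
      ∀ A₁ : ℝ, (∀ x v, h 0 x v * (1 + nsq v) ^ p₁ ≤ A₁) →
      ∀ t ∈ Ico 0 T, ∀ x v, h t x v * (1 + nsq v) ^ p₁ ≤ K * (A₁ + 1)

end Pool.Agent.H85.DG
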