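import Pool.Agent.H85.DG.Defs
import Pool.Agent.H25.PN.Defs
import Pool.Agent.H93.CM.Final

/-!
# Module FDef: the uniform estimates for dilute data
-/

set_option autoImplicit false

open MeasureTheory Set Filter Topology Pool.Agent.H25.Kin Pool.Agent.H82.BK Pool.Agent.H82.CM
open Pool.Agent.H48.PL Pool.Agent.H48.PI Pool.Agent.H93.CM Pool.Agent.H25.PN

namespace Pool.Agent.H85.DG

variable {d : ℕ}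

/-- the uniform estimates for dilute data, for the solutions with the symmetry `P`: the initial total mass is `≤ Ms`, and the
initial value is `≤ α (total mass) (1+|v|²)^(-p)` -/
def DilE (d : ℕ) (γ : ℝ) (b : ℝ → ℝ) (P : ℝ → (ℝ → Vec d → Vec d → ℝ) → Prop) : Prop :=
  ∀ p : ℕ, (d : ℝ) + γ + 4 ≤ 2 * p → ∀ α : ℝ, ∃ Ms : ℝ, 0 < Ms ∧
    (∀ F₀ : Vec d → Vec d → ℝ, ∫ x in Icc (0 : Vec d) 1, ∫ v, F₀ x v ≤ Ms →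
      (∀ x v, F₀ x v * (1 + nsq v) ^ p ≤ α * ∫ x in Icc (0 : Vec d) 1, ∫ v, F₀ x v) →
      (∃ (U : ℕ → ℝ) (M₀ : ℝ), ∀ (T : ℝ) (f : ℝ → Vec d → Vec d → ℝ), IsBoltzmannSol γ b T f →
        P T f → f 0 = F₀ → ∀ t ∈ Ico 0 T, ∀ x,
          (∀ (N : ℕ) (v : Vec d), (1 + ‖v‖) ^ N * f t x v ≤ U N) ∧ (∫ v, f t x v ≤ M₀) ∧
          (∫ v, f t x v * nsq v ≤ M₀) ∧ ∫ v, f t x v * Real.log (f t x v) ≤ M₀) ∧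
      ((∀ x, 0 < ∫ v, F₀ x v) → ∃ m₀ > 0, ∃ M₀ : ℝ, ∀ (T : ℝ) (f : ℝ → Vec d → Vec d → ℝ),
        IsBoltzmannSol γ b T f → P T f → f 0 = F₀ →
          ∀ t ∈ Ico 0 T, ∀ x, HydroBounds m₀ M₀ M₀ M₀ (f t x))) ∧
    ∀ p₁ : ℕ, p ≤ p₁ → ∃ K : ℝ, 0 ≤ K ∧ ∀ (T : ℝ) (f : ℝ → Vec d → Vec d → ℝ), IsBoltzmannSol γ b T f →
      P T f → ∫ x in Icc (0 : Vec d) 1, ∫ v, f 0 x v ≤ Ms →
      (∀ x v, f 0 x v * (1 + nsq v) ^ p ≤ α * ∫ x in Icc (0 : Vec d) 1, ∫ v, f 0 x v) →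
      ∀ A₁ : ℝ, (∀ x v, f 0 x v * (1 + nsq v) ^ p₁ ≤ A₁) →
      ∀ t ∈ Ico 0 T, ∀ x v, f t x v * (1 + nsq v) ^ p₁ ≤
        K * (A₁ + ∫ x in Icc (0 : Vec d) 1, ∫ v, f 0 x v)

theorem DilE.mono {γ : ℝ} {b : ℝ → ℝ} {P P' : ℝ → (ℝ → Vec d → Vec d → ℝ) → Prop} (h : DilE d γ b P)
    (hP : ∀ T f, IsBoltzmannSol γ b T f → P' T f → P T f) : DilE d γ b P' := by
  intro p hp α
  obtain ⟨Ms, hMs, h1, h2⟩ := h p hp α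
  refine ⟨Ms, hMs, fun F₀ hm hF => ⟨?_, fun hv => ?_⟩, fun p₁ hp₁ => ?_⟩
  · obtain ⟨U, M₀, hU⟩ := (h1 F₀ hm hF).1
    exact ⟨U, M₀, fun T f hf hp => hU T f hf (hP T f hf hp)⟩
  · obtain ⟨m₀, hm₀, M₀, hU⟩ := (h1 F₀ hm hF).2 hv
    exact ⟨m₀, hm₀, M₀, fun T f hf hp => hU T f hf (hP T f hf hp)⟩
  · obtain ⟨K, hK, hU⟩ := h2 p₁ hp₁
    exact ⟨K, hK, fun T f hf hp => hU T f hf (hP T f hf hp)⟩

end Pool.Agent.H85.DG
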