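import Pool.Agent.H85.DG.Defs

/-!
# Module PhL: the function `phiD`: bounds and Lipschitz estimates

`c(y) = min(1,|y|/r)^2`, `φ(y) = y_e |y|^(a-1)` (`φ(0) = 0`), `phiD = c φ`, `0 < r ≤ 1`.
* `phiD_abs`: `|phiD y| ≤ c(y) |y|^a` for `y ≠ 0`. `|y| < 1`: if `|y| < r` it is `≤ r^(-2) |y|^(a+2) ≤ r^(-2)`, if `r ≤ |y| < 1`: `|y|^a ≤ r^a ≤ r^(-1) ≤ r^(-2)`; `|y| ≥ 1`: `≤ |y|^a`. Since `jb y ≤ 2` for `|y| < 1` (so `jb y ^ a ≥ 1/2`) and
  `jb y ≤ 2 |y|` for `|y| ≥ 1` (so `|y|^a ≤ (jb y/2)^a ≤ 2 jb y ^ a`): `|phiD y| ≤ 2 r^(-2) jb y ^ a`.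
* `phi_lip`: for `0 < |y'| ≤ |y|`: `|φ(y) - φ(y')| ≤ 3 |y-y'| |y'|^(a-1)`: `φ(y) - φ(y') = (y_e - y'_e)|y|^(a-1) + y'_e (|y|^(a-1) - |y'|^(a-1))`, `|y|^(a-1) ≤ |y'|^(a-1)`, and `|y'|^(a-1) - |y|^(a-1) ≤ (1-a) (|y|-|y'|) |y'|^(a-2)` (mean value theorem, or Bernoulli), `1-a ≤ 2`.
* `phiD_lip` (L1): `|phiD y - phiD y'| ≤ 5 r^(-2) |y-y'|`. Let `|y'| ≤ |y|`, `y' ≠ 0` (otherwise `|phiD y| ≤ r^(-2)|y|^(a+2) ≤ r^(-2) |y|` if `|y| < r`, `≤ |y|^a ≤ |y| |y|^(a-1) ≤ r^(-2) |y|` if `|y| ≥ r`). `phiD y - phiD y' = c(y') (φ(y) - φ(y')) + (c(y) - c(y')) φ(y)`;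
  `c(y') |y'|^(a-1) ≤ r^(-2)` (`|y'| < r`: `r^(-2) |y'|^(a+1)`; `|y'| ≥ r`: `r^(a-1)`); `(c(y)-c(y')) |y|^a ≤ 2 r^(-2) |y-y'|` (`|y| < r`: `r^(-2) (|y|+|y'|)(|y|-|y'|) |y|^a ≤ 2 r^(-2) |y|^(a+1) |y-y'|`; `|y'| < r ≤ |y|`: `1-(|y'|/r)^2 ≤ 2 (1-|y'|/r) ≤ 2 |y-y'|/r`, `|y|^a ≤ r^a ≤ r^(-1)`; `|y'| ≥ r`: `0`).
* `phiD_far` (L2): `1 ≤ |y|, |y'|`: `phiD = φ` there (`r ≤ 1`): `|phiD y - phiD y'| ≤ 3 |y-y'| min(|y|,|y'|)^(a-1)`, stated with `m ≤ |y|`, `m ≤ |y'|`, `1 ≤ m`: `≤ 3 |y-y'| m^(-1)` (`m^(a-1) ≤ m^(-1)` as `a ≤ 0`, `m ≥ 1`).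
Tools: `len_le_add_sub`, `abs_coord_le` (H48/PL/JB), `phi_abs`, `mul_phi_nonneg` (H48/PW, check the sign of `a`).
-/

set_option autoImplicit false

open MeasureTheory Set Filter Topology Pool.Agent.H25.Kin Pool.Agent.H82.BK Pool.Agent.H82.CM
open Pool.Agent.H48.PL Pool.Agent.H48.PI Pool.Agent.H48.PW Pool.Agent.H48.PV

namespace Pool.Agent.H85.DG

private lemma phL_c0 (r L : ℝ) : 0 ≤ min 1 (L / r) ^ 2 := sq_nonneg _

private lemma phL_rinv {r : ℝ} (hr : 0 < r) (hr1 : r ≤ 1) : r⁻¹ ≤ (r ^ 2)⁻¹ := by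
  apply inv_anti₀ (by positivity)
  nlinarith

private lemma phL_ra {a r L : ℝ} (ha : -1 ≤ a) (ha0 : a < 0) (hr : 0 < r) (hr1 : r ≤ 1) (h : r ≤ L) :
    L ^ a ≤ r⁻¹ := by
  calc L ^ a ≤ r ^ a := Real.rpow_le_rpow_of_nonpos hr h ha0.le
    _ ≤ r ^ (-1 : ℝ) := Real.rpow_le_rpow_of_exponent_ge hr hr1 ha
    _ = r⁻¹ := by rw [Real.rpow_neg_one]

private lemma phL_ra1 {a r L : ℝ} (ha : -1 ≤ a) (ha0 : a < 0) (hr : 0 < r) (hr1 : r ≤ 1) (h : r ≤ L) :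
    L ^ (a - 1) ≤ (r ^ 2)⁻¹ := by
  calc L ^ (a - 1) ≤ r ^ (a - 1) := Real.rpow_le_rpow_of_nonpos hr h (by linarith)
    _ ≤ r ^ (-2 : ℝ) := Real.rpow_le_rpow_of_exponent_ge hr hr1 (by linarith)
    _ = (r ^ 2)⁻¹ := by
      rw [Real.rpow_neg hr.le]
      norm_num

private lemma phL_cl {r L : ℝ} (hr : 0 < r) (h : L ≤ r) : min 1 (L / r) ^ 2 = L ^ 2 / r ^ 2 := by
  rw [min_eq_right ((div_le_one hr).2 h), div_pow]

private lemma phL_cr {r L : ℝ} (hr : 0 < r) (h : r ≤ L) : min 1 (L / r) ^ 2 = 1 := by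
  rw [min_eq_left ((one_le_div hr).2 h), one_pow]

private lemma phL_sq {L : ℝ} (a : ℝ) (hL : 0 < L) : L ^ 2 * L ^ a = L ^ (a + 2) := by
  rw [Real.rpow_add hL]
  norm_num
  ring

private lemma phL_sq1 {L : ℝ} (a : ℝ) (hL : 0 < L) : L ^ 2 * L ^ (a - 1) = L ^ (a + 1) := by
  rw [phL_sq (a - 1) hL]
  congr 1
  ring

/-- `c(L) L^a ≤ r^(-2) min(1, L)` for `L ≤ 1` or in general `≤ r^(-2) L` -/
private lemma phL_cLa {a r L : ℝ} (ha : -1 ≤ a) (ha0 : a < 0) (hr : 0 < r) (hr1 : r ≤ 1) (hL : 0 < L) :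
    min 1 (L / r) ^ 2 * L ^ a ≤ (r ^ 2)⁻¹ * L := by
  rcases le_total L r with h | h
  · rw [phL_cl hr h, div_mul_eq_mul_div, phL_sq a hL, div_eq_inv_mul]
    refine mul_le_mul_of_nonneg_left ?_ (by positivity)
    calc L ^ (a + 2) ≤ L ^ (1 : ℝ) := Real.rpow_le_rpow_of_exponent_ge hL (h.trans hr1) (by linarith)
      _ = L := Real.rpow_one L
  · rw [phL_cr hr h, one_mul]
    have h1 : L ^ a = L ^ (a - 1) * L := by
      conv_lhs => rw [show a = (a - 1) + 1 by ring]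
      rw [Real.rpow_add hL, Real.rpow_one]
    rw [h1]
    exact mul_le_mul_of_nonneg_right (phL_ra1 ha ha0 hr hr1 h) hL.le

private lemma phL_cLa1 {a r L : ℝ} (ha : -1 ≤ a) (ha0 : a < 0) (hr : 0 < r) (hr1 : r ≤ 1) (hL : 0 < L) :
    min 1 (L / r) ^ 2 * L ^ (a - 1) ≤ (r ^ 2)⁻¹ := by
  rcases le_total L r with h | h
  · rw [phL_cl hr h, div_mul_eq_mul_div, phL_sq1 a hL, div_eq_inv_mul]
    have h1 : L ^ (a + 1) ≤ 1 := Real.rpow_le_one hL.le (h.trans hr1) (by linarith)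
    have h2 : 0 < (r ^ 2)⁻¹ := by positivity
    nlinarith
  · rw [phL_cr hr h, one_mul]
    exact phL_ra1 ha ha0 hr hr1 h

private lemma phL_c_le {r L : ℝ} (hr : 0 < r) (hL : 0 ≤ L) : min 1 (L / r) ^ 2 ≤ 1 := by
  have h1 : 0 ≤ min 1 (L / r) := by positivity
  have h2 : min 1 (L / r) ≤ 1 := min_le_left _ _
  nlinarith

private lemma phL_cm {r L L' : ℝ} (hr : 0 < r) (hL : 0 ≤ L') (h : L' ≤ L) :
    min 1 (L' / r) ^ 2 ≤ min 1 (L / r) ^ 2 := by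
  have h1 : 0 ≤ min 1 (L' / r) := by positivity
  have h2 : min 1 (L' / r) ≤ min 1 (L / r) := min_le_min_left _ (by gcongr)
  gcongr

private lemma phL_cd {a r L L' : ℝ} (ha : -1 ≤ a) (ha0 : a < 0) (hr : 0 < r) (hr1 : r ≤ 1) (hL : 0 < L') (h : L' ≤ L) :
    (min 1 (L / r) ^ 2 - min 1 (L' / r) ^ 2) * L ^ a ≤ 2 * (r ^ 2)⁻¹ * (L - L') := by
  have hL0 : 0 < L := hL.trans_le h
  have hi : 0 < (r ^ 2)⁻¹ := by positivity
  rcases le_total L r with h1 | h1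
  · rw [phL_cl hr h1, phL_cl hr (h.trans h1)]
    have h2 : L * L ^ a ≤ 1 := by
      have h3 : L * L ^ a = L ^ (1 + a) := by rw [Real.rpow_add hL0, Real.rpow_one]
      rw [h3]
      exact Real.rpow_le_one hL0.le (h1.trans hr1) (by linarith)
    have h3 : (L ^ 2 / r ^ 2 - L' ^ 2 / r ^ 2) * L ^ a = (r ^ 2)⁻¹ * ((L - L') * ((L + L') * L ^ a)) := by
      field_simp
      ring
    rw [h3]
    have h4 : 0 ≤ L ^ a := Real.rpow_nonneg hL0.le _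
    have h5 : (L + L') * L ^ a ≤ 2 := by nlinarith
    have h6 : (L - L') * ((L + L') * L ^ a) ≤ (L - L') * 2 := mul_le_mul_of_nonneg_left h5 (by linarith)
    nlinarith
  · rw [phL_cr hr h1]
    have h2 : L ^ a ≤ r⁻¹ := phL_ra ha ha0 hr hr1 h1
    have h4 : 0 ≤ L ^ a := Real.rpow_nonneg hL0.le _
    rcases le_total L' r with h3 | h3
    · rw [phL_cl hr h3]
      have h5 : 1 - L' ^ 2 / r ^ 2 ≤ 2 * r⁻¹ * (L - L') := by
        have h6 : 1 - L' ^ 2 / r ^ 2 = (1 - L' / r) * (1 + L' / r) := by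
          field_simp
          ring
        have h7 : L' / r ≤ 1 := (div_le_one hr).2 h3
        have h8 : 0 ≤ L' / r := by positivity
        have h9 : 1 - L' / r = r⁻¹ * (r - L') := by
          field_simp
        have h10 : r⁻¹ * (r - L') ≤ r⁻¹ * (L - L') := mul_le_mul_of_nonneg_left (by linarith) (by positivity)
        rw [h6]
        nlinarith
      have h6 : 0 ≤ 1 - L' ^ 2 / r ^ 2 := by
        have : L' ^ 2 / r ^ 2 ≤ 1 := by
          rw [div_le_one (by positivity)]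
          gcongr
        linarith
      calc (1 - L' ^ 2 / r ^ 2) * L ^ a ≤ (2 * r⁻¹ * (L - L')) * r⁻¹ :=
            mul_le_mul h5 h2 h4 (h6.trans h5)
        _ = 2 * (r ^ 2)⁻¹ * (L - L') := by
          field_simp
    · rw [phL_cr hr h3, sub_self, zero_mul]
      have : 0 ≤ L - L' := by linarith
      positivity

private lemma phL_pow {a L L' : ℝ} (ha : -1 ≤ a) (ha0 : a < 0) (hL : 0 < L') (h : L' ≤ L) :
    L ^ (a - 1) ≤ L' ^ (a - 1) ∧ L' * (L' ^ (a - 1) - L ^ (a - 1)) ≤ 2 * (L - L') * L' ^ (a - 1) := by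
  have hL0 : 0 < L := hL.trans_le h
  refine ⟨Real.rpow_le_rpow_of_nonpos hL h (by linarith), ?_⟩
  have ht0 : 0 < L' / L := by positivity
  have ht1 : L' / L ≤ 1 := (div_le_one hL0).2 h
  have h1 : L ^ (a - 1) = L' ^ (a - 1) * (L' / L) ^ (1 - a) := by
    rw [Real.div_rpow hL.le hL0.le, show (1 - a) = -(a - 1) by ring, Real.rpow_neg hL.le, Real.rpow_neg hL0.le]
    have h2 : L' ^ (a - 1) ≠ 0 := (Real.rpow_pos_of_pos hL _).ne'
    field_simp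
  have h3 : (L' / L) ^ 2 ≤ (L' / L) ^ (1 - a) := by
    calc (L' / L) ^ 2 = (L' / L) ^ (2 : ℝ) := by norm_num
      _ ≤ (L' / L) ^ (1 - a) := Real.rpow_le_rpow_of_exponent_ge ht0 ht1 (by linarith)
  have h4 : 1 - 2 * (1 - L' / L) ≤ (L' / L) ^ (1 - a) := by nlinarith [sq_nonneg (1 - L' / L)]
  have h5 : 0 < L' ^ (a - 1) := Real.rpow_pos_of_pos hL _
  rw [h1]
  have h6 : L' * (L' ^ (a - 1) - L' ^ (a - 1) * (L' / L) ^ (1 - a)) ≤ L' ^ (a - 1) * (L' * (2 * (1 - L' / L))) := by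
    have : L' * (L' ^ (a - 1) - L' ^ (a - 1) * (L' / L) ^ (1 - a)) = L' ^ (a - 1) * (L' * (1 - (L' / L) ^ (1 - a))) := by ring
    rw [this]
    refine mul_le_mul_of_nonneg_left ?_ h5.le
    refine mul_le_mul_of_nonneg_left ?_ hL.le
    linarith
  refine h6.trans ?_
  have h7 : L' * (2 * (1 - L' / L)) ≤ 2 * (L - L') := by
    have h8 : 1 - L' / L = (L - L') / L := by field_simp
    rw [h8]
    have h9 : L' * (2 * ((L - L') / L)) = 2 * (L - L') * (L' / L) := by ring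
    rw [h9]
    nlinarith
  calc L' ^ (a - 1) * (L' * (2 * (1 - L' / L))) ≤ L' ^ (a - 1) * (2 * (L - L')) := mul_le_mul_of_nonneg_left h7 h5.le
    _ = 2 * (L - L') * L' ^ (a - 1) := by ring

/-- difference of `u L^(a-1)` -/
private lemma phL_diff {a L L' u u' D : ℝ} (ha : -1 ≤ a) (ha0 : a < 0) (hL : 0 < L') (h : L' ≤ L)
    (hu' : |u'| ≤ L') (hd : |u - u'| ≤ D) (hD : L - L' ≤ D) :
    |u * L ^ (a - 1) - u' * L' ^ (a - 1)| ≤ 3 * D * L' ^ (a - 1) := by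
  obtain ⟨h1, h2⟩ := phL_pow ha ha0 hL h
  have hL0 : 0 < L := hL.trans_le h
  have h3 : 0 < L ^ (a - 1) := Real.rpow_pos_of_pos hL0 _
  have h4 : 0 < L' ^ (a - 1) := Real.rpow_pos_of_pos hL _
  have h5 : u * L ^ (a - 1) - u' * L' ^ (a - 1) = (u - u') * L ^ (a - 1) + -(u' * (L' ^ (a - 1) - L ^ (a - 1))) := by ring
  rw [h5]
  refine (abs_add_le _ _).trans ?_
  rw [abs_neg, abs_mul, abs_mul, abs_of_pos h3, abs_of_nonneg (sub_nonneg.2 h1)]
  have hD0 : 0 ≤ D := (abs_nonneg _).trans hd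
  have h6 : |u - u'| * L ^ (a - 1) ≤ D * L' ^ (a - 1) := mul_le_mul hd h1 h3.le hD0
  have h7 : |u'| * (L' ^ (a - 1) - L ^ (a - 1)) ≤ L' * (L' ^ (a - 1) - L ^ (a - 1)) :=
    mul_le_mul_of_nonneg_right hu' (sub_nonneg.2 h1)
  have h8 : 2 * (L - L') * L' ^ (a - 1) ≤ 2 * D * L' ^ (a - 1) := by
    refine mul_le_mul_of_nonneg_right ?_ h4.le
    linarith
  linarith

private lemma phL_a {a L u : ℝ} (hL : 0 < L) (hu : |u| ≤ L) : |u * L ^ (a - 1)| ≤ L ^ a := by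
  have h3 : 0 < L ^ (a - 1) := Real.rpow_pos_of_pos hL _
  rw [abs_mul, abs_of_pos h3]
  calc |u| * L ^ (a - 1) ≤ L * L ^ (a - 1) := mul_le_mul_of_nonneg_right hu h3.le
    _ = L ^ a := by
      conv_rhs => rw [show a = (a - 1) + 1 by ring]
      rw [Real.rpow_add hL, Real.rpow_one]
      ring

/-- Lipschitz estimate, real form -/
private lemma phL_main {a r L L' u u' D : ℝ} (ha : -1 ≤ a) (ha0 : a < 0) (hr : 0 < r) (hr1 : r ≤ 1)
    (hL : 0 ≤ L') (h : L' ≤ L) (hu : |u| ≤ L) (hu' : |u'| ≤ L') (hd : |u - u'| ≤ D) (hD : L - L' ≤ D) :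
    |min 1 (L / r) ^ 2 * (u * L ^ (a - 1)) - min 1 (L' / r) ^ 2 * (u' * L' ^ (a - 1))| ≤ 5 * (r ^ 2)⁻¹ * D := by
  have hi : 0 < (r ^ 2)⁻¹ := by positivity
  have hD0 : 0 ≤ D := (abs_nonneg _).trans hd
  rcases hL.eq_or_lt with h0 | h0
  · have h1 : u' = 0 := by
      rw [← h0] at hu'
      exact abs_eq_zero.1 (le_antisymm hu' (abs_nonneg _))
    rw [h1, zero_mul, mul_zero, sub_zero]
    rcases (hL.trans h).eq_or_lt with h2 | h2
    · have h3 : u = 0 := by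
        rw [← h2] at hu
        exact abs_eq_zero.1 (le_antisymm hu (abs_nonneg _))
      rw [h3, zero_mul, mul_zero, abs_zero]
      positivity
    · rw [abs_mul, abs_of_nonneg (phL_c0 r L)]
      have h3 := phL_a (a := a) h2 hu
      have h4 := phL_cLa ha ha0 hr hr1 h2
      have h5 := mul_le_mul_of_nonneg_left h3 (phL_c0 r L)
      have h6 : (r ^ 2)⁻¹ * L ≤ (r ^ 2)⁻¹ * D := mul_le_mul_of_nonneg_left (by linarith) hi.le
      nlinarith
  · have hL0 : 0 < L := h0.trans_le h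
    have h1 : min 1 (L / r) ^ 2 * (u * L ^ (a - 1)) - min 1 (L' / r) ^ 2 * (u' * L' ^ (a - 1)) =
        min 1 (L' / r) ^ 2 * (u * L ^ (a - 1) - u' * L' ^ (a - 1)) +
          (min 1 (L / r) ^ 2 - min 1 (L' / r) ^ 2) * (u * L ^ (a - 1)) := by ring
    rw [h1]
    refine (abs_add_le _ _).trans ?_
    rw [abs_mul, abs_mul, abs_of_nonneg (phL_c0 r L'), abs_of_nonneg (sub_nonneg.2 (phL_cm hr hL h))]
    have h2 := mul_le_mul_of_nonneg_left (phL_diff ha ha0 h0 h hu' hd hD) (phL_c0 r L')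
    have h3 := phL_cLa1 ha ha0 hr hr1 h0
    have h4 : 3 * D * (min 1 (L' / r) ^ 2 * L' ^ (a - 1)) ≤ 3 * D * (r ^ 2)⁻¹ := mul_le_mul_of_nonneg_left h3 (by positivity)
    have h5 := mul_le_mul_of_nonneg_left (phL_a (a := a) hL0 hu) (sub_nonneg.2 (phL_cm (r := r) hr hL h))
    have h6 := phL_cd ha ha0 hr hr1 h0 h
    have h7 : 2 * (r ^ 2)⁻¹ * (L - L') ≤ 2 * (r ^ 2)⁻¹ * D := mul_le_mul_of_nonneg_left hD (by positivity)
    nlinarith

variable {d : ℕ} {a r : ℝ}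

private lemma phL_lenD {y y' : Vec d} : len y - len y' ≤ len (y - y') := by
  linarith [len_le_add_sub y y']

lemma phiD_abs (ha : -1 ≤ a) (ha0 : a < 0) (hr : 0 < r) (hr1 : r ≤ 1) (e : Fin d) (y : Vec d) :
    |phiD e a r y| ≤ 2 * (r ^ 2)⁻¹ * jb y ^ a := by
  have hj := jb_pos y
  have hja : 0 < jb y ^ a := Real.rpow_pos_of_pos hj _
  have hi : 0 < (r ^ 2)⁻¹ := by positivity
  have hi1 : 1 ≤ (r ^ 2)⁻¹ := (one_le_inv₀ (by positivity)).2 (by nlinarith)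
  unfold phiD phi
  rcases (len_nonneg y).eq_or_lt with h0 | h0
  · have h1 : y e = 0 := by
      have h2 := abs_coord_le y e
      rw [← h0] at h2
      exact abs_eq_zero.1 (le_antisymm h2 (abs_nonneg _))
    rw [h1, zero_mul, mul_zero, abs_zero]
    positivity
  · rw [abs_mul, abs_of_nonneg (phL_c0 r (len y))]
    have h1 := mul_le_mul_of_nonneg_left (phL_a (a := a) h0 (abs_coord_le y e)) (phL_c0 r (len y))
    refine h1.trans ?_
    have h2 := phL_cLa ha ha0 hr hr1 h0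
    rcases le_total (len y) 1 with h3 | h3
    · have h4 : (1 / 2 : ℝ) ≤ jb y ^ a := by
        have h5 : jb y ≤ 2 := by
          have h6 := jb_sq y
          have h7 := len_sq y
          nlinarith
        calc (1 / 2 : ℝ) = 2 ^ (-1 : ℝ) := by rw [Real.rpow_neg_one]; norm_num
          _ ≤ 2 ^ a := Real.rpow_le_rpow_of_exponent_le (by norm_num) ha
          _ ≤ jb y ^ a := Real.rpow_le_rpow_of_nonpos hj h5 ha0.le
      nlinarith
    · have h4 : len y ^ a ≤ 2 * jb y ^ a := by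
        have h5 : jb y ≤ 2 * len y := by
          have h6 := jb_sq y
          have h7 := len_sq y
          nlinarith
        have h6 : (1 / 2 : ℝ) ^ a ≤ 2 := by
          calc (1 / 2 : ℝ) ^ a ≤ (1 / 2 : ℝ) ^ (-1 : ℝ) :=
                Real.rpow_le_rpow_of_exponent_ge (by norm_num) (by norm_num) ha
            _ = 2 := by rw [Real.rpow_neg_one]; norm_num
        calc len y ^ a ≤ (1 / 2 * jb y) ^ a :=
              Real.rpow_le_rpow_of_nonpos (by positivity) (by linarith) ha0.le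
          _ = (1 / 2 : ℝ) ^ a * jb y ^ a := Real.mul_rpow (by norm_num) hj.le
          _ ≤ 2 * jb y ^ a := mul_le_mul_of_nonneg_right h6 hja.le
      have h5 : min 1 (len y / r) ^ 2 * len y ^ a ≤ 1 * len y ^ a :=
        mul_le_mul_of_nonneg_right (phL_c_le hr h0.le) (Real.rpow_nonneg h0.le _)
      nlinarith

lemma phiD_lip (ha : -1 ≤ a) (ha0 : a < 0) (hr : 0 < r) (hr1 : r ≤ 1) (e : Fin d) (y y' : Vec d) :
    |phiD e a r y - phiD e a r y'| ≤ 5 * (r ^ 2)⁻¹ * len (y - y') := by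
  have hc : |y e - y' e| ≤ len (y - y') := abs_coord_le (y - y') e
  unfold phiD phi
  rcases le_total (len y') (len y) with h | h
  · exact phL_main ha ha0 hr hr1 (len_nonneg y') h (abs_coord_le y e) (abs_coord_le y' e) hc phL_lenD
  · rw [abs_sub_comm, len_comm y y']
    rw [abs_sub_comm, len_comm y y'] at hc
    exact phL_main ha ha0 hr hr1 (len_nonneg y) h (abs_coord_le y' e) (abs_coord_le y e) hc phL_lenD

private lemma phL_farAux (ha : -1 ≤ a) (ha0 : a < 0) {m L : ℝ} (hm : 1 ≤ m) (h : m ≤ L) : L ^ (a - 1) ≤ m⁻¹ := by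
  have hm0 : 0 < m := by linarith
  calc L ^ (a - 1) ≤ m ^ (a - 1) := Real.rpow_le_rpow_of_nonpos hm0 h (by linarith)
    _ ≤ m ^ (-1 : ℝ) := Real.rpow_le_rpow_of_exponent_le hm (by linarith)
    _ = m⁻¹ := Real.rpow_neg_one m

lemma phiD_far (ha : -1 ≤ a) (ha0 : a < 0) (hr : 0 < r) (hr1 : r ≤ 1) (e : Fin d) {m : ℝ} (hm : 1 ≤ m)
    {y y' : Vec d} (h : m ≤ len y) (h' : m ≤ len y') :
    |phiD e a r y - phiD e a r y'| ≤ 3 * len (y - y') / m := by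
  have hm0 : 0 < m := by linarith
  have hc : |y e - y' e| ≤ len (y - y') := abs_coord_le (y - y') e
  have hD := len_nonneg (y - y')
  unfold phiD phi
  rw [phL_cr hr (hr1.trans (hm.trans h)), phL_cr hr (hr1.trans (hm.trans h')), one_mul, one_mul, div_eq_mul_inv]
  rcases le_total (len y') (len y) with h1 | h1
  · refine (phL_diff ha ha0 (hm0.trans_le h') h1 (abs_coord_le y' e) hc phL_lenD).trans ?_
    exact mul_le_mul_of_nonneg_left (phL_farAux ha ha0 hm h') (by positivity)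
  · rw [abs_sub_comm]
    rw [abs_sub_comm] at hc
    refine (phL_diff ha ha0 (hm0.trans_le h) h1 (abs_coord_le y e) hc ?_).trans ?_
    · rw [len_comm y y']
      exact phL_lenD
    · exact mul_le_mul_of_nonneg_left (phL_farAux ha ha0 hm h) (by positivity)

end Pool.Agent.H85.DG
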