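import Pool.Agent.H85.DG.PhL
import Pool.Agent.H85.DG.PhP

/-!
# Module PhT: the test functions

* `TF.abs`, `TF.add`, `TF.smul`, `TF.chi`: elementary. `TF.chi`: `|χψ - χ'ψ'| ≤ χ|ψ-ψ'| + |χ-χ'||ψ'|`, `|χ-χ'| ≤ min 1 (len (w-w'))` (`chi_nonneg`, `chi_le_one`, `chi_holder` with exponent `1`).
* `jb_peetre`: `jb (v-w) ^ a ≤ 2 jb v ^ a jb w`: `jb v ≤ jb w + len (v-w) ≤ 2 jb w jb (v-w)`, so `jb (v-w) ≥ jb v/(2 jb w)`, `a < 0`, `-a ≤ 1`.
* `PhD_TF`: bound: `phiD_abs`, `jb_peetre`, `min(1,·)^4 ≤ 1`. Increments: `len (w-w') ≥ 1`: from the bound. `len (w-w') < 1`: `|Om phi - Om' phi'| ≤ Om |phi - phi'| + |Om - Om'| |phi'|`, `|Om - Om'| ≤ 4 |jb w - jb w'|/jb v ≤ 4 len (w-w')`;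
  `|phi - phi'| ≤ K len (w-w') jb v ^ a (jb w + jb w')`, `y = v-w`, `y' = v-w'`: if `len y < 3`: `phiD_lip`, and `jb v ≤ 4 jb w` so `1 ≤ 4 jb v ^ a jb w` (`jb v ^ a ≥ jb v ^ (-1)`); if `len y ≥ 3`: `m = len y - 1 ≥ 2`, `len y' ≥ m`, `phiD_far`: `3 len (w-w')/m`, and
  `1/m ≤ 2/len y ≤ 2 jb w/jb v` (`jb v ≤ jb w + len y ≤ jb w len y` for `len y ≥ 2`), `jb v ^ (-1) ≤ jb v ^ a`.
* `PhC_TF`: `TF.chi`, `TF.add`, `TF.abs`, `TF.smul`; nonnegative since `|k| ≤ 1`.
* `W_TF`: `chi R w ≠ 0` implies `jb w < 2R` (`chi_eq_zero`), `|w e| ≤ len w ≤ jb w`; `W0 R v w = chi R w`, `W1 e R v w = chi R w * w e` (definitionally).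
-/

set_option autoImplicit false

open MeasureTheory Set Filter Topology Pool.Agent.H25.Kin Pool.Agent.H82.BK Pool.Agent.H82.CM
open Pool.Agent.H48.PL Pool.Agent.H48.PI Pool.Agent.H48.PW Pool.Agent.H48.PV

namespace Pool.Agent.H85.DG

variable {d : ℕ} {a r : ℝ} {K K' : ℝ} {ψ ψ' : Vec d → ℝ}

lemma TF.abs (h : TF K ψ) : TF K fun w => |ψ w| := by
  refine ⟨h.cont.abs, fun w => ?_, fun w w' => (abs_abs_sub_abs_le _ _).trans (h.h1 w w')⟩
  rw [abs_abs]
  exact h.h0 w

lemma TF.add (h : TF K ψ) (h' : TF K' ψ') : TF (K + K') fun w => ψ w + ψ' w := by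
  refine ⟨h.cont.add h'.cont, fun w => ?_, fun w w' => ?_⟩
  · have h1 := h.h0 w
    have h2 := h'.h0 w
    have h3 := abs_add_le (ψ w) (ψ' w)
    linarith
  · have h1 := h.h1 w w'
    have h2 := h'.h1 w w'
    have h3 := abs_add_le (ψ w - ψ w') (ψ' w - ψ' w')
    have h4 : ψ w - ψ w' + (ψ' w - ψ' w') = ψ w + ψ' w - (ψ w' + ψ' w') := by ring
    rw [h4] at h3
    linarith

lemma TF.smul (h : TF K ψ) {k : ℝ} (hk : |k| ≤ 1) : TF K fun w => k * ψ w := by
  refine ⟨h.cont.const_mul k, fun w => ?_, fun w w' => ?_⟩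
  · rw [abs_mul]
    exact (mul_le_of_le_one_left (abs_nonneg _) hk).trans (h.h0 w)
  · rw [← mul_sub, abs_mul]
    exact (mul_le_of_le_one_left (abs_nonneg _) hk).trans (h.h1 w w')

private lemma pht_K (h : TF K ψ) : 0 ≤ K := by
  have h1 := (abs_nonneg _).trans (h.h0 0)
  exact nonneg_of_mul_nonneg_left h1 (jb_pos 0)

private lemma pht_scale (h : TF K ψ) {c : ℝ} (hc : 0 ≤ c) : TF (c * K) fun w => c * ψ w := by
  refine ⟨h.cont.const_mul c, fun w => ?_, fun w w' => ?_⟩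
  · rw [abs_mul, abs_of_nonneg hc, mul_assoc]
    exact mul_le_mul_of_nonneg_left (h.h0 w) hc
  · rw [← mul_sub, abs_mul, abs_of_nonneg hc, mul_assoc]
    exact mul_le_mul_of_nonneg_left (h.h1 w w') hc

private lemma pht_mono (h : TF K ψ) (hK : K ≤ K') : TF K' ψ := by
  refine ⟨h.cont, fun w => (h.h0 w).trans (mul_le_mul_of_nonneg_right hK (jb_pos w).le), fun w w' => (h.h1 w w').trans (mul_le_mul_of_nonneg_right hK ?_)⟩
  exact mul_nonneg (le_min zero_le_one (len_nonneg _)) (add_pos (jb_pos w) (jb_pos w')).le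

private lemma pht_chi {R : ℝ} (hR : 1 ≤ R) (w w' : Vec d) : |chi R w - chi R w'| ≤ min 1 (len (w - w')) := by
  refine le_min ?_ ?_
  · have a1 := chi_nonneg R w
    have a2 := chi_nonneg R w'
    have a3 := chi_le_one R w
    have a4 := chi_le_one R w'
    rw [abs_le]
    constructor <;> linarith
  · have h := chi_holder hR one_pos le_rfl w w'
    rwa [Real.rpow_one] at h

private lemma pht_TFchi (h : TF K ψ) {R : ℝ} (hR : 1 ≤ R) : TF (2 * K) fun w => chi R w * ψ w := by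
  have hK := pht_K h
  refine ⟨(chi_cont R).mul h.cont, fun w => ?_, fun w w' => ?_⟩
  · have h1 := h.h0 w
    have h2 := mul_nonneg hK (jb_pos w).le
    rw [abs_mul, abs_of_nonneg (chi_nonneg R w)]
    have h3 := mul_le_of_le_one_left (abs_nonneg (ψ w)) (chi_le_one R w)
    linarith
  · have h1 := h.h1 w w'
    have h2 := h.h0 w'
    have h3 := pht_chi hR w w'
    have hm : 0 ≤ min 1 (len (w - w')) := le_min zero_le_one (len_nonneg _)
    have e : chi R w * ψ w - chi R w' * ψ w' = chi R w * (ψ w - ψ w') + (chi R w - chi R w') * ψ w' := by ring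
    have h4 : |chi R w * (ψ w - ψ w')| ≤ K * (min 1 (len (w - w')) * (jb w + jb w')) := by
      rw [abs_mul, abs_of_nonneg (chi_nonneg R w)]
      exact (mul_le_of_le_one_left (abs_nonneg _) (chi_le_one R w)).trans h1
    have h5 : |(chi R w - chi R w') * ψ w'| ≤ min 1 (len (w - w')) * (K * jb w') := by
      rw [abs_mul]
      exact mul_le_mul h3 h2 (abs_nonneg _) hm
    have h6 : min 1 (len (w - w')) * (K * jb w') ≤ K * (min 1 (len (w - w')) * (jb w + jb w')) := by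
      have h7 : 0 ≤ K * (min 1 (len (w - w')) * jb w) := mul_nonneg hK (mul_nonneg hm (jb_pos w).le)
      nlinarith [h7]
    rw [e]
    have h8 := abs_add_le (chi R w * (ψ w - ψ w')) ((chi R w - chi R w') * ψ w')
    linarith

lemma TF.chi (h : TF K ψ) {R : ℝ} (hR : 1 ≤ R) : TF (2 * K) fun w => chi R w * ψ w := by
  exact pht_TFchi h hR

lemma jb_peetre (ha : -1 ≤ a) (ha0 : a < 0) (v w : Vec d) : jb (v - w) ^ a ≤ 2 * (jb v ^ a * jb w) := by
  have hv := jb_pos v
  have hw := one_le_jb w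
  have hvw := one_le_jb (v - w)
  have h1 : jb v ≤ 2 * jb w * jb (v - w) := by
    have h2 := (abs_le.1 (jb_lip v w)).2
    have h3 := len_le_jb (v - w)
    nlinarith
  have h4 : (2 * jb w * jb (v - w)) ^ a ≤ jb v ^ a := Real.rpow_le_rpow_of_nonpos hv h1 ha0.le
  rw [Real.mul_rpow (by linarith) (by linarith)] at h4
  have h5 : 0 < (2 * jb w) := by linarith
  have h6 : (2 * jb w) ^ (-a) ≤ 2 * jb w := by
    have h7 : (2 * jb w) ^ (-a) ≤ (2 * jb w) ^ (1 : ℝ) := Real.rpow_le_rpow_of_exponent_le (by linarith) (by linarith)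
    rwa [Real.rpow_one] at h7
  have h8 : (2 * jb w) ^ (-a) * (2 * jb w) ^ a = 1 := by
    rw [← Real.rpow_add h5, neg_add_cancel, Real.rpow_zero]
  have hva : 0 < jb v ^ a := Real.rpow_pos_of_pos hv a
  have h9 : 0 < (2 * jb w) ^ (-a) := Real.rpow_pos_of_pos h5 _
  calc jb (v - w) ^ a = (2 * jb w) ^ (-a) * ((2 * jb w) ^ a * jb (v - w) ^ a) := by
        rw [← mul_assoc, h8, one_mul]
    _ ≤ (2 * jb w) ^ (-a) * jb v ^ a := mul_le_mul_of_nonneg_left h4 h9.le
    _ ≤ (2 * jb w) * jb v ^ a := mul_le_mul_of_nonneg_right h6 hva.le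
    _ = 2 * (jb v ^ a * jb w) := by ring

private lemma pht_pow4 {x y : ℝ} (hx : 0 ≤ x) (hx1 : x ≤ 1) (hy : 0 ≤ y) (hy1 : y ≤ 1) : |x ^ 4 - y ^ 4| ≤ 4 * |x - y| := by
  have e : x ^ 4 - y ^ 4 = (x ^ 3 + x ^ 2 * y + x * y ^ 2 + y ^ 3) * (x - y) := by ring
  have h0 : 0 ≤ x ^ 3 + x ^ 2 * y + x * y ^ 2 + y ^ 3 := by positivity
  have h1 : x ^ 3 ≤ 1 := pow_le_one₀ hx hx1
  have h2 : x ^ 2 * y ≤ 1 := mul_le_one₀ (pow_le_one₀ hx hx1) hy hy1
  have h3 : x * y ^ 2 ≤ 1 := mul_le_one₀ hx1 (by positivity) (pow_le_one₀ hy hy1)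
  have h4 : y ^ 3 ≤ 1 := pow_le_one₀ hy hy1
  rw [e, abs_mul, abs_of_nonneg h0]
  exact mul_le_mul_of_nonneg_right (by linarith) (abs_nonneg _)

private lemma pht_min (x y : ℝ) : |min 1 x - min 1 y| ≤ |x - y| := by
  rw [abs_le]
  have h := abs_nonneg (x - y)
  have h1 := le_abs_self (x - y)
  have h2 := neg_abs_le (x - y)
  rcases le_total 1 x with a | a <;> rcases le_total 1 y with b | b <;> simp only [min_eq_left, min_eq_right, a, b] <;> constructor <;> linarith

private lemma pht_om (v w w' : Vec d) : |min 1 (jb w / jb v) ^ 4 - min 1 (jb w' / jb v) ^ 4| ≤ 4 * len (w - w') := by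
  have hv := one_le_jb v
  have hw := jb_pos w
  have hw' := jb_pos w'
  have a1 : 0 ≤ min 1 (jb w / jb v) := le_min zero_le_one (by positivity)
  have a2 : 0 ≤ min 1 (jb w' / jb v) := le_min zero_le_one (by positivity)
  refine (pht_pow4 a1 (min_le_left _ _) a2 (min_le_left _ _)).trans ?_
  have h1 := pht_min (jb w / jb v) (jb w' / jb v)
  have h2 : |jb w / jb v - jb w' / jb v| ≤ len (w - w') := by
    rw [← sub_div, abs_div, abs_of_pos (by linarith : 0 < jb v)]
    exact (div_le_self (abs_nonneg _) hv).trans (jb_lip w w')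
  linarith

private lemma pht_om0 (v w : Vec d) : 0 ≤ min 1 (jb w / jb v) ^ 4 := by
  have hv := jb_pos v
  have hw := jb_pos w
  exact pow_nonneg (le_min zero_le_one (by positivity)) 4

private lemma pht_om1 (v w : Vec d) : min 1 (jb w / jb v) ^ 4 ≤ 1 := by
  have hv := jb_pos v
  have hw := jb_pos w
  exact pow_le_one₀ (le_min zero_le_one (by positivity)) (min_le_left _ _)

private lemma pht_phi (ha : -1 ≤ a) (ha0 : a < 0) (hr : 0 < r) (hr1 : r ≤ 1) (e : Fin d) (v w : Vec d) :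
    |phiD e a r (v - w)| ≤ 4 * (r ^ 2)⁻¹ * (jb v ^ a * jb w) := by
  have hi : 0 < (r ^ 2)⁻¹ := by positivity
  have h1 := phiD_abs ha ha0 hr hr1 e (v - w)
  have h2 := jb_peetre ha ha0 v w
  have h3 := mul_le_mul_of_nonneg_left h2 (by positivity : 0 ≤ 2 * (r ^ 2)⁻¹)
  linarith

private lemma pht_dphi (ha : -1 ≤ a) (ha0 : a < 0) (hr : 0 < r) (hr1 : r ≤ 1) (e : Fin d) (v w w' : Vec d)
    (hl : len (w - w') ≤ 1) :
    |phiD e a r (v - w) - phiD e a r (v - w')| ≤ 20 * (r ^ 2)⁻¹ * (len (w - w') * (jb v ^ a * jb w)) := by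
  have hi : 0 < (r ^ 2)⁻¹ := by positivity
  have hi1 : 1 ≤ (r ^ 2)⁻¹ := (one_le_inv₀ (by positivity)).2 (pow_le_one₀ hr.le hr1)
  have hv := one_le_jb v
  have hw := one_le_jb w
  have hL := len_nonneg (w - w')
  have e1 : len ((v - w) - (v - w')) = len (w - w') := by
    have : (v - w) - (v - w') = -(w - w') := by abel
    rw [this, len_neg]
  have hJ : (jb v)⁻¹ ≤ jb v ^ a := by
    rw [← Real.rpow_neg_one]
    exact Real.rpow_le_rpow_of_exponent_le hv ha
  have hJ0 : 0 < jb v ^ a := Real.rpow_pos_of_pos (by linarith) a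
  have hj : jb v ≤ jb w + len (v - w) := by
    have := (abs_le.1 (jb_lip v w)).2
    linarith
  rcases lt_or_ge (len (v - w)) 3 with h | h
  · have h1 := phiD_lip ha ha0 hr hr1 e (v - w) (v - w')
    rw [e1] at h1
    have h2 : 1 ≤ 4 * (jb v ^ a * jb w) := by
      have h3 : jb v ≤ 4 * jb w := by linarith
      have h4 : 1 = (jb v)⁻¹ * jb v := by
        rw [inv_mul_cancel₀]
        positivity
      have h5 : (jb v)⁻¹ * jb v ≤ jb v ^ a * (4 * jb w) := mul_le_mul hJ h3 (by positivity) hJ0.le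
      linarith
    have h6 : 5 * (r ^ 2)⁻¹ * len (w - w') * 1 ≤ 5 * (r ^ 2)⁻¹ * len (w - w') * (4 * (jb v ^ a * jb w)) :=
      mul_le_mul_of_nonneg_left h2 (by positivity)
    linarith
  · have hm : 1 ≤ len (v - w) - 1 := by linarith
    have h1 : len (v - w) - 1 ≤ len (v - w') := by
      have h2 := len_le_add_sub (v - w) (v - w')
      rw [e1] at h2
      linarith
    have h2 := phiD_far ha ha0 hr hr1 e hm (by linarith : len (v - w) - 1 ≤ len (v - w)) h1
    rw [e1] at h2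
    refine h2.trans ?_
    rw [div_le_iff₀ (by linarith)]
    have h3 : jb v ≤ 4 * jb w * (len (v - w) - 1) := by nlinarith
    have h4 : (jb v)⁻¹ * jb v ≤ jb v ^ a * (4 * jb w * (len (v - w) - 1)) := mul_le_mul hJ h3 (by positivity) hJ0.le
    have h4' : (jb v)⁻¹ * jb v = 1 := by
      rw [inv_mul_cancel₀]
      positivity
    rw [h4'] at h4
    have h5 : len (w - w') * 1 ≤ len (w - w') * (jb v ^ a * (4 * jb w * (len (v - w) - 1))) := mul_le_mul_of_nonneg_left h4 hL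
    have h6 : 0 ≤ len (w - w') * (jb v ^ a * jb w) * (len (v - w) - 1) := by
      have : 0 ≤ len (v - w) - 1 := by linarith
      positivity
    have h7 : 1 * (len (w - w') * (jb v ^ a * jb w) * (len (v - w) - 1)) ≤ (r ^ 2)⁻¹ * (len (w - w') * (jb v ^ a * jb w) * (len (v - w) - 1)) :=
      mul_le_mul_of_nonneg_right hi1 h6
    nlinarith [h5, h6, h7]

theorem PhD_TF (ha : -1 ≤ a) (ha0 : a < 0) (hr : 0 < r) (hr1 : r ≤ 1) : ∃ K : ℝ, 0 ≤ K ∧
    ∀ (e : Fin d) (v : Vec d), TF (K * jb v ^ a) fun w => PhD e a r v w := by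
  have hi : 0 < (r ^ 2)⁻¹ := by positivity
  refine ⟨36 * (r ^ 2)⁻¹, by positivity, fun e v => ⟨?_, fun w => ?_, fun w w' => ?_⟩⟩
  · have h1 := (PhD_PGW ha ha0 hr e).cont
    have h2 : Continuous fun w : Vec d => (v, w) := continuous_const.prodMk continuous_id
    have h3 := h1.comp h2
    simp only [Function.comp_def] at h3
    exact h3
  · have hJ0 : 0 < jb v ^ a := Real.rpow_pos_of_pos (jb_pos v) a
    have h1 := pht_phi ha ha0 hr hr1 e v w
    have h2 := mul_le_of_le_one_left (abs_nonneg (phiD e a r (v - w))) (pht_om1 v w)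
    have h3 : 0 ≤ (r ^ 2)⁻¹ * (jb v ^ a * jb w) := mul_nonneg hi.le (mul_nonneg hJ0.le (jb_pos w).le)
    unfold PhD
    rw [abs_mul, abs_of_nonneg (pht_om0 v w)]
    linarith
  · have hJ0 : 0 < jb v ^ a := Real.rpow_pos_of_pos (jb_pos v) a
    have hw := jb_pos w
    have hw' := jb_pos w'
    have b1 := pht_phi ha ha0 hr hr1 e v w
    have b2 := pht_phi ha ha0 hr hr1 e v w'
    have p1 : 0 < (r ^ 2)⁻¹ * (jb v ^ a * jb w) := by positivity
    have p2 : 0 < (r ^ 2)⁻¹ * (jb v ^ a * jb w') := by positivity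
    have c1 := mul_le_of_le_one_left (abs_nonneg (phiD e a r (v - w))) (pht_om1 v w)
    have c2 := mul_le_of_le_one_left (abs_nonneg (phiD e a r (v - w'))) (pht_om1 v w')
    unfold PhD
    rcases le_or_gt 1 (len (w - w')) with h | h
    · rw [min_eq_left h, one_mul]
      have h1 := abs_sub (min 1 (jb w / jb v) ^ 4 * phiD e a r (v - w)) (min 1 (jb w' / jb v) ^ 4 * phiD e a r (v - w'))
      rw [abs_mul (min 1 (jb w / jb v) ^ 4), abs_mul (min 1 (jb w' / jb v) ^ 4), abs_of_nonneg (pht_om0 v w), abs_of_nonneg (pht_om0 v w')] at h1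
      linarith
    · rw [min_eq_right h.le]
      have hL := len_nonneg (w - w')
      have d1 := pht_dphi ha ha0 hr hr1 e v w w' h.le
      have d2 := pht_om v w w'
      have e1 : min 1 (jb w / jb v) ^ 4 * phiD e a r (v - w) - min 1 (jb w' / jb v) ^ 4 * phiD e a r (v - w') =
          min 1 (jb w / jb v) ^ 4 * (phiD e a r (v - w) - phiD e a r (v - w')) +
            (min 1 (jb w / jb v) ^ 4 - min 1 (jb w' / jb v) ^ 4) * phiD e a r (v - w') := by ring
      have h1 : |min 1 (jb w / jb v) ^ 4 * (phiD e a r (v - w) - phiD e a r (v - w'))| ≤ 20 * (r ^ 2)⁻¹ * (len (w - w') * (jb v ^ a * jb w)) := by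
        rw [abs_mul, abs_of_nonneg (pht_om0 v w)]
        exact (mul_le_of_le_one_left (abs_nonneg _) (pht_om1 v w)).trans d1
      have h2 : |(min 1 (jb w / jb v) ^ 4 - min 1 (jb w' / jb v) ^ 4) * phiD e a r (v - w')| ≤ 4 * len (w - w') * (4 * (r ^ 2)⁻¹ * (jb v ^ a * jb w')) := by
        rw [abs_mul]
        exact mul_le_mul d2 b2 (abs_nonneg _) (by positivity)
      rw [e1]
      have h3 := abs_add_le (min 1 (jb w / jb v) ^ 4 * (phiD e a r (v - w) - phiD e a r (v - w'))) ((min 1 (jb w / jb v) ^ 4 - min 1 (jb w' / jb v) ^ 4) * phiD e a r (v - w'))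
      have q1 : 0 ≤ (r ^ 2)⁻¹ * (len (w - w') * (jb v ^ a * jb w)) := by positivity
      have q2 : 0 ≤ (r ^ 2)⁻¹ * (len (w - w') * (jb v ^ a * jb w')) := by positivity
      nlinarith [h1, h2, h3, q1, q2]

theorem PhC_TF (ha : -1 ≤ a) (ha0 : a < 0) (hr : 0 < r) (hr1 : r ≤ 1) : ∃ K : ℝ, 0 ≤ K ∧
    ∀ R : ℝ, 1 ≤ R → ∀ (e : Fin d) (v : Vec d) (k : ℝ), |k| ≤ 1 →
      TF (K * jb v ^ a) (fun w => chi R w * (PhA e a r v w + k * PhD e a r v w)) ∧
      ∀ w, 0 ≤ chi R w * (PhA e a r v w + k * PhD e a r v w) := by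
  obtain ⟨K, hK, h⟩ := PhD_TF (d := d) ha ha0 hr hr1
  refine ⟨4 * K, by positivity, fun R hR e v k hk => ⟨?_, fun w => ?_⟩⟩
  · have h1 := ((h e v).abs.add ((h e v).smul hk)).chi hR
    have e1 : 2 * (K * jb v ^ a + K * jb v ^ a) = 4 * K * jb v ^ a := by ring
    rw [e1] at h1
    exact h1
  · refine mul_nonneg (chi_nonneg R w) ?_
    unfold PhA
    have h1 : |k * PhD e a r v w| ≤ |PhD e a r v w| := by
      rw [abs_mul]
      exact mul_le_of_le_one_left (abs_nonneg _) hk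
    have h2 := neg_abs_le (k * PhD e a r v w)
    linarith

theorem W_TF {R : ℝ} (hR : 1 ≤ R) : ∃ K : ℝ, 0 ≤ K ∧ ∀ (e : Fin d) (v : Vec d),
    TF K (fun w => W0 R v w) ∧ ∀ k : ℝ, |k| ≤ 1 →
      TF K (fun w => 2 * R * W0 R v w + k * W1 e R v w) ∧ ∀ w, 0 ≤ 2 * R * W0 R v w + k * W1 e R v w := by
  have hc : TF 1 (fun w : Vec d => chi R w) := by
    refine ⟨chi_cont R, fun w => ?_, fun w w' => ?_⟩
    · rw [abs_of_nonneg (chi_nonneg R w), one_mul]
      exact (chi_le_one R w).trans (one_le_jb w)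
    · rw [one_mul]
      have hm : 0 ≤ min 1 (len (w - w')) := le_min zero_le_one (len_nonneg _)
      have h1 := one_le_jb w
      have h2 := one_le_jb w'
      exact (pht_chi hR w w').trans (le_mul_of_one_le_right hm (by linarith))
  have hl : ∀ e : Fin d, TF 1 (fun w : Vec d => w e) := by
    intro e
    refine ⟨continuous_apply e, fun w => ?_, fun w w' => ?_⟩
    · rw [one_mul]
      exact (abs_coord_le w e).trans (len_le_jb w)
    · rw [one_mul]
      have h1 := one_le_jb w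
      have h2 := one_le_jb w'
      rcases le_or_gt 1 (len (w - w')) with h | h
      · rw [min_eq_left h, one_mul]
        have h3 := abs_sub (w e) (w' e)
        have h4 := (abs_coord_le w e).trans (len_le_jb w)
        have h5 := (abs_coord_le w' e).trans (len_le_jb w')
        linarith
      · rw [min_eq_right h.le]
        have h3 : |w e - w' e| ≤ len (w - w') := abs_coord_le (w - w') e
        exact h3.trans (le_mul_of_one_le_right (len_nonneg _) (by linarith))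
  refine ⟨2 * R + 2, by linarith, fun e v => ⟨?_, fun k hk => ⟨?_, fun w => ?_⟩⟩⟩
  · exact pht_mono hc (by linarith)
  · have h1 := (pht_scale hc (by linarith : (0 : ℝ) ≤ 2 * R)).add (((hl e).chi hR).smul hk)
    exact pht_mono h1 (by linarith)
  · unfold W0 W1
    rcases le_or_gt (2 * R) (jb w) with h | h
    · rw [chi_eq_zero hR h]
      simp
    · have h1 := (abs_coord_le w e).trans (len_le_jb w)
      have h2 : |k * w e| ≤ |w e| := by
        rw [abs_mul]
        exact mul_le_of_le_one_left (abs_nonneg _) hk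
      have h3 := neg_abs_le (k * w e)
      have h4 : 0 ≤ 2 * R + k * w e := by linarith
      have h5 := mul_nonneg (chi_nonneg R w) h4
      nlinarith [h5]

end Pool.Agent.H85.DG
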