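import Pool.Agent.H85.DG.PhL
import Pool.Agent.H85.DG.PhT

/-!
# Module PhO: oscillation in the first variable

* `jb_osc`: `len (u-v) ≥ jb v/2`: both powers are in `(0,1]`, the minimum is `≥ 1/2`. `len (u-v) < jb v/2`: `jb u ≥ jb v/2` (`jb_lip`), `|x^a - y^a| ≤ |a| min(x,y)^(a-1) |x-y| ≤ (jb v/2)^(a-1) len (u-v) ≤ 4 jb v ^ (a-1) len (u-v) ≤ 4 len (u-v)/jb v`.
* `PhD_osc`, `h = len (u-v)`. (1) `h ≥ jb v/2`: `|PhD u w| + |PhD v w| ≤ 2 C jb w` (`phiD_abs`, `jb^a ≤ 1`). (2) `h < jb v/2`, `jb u ≥ jb v/2`: `|min(1,jb w/jb u) - min(1,jb w/jb v)| ≤ jb w |jb v - jb u|/(jb u jb v) ≤ 2 jb w h/jb v`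
  (using `jb v ≥ 1`), `|x^4-y^4| ≤ 4|x-y|` on `[0,1]`, times `|phiD (v-w)| ≤ 2 r^(-2)`; and `|phiD (u-w) - phiD (v-w)| ≤ K jb w h/jb v` with `y = v-w`: `len y < 2`: `jb v ≤ 3 jb w`, `phiD_lip`; `len y ≥ 2`, `h ≤ len y/2`: `phiD_far` with `m = len y/2`: `6 h/len y`, and
  `jb v ≤ jb w + len y ≤ jb w len y`; `len y ≥ 2`, `h > len y/2`: `≤ 4 r^(-2)`, `h/jb v ≥ len y/(2 jb v) ≥ 1/(2 jb w)`.
-/

set_option autoImplicit false

open MeasureTheory Set Filter Topology Pool.Agent.H25.Kin Pool.Agent.H82.BK Pool.Agent.H82.CM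
open Pool.Agent.H48.PL Pool.Agent.H48.PI Pool.Agent.H48.PW Pool.Agent.H48.PV

namespace Pool.Agent.H85.DG

variable {d : ℕ} {a r : ℝ}

private lemma PhO_pow (ha : -1 ≤ a) (ha0 : a < 0) {t x : ℝ} (ht : 1 ≤ t) (h : t ≤ x) :
    0 ≤ t ^ a - x ^ a ∧ t ^ a - x ^ a ≤ (x - t) / x := by
  have ht0 : 0 < t := by linarith
  have hx0 : 0 < x := by linarith
  have h1 : t ^ a ≤ 1 := Real.rpow_le_one_of_one_le_of_nonpos ht ha0.le
  have h2 : 0 ≤ t ^ a := Real.rpow_nonneg ht0.le a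
  have hq0 : 0 < t / x := div_pos ht0 hx0
  have hq1 : t / x ≤ 1 := (div_le_one hx0).2 h
  have h3 : t / x ≤ (t / x) ^ (-a) := by
    have := Real.rpow_le_rpow_of_exponent_ge hq0 hq1 (show -a ≤ 1 by linarith)
    rwa [Real.rpow_one] at this
  have h4 : (t / x) ^ (-a) ≤ 1 := Real.rpow_le_one hq0.le hq1 (by linarith)
  have h5 : x ^ a = t ^ a * (t / x) ^ (-a) := by
    rw [Real.div_rpow ht0.le hx0.le, Real.rpow_neg ht0.le, Real.rpow_neg hx0.le]
    have e1 : t ^ a ≠ 0 := (Real.rpow_pos_of_pos ht0 a).ne'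
    have e2 : x ^ a ≠ 0 := (Real.rpow_pos_of_pos hx0 a).ne'
    field_simp
  have h6 : t ^ a - x ^ a = t ^ a * (1 - (t / x) ^ (-a)) := by
    rw [h5]; ring
  rw [h6]
  refine ⟨mul_nonneg h2 (by linarith), ?_⟩
  calc t ^ a * (1 - (t / x) ^ (-a)) ≤ 1 * (1 - t / x) :=
        mul_le_mul h1 (by linarith) (by linarith) zero_le_one
    _ = (x - t) / x := by field_simp

lemma jb_osc (ha : -1 ≤ a) (ha0 : a < 0) (u v : Vec d) :
    |jb u ^ a - jb v ^ a| ≤ 4 * min 1 (len (u - v) / jb v) := by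
  have hu := one_le_jb u
  have hv := one_le_jb v
  have hl := jb_lip u v
  have hn := len_nonneg (u - v)
  have hb : |jb u ^ a - jb v ^ a| ≤ 1 := by
    have h1 := Real.rpow_le_one_of_one_le_of_nonpos hu ha0.le
    have h2 := Real.rpow_le_one_of_one_le_of_nonpos hv ha0.le
    have h3 := Real.rpow_nonneg (jb_pos u).le a
    have h4 := Real.rpow_nonneg (jb_pos v).le a
    rw [abs_le]
    constructor <;> linarith
  have hc : |jb u ^ a - jb v ^ a| ≤ len (u - v) / jb v := by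
    rcases le_total (jb u) (jb v) with h | h
    · have h1 := PhO_pow ha ha0 hu h
      rw [abs_of_nonneg h1.1]
      refine h1.2.trans (div_le_div_of_nonneg_right ?_ (jb_pos v).le)
      rw [abs_sub_comm] at hl
      exact (le_abs_self _).trans hl
    · have h1 := PhO_pow ha ha0 hv h
      rw [abs_sub_comm, abs_of_nonneg h1.1]
      refine h1.2.trans ?_
      refine (div_le_div_of_nonneg_right ((le_abs_self _).trans hl) (jb_pos u).le).trans ?_
      exact div_le_div_of_nonneg_left hn (jb_pos v) h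
  have hm : |jb u ^ a - jb v ^ a| ≤ min 1 (len (u - v) / jb v) := le_min hb hc
  have h0 : 0 ≤ min 1 (len (u - v) / jb v) := (abs_nonneg _).trans hm
  linarith

theorem PhD_osc (ha : -1 ≤ a) (ha0 : a < 0) (hr : 0 < r) (hr1 : r ≤ 1) : ∃ K : ℝ, 0 ≤ K ∧
    ∀ (e : Fin d) (u v w : Vec d),
      |PhD e a r u w - PhD e a r v w| ≤ K * jb w ^ 2 * min 1 (len (u - v) / jb v) := by
  have hr2 : 0 < r ^ 2 := by positivity
  have hr21 : r ^ 2 ≤ 1 := pow_le_one₀ hr.le hr1
  obtain ⟨q, hq⟩ : ∃ q : ℝ, q = (r ^ 2)⁻¹ := ⟨_, rfl⟩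
  have hq1 : 1 ≤ q := by
    rw [hq]; exact (one_le_inv₀ hr2).2 hr21
  have hP : ∀ (e : Fin d) (y : Vec d), |phiD e a r y| ≤ 2 * q := by
    intro e y
    have h1 := phiD_abs ha ha0 hr hr1 e y
    rw [← hq] at h1
    have h2 : jb y ^ a ≤ 1 := Real.rpow_le_one_of_one_le_of_nonpos (one_le_jb y) ha0.le
    calc |phiD e a r y| ≤ 2 * q * jb y ^ a := h1
      _ ≤ 2 * q * 1 := mul_le_mul_of_nonneg_left h2 (by linarith)
      _ = 2 * q := mul_one _
  refine ⟨24 * q, by linarith, fun e u v w => ?_⟩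
  obtain ⟨h, hh⟩ : ∃ h : ℝ, h = len (u - v) := ⟨_, rfl⟩
  have hh0 : 0 ≤ h := by rw [hh]; exact len_nonneg _
  obtain ⟨j, hj⟩ : ∃ j : ℝ, j = jb v := ⟨_, rfl⟩
  obtain ⟨i, hi⟩ : ∃ i : ℝ, i = jb u := ⟨_, rfl⟩
  obtain ⟨k, hk⟩ : ∃ k : ℝ, k = jb w := ⟨_, rfl⟩
  have hj1 : 1 ≤ j := by rw [hj]; exact one_le_jb v
  have hi1 : 1 ≤ i := by rw [hi]; exact one_le_jb u
  have hk1 : 1 ≤ k := by rw [hk]; exact one_le_jb w
  have hij : |i - j| ≤ h := by rw [hi, hj, hh]; exact jb_lip u v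
  have hjk : j ≤ k + len (v - w) := by
    have h1 := jb_lip v w
    rw [← hj, ← hk] at h1
    linarith [le_abs_self (j - k)]
  have hPu := hP e (u - w)
  have hPv := hP e (v - w)
  obtain ⟨X, hX⟩ : ∃ X : ℝ, X = min 1 (k / i) := ⟨_, rfl⟩
  obtain ⟨Y, hY⟩ : ∃ Y : ℝ, Y = min 1 (k / j) := ⟨_, rfl⟩
  have hX0 : 0 ≤ X := by rw [hX]; exact le_min zero_le_one (by positivity)
  have hY0 : 0 ≤ Y := by rw [hY]; exact le_min zero_le_one (by positivity)
  have hX1 : X ≤ 1 := by rw [hX]; exact min_le_left _ _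
  have hY1 : Y ≤ 1 := by rw [hY]; exact min_le_left _ _
  have hX4 : X ^ 4 ≤ 1 := pow_le_one₀ hX0 hX1
  have hY4 : Y ^ 4 ≤ 1 := pow_le_one₀ hY0 hY1
  have hX40 : 0 ≤ X ^ 4 := pow_nonneg hX0 4
  have hY40 : 0 ≤ Y ^ 4 := pow_nonneg hY0 4
  have hk2 : k ≤ k ^ 2 := by nlinarith
  have hk21 : 1 ≤ k ^ 2 := by nlinarith
  unfold PhD
  rw [← hi, ← hj, ← hk, ← hX, ← hY, ← hh]
  obtain ⟨P, hPe⟩ : ∃ P : ℝ, P = phiD e a r (u - w) := ⟨_, rfl⟩
  obtain ⟨Q, hQe⟩ : ∃ Q : ℝ, Q = phiD e a r (v - w) := ⟨_, rfl⟩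
  rw [← hPe, ← hQe]
  rw [← hPe] at hPu
  rw [← hQe] at hPv
  rcases le_or_gt (j / 2) h with hc | hc
  · -- far apart
    have hm : 1 / 2 ≤ min 1 (h / j) := by
      refine le_min (by norm_num) ?_
      rw [div_le_div_iff₀ two_pos (by linarith)]
      linarith
    have h1 : |X ^ 4 * P| ≤ 2 * q := by
      rw [abs_mul, abs_of_nonneg hX40]
      exact (mul_le_of_le_one_left (abs_nonneg _) hX4).trans hPu
    have h2 : |Y ^ 4 * Q| ≤ 2 * q := by
      rw [abs_mul, abs_of_nonneg hY40]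
      exact (mul_le_of_le_one_left (abs_nonneg _) hY4).trans hPv
    have h3 : |X ^ 4 * P - Y ^ 4 * Q| ≤ 4 * q := by
      have := abs_sub (X ^ 4 * P) (Y ^ 4 * Q)
      linarith
    have h4 : 4 * q ≤ 24 * q * k ^ 2 * min 1 (h / j) := by
      calc 4 * q ≤ 24 * q * 1 * (1 / 2) := by linarith
        _ ≤ 24 * q * k ^ 2 * min 1 (h / j) := by
          refine mul_le_mul (mul_le_mul_of_nonneg_left hk21 (by linarith)) hm (by norm_num) ?_
          positivity
    exact h3.trans h4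
  · -- close
    obtain ⟨m, hm⟩ : ∃ m : ℝ, m = h / j := ⟨_, rfl⟩
    have hj0 : 0 < j := by linarith
    have hi0 : 0 < i := by linarith
    have hk0 : 0 < k := by linarith
    have hm0 : 0 ≤ m := by rw [hm]; positivity
    have hmj : h = m * j := by rw [hm]; field_simp
    have hm1 : m ≤ 1 := by
      rw [hm, div_le_one hj0]; linarith
    rw [← hm, min_eq_right hm1]
    have hXY : |X - Y| ≤ k * m := by
      have h1 : |X - Y| ≤ |k / i - k / j| := by
        have h2 := abs_min_sub_min_le_max 1 (k / i) 1 (k / j)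
        rw [sub_self, abs_zero, max_eq_right (abs_nonneg _)] at h2
        rw [hX, hY]
        exact h2
      have h3 : k / i - k / j = k * (j - i) / (i * j) := by field_simp
      rw [h3, abs_div, abs_mul, abs_of_pos hk0, abs_of_pos (mul_pos hi0 hj0), abs_sub_comm j i] at h1
      refine h1.trans ?_
      rw [div_le_iff₀ (mul_pos hi0 hj0)]
      have h4 : k * |i - j| ≤ k * h := mul_le_mul_of_nonneg_left hij hk0.le
      have h5 : k * h ≤ k * h * i := by
        have : 0 ≤ k * h := by positivity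
        nlinarith
      calc k * |i - j| ≤ k * h * i := h4.trans h5
        _ = k * m * (i * j) := by rw [hmj]; ring
    have hXY4 : |X ^ 4 - Y ^ 4| ≤ 4 * (k * m) := by
      have h1 : X ^ 4 - Y ^ 4 = (X - Y) * ((X + Y) * (X ^ 2 + Y ^ 2)) := by ring
      have h2 : 0 ≤ (X + Y) * (X ^ 2 + Y ^ 2) := by positivity
      have h3 : (X + Y) * (X ^ 2 + Y ^ 2) ≤ 4 := by
        have e1 : X ^ 2 ≤ 1 := pow_le_one₀ hX0 hX1
        have e2 : Y ^ 2 ≤ 1 := pow_le_one₀ hY0 hY1
        have e3 : 0 ≤ X ^ 2 := sq_nonneg X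
        have e4 : 0 ≤ Y ^ 2 := sq_nonneg Y
        nlinarith
      rw [h1, abs_mul, abs_of_nonneg h2]
      calc |X - Y| * ((X + Y) * (X ^ 2 + Y ^ 2)) ≤ (k * m) * 4 :=
            mul_le_mul hXY h3 h2 (by positivity)
        _ = 4 * (k * m) := by ring
    -- the difference of the values of `phiD`
    have hdiff : |P - Q| ≤ 16 * q * (k * m) := by
      have hkm : 0 ≤ k * m := by positivity
      have hlen0 := len_nonneg (v - w)
      rcases lt_or_ge (len (v - w)) 2 with h2 | h2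
      · have h3 := phiD_lip ha ha0 hr hr1 e (u - w) (v - w)
        rw [← hPe, ← hQe, ← hq, sub_sub_sub_cancel_right, ← hh] at h3
        have h4 : j ≤ 3 * k := by linarith
        have h5 : h ≤ 3 * (k * m) := by
          rw [hmj]
          nlinarith
        calc |P - Q| ≤ 5 * q * h := h3
          _ ≤ 5 * q * (3 * (k * m)) := mul_le_mul_of_nonneg_left h5 (by linarith)
          _ ≤ 16 * q * (k * m) := by nlinarith [mul_nonneg (show (0:ℝ) ≤ q by linarith) hkm]
      · have h4 : j ≤ 2 * (k * len (v - w)) := by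
          nlinarith
        rcases le_or_gt h (len (v - w) / 2) with h5 | h5
        · have h6 : len (v - w) / 2 ≤ len (u - w) := by
            have h7 := len_le_add_sub (v - w) (u - w)
            rw [sub_sub_sub_cancel_right, len_comm v u, ← hh] at h7
            linarith
          have h6' : len (v - w) / 2 ≤ len (v - w) := by linarith
          have h8 := phiD_far ha ha0 hr hr1 e (show (1 : ℝ) ≤ len (v - w) / 2 by linarith) h6 h6'
          rw [← hPe, ← hQe, sub_sub_sub_cancel_right, ← hh] at h8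
          have h9 : 3 * h / (len (v - w) / 2) ≤ 12 * (k * m) := by
            rw [div_le_iff₀ (by linarith), hmj]
            nlinarith [mul_le_mul_of_nonneg_left h4 hm0]
          calc |P - Q| ≤ 12 * (k * m) := h8.trans h9
            _ ≤ 16 * q * (k * m) := by nlinarith
        · have h6 : 1 ≤ 4 * (k * m) := by
            have h7 : len (v - w) < 2 * (m * j) := by rw [← hmj]; linarith
            have h8 : m * j ≤ m * (2 * (k * len (v - w))) := mul_le_mul_of_nonneg_left h4 hm0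
            have h9 : len (v - w) * 1 ≤ len (v - w) * (4 * (k * m)) := by nlinarith
            exact le_of_mul_le_mul_left h9 (by linarith)
          have h7 : |P - Q| ≤ 4 * q := by
            have := abs_sub P Q
            linarith
          calc |P - Q| ≤ 4 * q := h7
            _ ≤ 4 * q * (4 * (k * m)) := by
              have : 0 ≤ 4 * q := by linarith
              nlinarith
            _ = 16 * q * (k * m) := by ring
    have hfin : X ^ 4 * P - Y ^ 4 * Q = X ^ 4 * (P - Q) + (X ^ 4 - Y ^ 4) * Q := by ring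
    have hkm2 : k * m ≤ k ^ 2 * m := mul_le_mul_of_nonneg_right hk2 hm0
    calc |X ^ 4 * P - Y ^ 4 * Q| = |X ^ 4 * (P - Q) + (X ^ 4 - Y ^ 4) * Q| := by rw [hfin]
      _ ≤ |X ^ 4 * (P - Q)| + |(X ^ 4 - Y ^ 4) * Q| := abs_add_le _ _
      _ = X ^ 4 * |P - Q| + |X ^ 4 - Y ^ 4| * |Q| := by
        rw [abs_mul, abs_mul, abs_of_nonneg hX40]
      _ ≤ 1 * (16 * q * (k * m)) + 4 * (k * m) * (2 * q) := by
        refine add_le_add (mul_le_mul hX4 hdiff (abs_nonneg _) zero_le_one)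
          (mul_le_mul hXY4 hPv (abs_nonneg _) (by positivity))
      _ = 24 * q * (k * m) := by ring
      _ ≤ 24 * q * (k ^ 2 * m) := mul_le_mul_of_nonneg_left hkm2 (by linarith)
      _ = 24 * q * k ^ 2 * m := by ring

end Pool.Agent.H85.DG
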