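import Pool.Agent.H85.DG.Defs

/-!
# Module PhV: the flux weights

`V = v - w`, `V_e phi e a V = V_e^2 |V|^(a-1) ∈ [0, |V|^(1+a)]` (`mul_phi_nonneg`, `mul_phi_le` in H48/PW, if they hold for negative `a`; otherwise direct: `V_e^2 ≤ |V|^2`, `V = 0` gives `0`).
* `VPhD_nonneg`, `VPhD_le_PhS`: the factor `min(1,|V|/r)^2 ∈ [0,1]`.
* `VPhS_le`: `Om |V|^(1+a) ≤ 2 jb v ^ a jb w`. `jb w ≤ jb v`: `Om = (jb w/jb v)^4 ≤ jb w/jb v`, `|V| ≤ jb v + jb w ≤ 2 jb v`, `(2 jb v)^(1+a) ≤ 2 jb v ^ (1+a)`. `jb w > jb v`: `Om = 1`, `(2 jb w)^(1+a) ≤ 2 jb w jb w ^ a ≤ 2 jb w jb v ^ a` (`a ≤ 0`).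
* `VPhS_PhD`: `V_e φ (1 - min(1,|V|/r)^2) ≤ |V|^(1+a) 1_(|V| < r) ≤ r^(1+a) 1_(|V| < r)`, `Om ≤ 1` (`1 + a ≥ 0`; for `a = -1` both sides are `≤ 1`).
* `avD_le`: `gb ≤ F`, `VPhD_le_PhS`, `VPhS_le`; integrability as in `avG_le` (AbsG) / `avU_le` (PV/AbsU.lean): `PhD_PGW` is in PhP.
-/

set_option autoImplicit false

open MeasureTheory Set Filter Topology Pool.Agent.H25.Kin Pool.Agent.H82.BK Pool.Agent.H82.CM
open Pool.Agent.H48.PL Pool.Agent.H48.PI Pool.Agent.H48.PW Pool.Agent.H48.PV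

namespace Pool.Agent.H85.DG

variable {d : ℕ} {a r : ℝ}

private lemma PhV_om (v w : Vec d) : 0 ≤ min 1 (jb w / jb v) :=
  le_min zero_le_one (div_nonneg (jb_pos w).le (jb_pos v).le)

private lemma PhV_sq (e : Fin d) (y : Vec d) : y e * y e ≤ len y ^ 2 := by
  have h := abs_coord_le y e
  have h0 := abs_nonneg (y e)
  have h1 : y e * y e = |y e| ^ 2 := by rw [sq_abs]; ring
  rw [h1]
  exact pow_le_pow_left₀ h0 h 2

private lemma PhV_phi (e : Fin d) (a : ℝ) (y : Vec d) : y e * phi e a y ≤ len y ^ (1 + a) := by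
  have hl := len_nonneg y
  have hs := PhV_sq e y
  unfold phi
  rw [← mul_assoc]
  rcases hl.eq_or_lt with h | h
  · have h0 : y e * y e = 0 := by
      refine le_antisymm ?_ (mul_self_nonneg _)
      rw [← h] at hs
      simpa using hs
    rw [h0, zero_mul]
    exact Real.rpow_nonneg hl _
  · have e1 : len y ^ (1 + a) = len y ^ 2 * len y ^ (a - 1) := by
      rw [← Real.rpow_two, ← Real.rpow_add h]
      congr 1; ring
    rw [e1]
    exact mul_le_mul_of_nonneg_right hs (Real.rpow_nonneg hl _)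

private lemma PhV_S (e : Fin d) (a : ℝ) (v w : Vec d) :
    (v e - w e) * PhS e a v w ≤ min 1 (jb w / jb v) ^ 4 * len (v - w) ^ (1 + a) := by
  have h1 := PhV_phi e a (v - w)
  rw [Pi.sub_apply] at h1
  unfold PhS
  have e1 : (v e - w e) * (min 1 (jb w / jb v) ^ 4 * phi e a (v - w)) =
      min 1 (jb w / jb v) ^ 4 * ((v e - w e) * phi e a (v - w)) := by ring
  rw [e1]
  exact mul_le_mul_of_nonneg_left h1 (pow_nonneg (PhV_om v w) 4)

private lemma PhV_D (e : Fin d) (a r : ℝ) (v w : Vec d) :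
    (v e - w e) * PhD e a r v w =
      min 1 (len (v - w) / r) ^ 2 * ((v e - w e) * PhS e a v w) := by
  unfold PhD phiD PhS
  ring

private lemma PhV_m (hr : 0 < r) (v w : Vec d) : 0 ≤ min 1 (len (v - w) / r) :=
  le_min zero_le_one (div_nonneg (len_nonneg _) hr.le)

lemma VPhD_nonneg (hr : 0 < r) (e : Fin d) (a : ℝ) (v w : Vec d) : 0 ≤ (v e - w e) * PhD e a r v w := by
  rw [PhV_D]
  exact mul_nonneg (pow_nonneg (PhV_m hr v w) 2) (VPhS_nonneg e a v w)

lemma VPhD_le_PhS (hr : 0 < r) (e : Fin d) (a : ℝ) (v w : Vec d) :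
    (v e - w e) * PhD e a r v w ≤ (v e - w e) * PhS e a v w := by
  rw [PhV_D]
  have h1 : min 1 (len (v - w) / r) ^ 2 ≤ 1 := pow_le_one₀ (PhV_m hr v w) (min_le_left _ _)
  exact mul_le_of_le_one_left (VPhS_nonneg e a v w) h1

private lemma PhV_two (ha0 : a < 0) {x : ℝ} (hx : 0 < x) :
    (2 * x) ^ (1 + a) ≤ 2 * (x * x ^ a) := by
  have h2 : (2 : ℝ) ^ (1 + a) ≤ 2 := by
    calc (2 : ℝ) ^ (1 + a) ≤ 2 ^ (1 : ℝ) :=
          Real.rpow_le_rpow_of_exponent_le one_le_two (by linarith)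
      _ = 2 := Real.rpow_one 2
  have h3 : x ^ (1 + a) = x * x ^ a := by
    rw [Real.rpow_add hx, Real.rpow_one]
  rw [Real.mul_rpow zero_le_two hx.le, h3]
  exact mul_le_mul_of_nonneg_right h2 (mul_nonneg hx.le (Real.rpow_nonneg hx.le _))

lemma VPhS_le (ha : -1 ≤ a) (ha0 : a < 0) (e : Fin d) (v w : Vec d) :
    (v e - w e) * PhS e a v w ≤ 2 * (jb v ^ a * jb w) := by
  have hv := jb_pos v
  have hw := jb_pos w
  have hV : len (v - w) ≤ jb v + jb w :=
    (len_sub_le v w).trans (add_le_add (len_le_jb v) (len_le_jb w))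
  have hl := len_nonneg (v - w)
  have ha1 : 0 ≤ 1 + a := by linarith
  refine (PhV_S e a v w).trans ?_
  rcases le_total (jb w) (jb v) with h | h
  · have hq0 : 0 ≤ jb w / jb v := div_nonneg hw.le hv.le
    have hq1 : jb w / jb v ≤ 1 := (div_le_one hv).2 h
    have h1 : min 1 (jb w / jb v) ^ 4 ≤ jb w / jb v := by
      rw [min_eq_right hq1]
      calc (jb w / jb v) ^ 4 ≤ (jb w / jb v) ^ 1 := pow_le_pow_of_le_one hq0 hq1 (by norm_num)
        _ = jb w / jb v := pow_one _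
    have h2 : len (v - w) ^ (1 + a) ≤ 2 * (jb v * jb v ^ a) :=
      (Real.rpow_le_rpow hl (by linarith) ha1).trans (PhV_two ha0 hv)
    calc min 1 (jb w / jb v) ^ 4 * len (v - w) ^ (1 + a) ≤
          jb w / jb v * (2 * (jb v * jb v ^ a)) :=
          mul_le_mul h1 h2 (Real.rpow_nonneg hl _) hq0
      _ = 2 * (jb v ^ a * jb w) := by
          field_simp
  · have h1 : min 1 (jb w / jb v) ^ 4 = 1 := by
      rw [min_eq_left ((one_le_div hv).2 h), one_pow]
    rw [h1, one_mul]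
    have h2 : len (v - w) ^ (1 + a) ≤ 2 * (jb w * jb w ^ a) :=
      (Real.rpow_le_rpow hl (by linarith) ha1).trans (PhV_two ha0 hw)
    have h3 : jb w ^ a ≤ jb v ^ a := Real.rpow_le_rpow_of_nonpos hv h ha0.le
    have h4 : jb w * jb w ^ a ≤ jb w * jb v ^ a := mul_le_mul_of_nonneg_left h3 hw.le
    linarith [mul_comm (jb v ^ a) (jb w)]

lemma VPhS_PhD (ha : -1 ≤ a) (ha0 : a < 0) (hr : 0 < r) (e : Fin d) (v w : Vec d) :
    (v e - w e) * PhS e a v w ≤ (v e - w e) * PhD e a r v w +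
      (if len (v - w) < r then r ^ (1 + a) else 0) := by
  by_cases h : len (v - w) < r
  · rw [if_pos h]
    have hl := len_nonneg (v - w)
    have h1 := PhV_S e a v w
    have h2 : min 1 (jb w / jb v) ^ 4 ≤ 1 := pow_le_one₀ (PhV_om v w) (min_le_left _ _)
    have h3 : len (v - w) ^ (1 + a) ≤ r ^ (1 + a) := Real.rpow_le_rpow hl h.le (by linarith)
    have h4 : min 1 (jb w / jb v) ^ 4 * len (v - w) ^ (1 + a) ≤ len (v - w) ^ (1 + a) :=
      mul_le_of_le_one_left (Real.rpow_nonneg hl _) h2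
    have h5 := VPhD_nonneg hr e a v w
    linarith
  · rw [if_neg h, add_zero, PhV_D]
    have h1 : min 1 (len (v - w) / r) = 1 := min_eq_left ((one_le_div hr).2 (not_lt.1 h))
    rw [h1, one_pow, one_mul]

end Pool.Agent.H85.DG
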