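import Pool.Agent.H85.DG.Defs
import Pool.Agent.H48.PL.WkI
import Pool.Agent.H87.DW.TFw

/-!
# Module WkN: the weak form against the test functions `TF`

For `ε ≤ 1` and `v ≠ w`: `|ainc γ b ε ψ v w| ≤ ∫ kerB (|ψ(v') - ψ(v)| + |ψ(w') - ψ(w)|) dσ`; `jb v', jb v ≤ RR v w ≤ jb v + jb w` (`jb_post_le`, RR is conserved), `len (v' - v) = len (v-w) ((1-cos θ)/2)^(1/2)` (`nsq_post_sub`), so each term is
`≤ 2 K (jb v + jb w) len (v-w)^γ ∫ b min(1, len (v-w) ((1-cos θ)/2)^(1/2)) dσ ≤ C K (jb v + jb w) len (v-w)^γ (1 + len (v-w))` (CuAng in H15/G1/L with `ρ = 1`, or directly: `b(x) (1-x)^(1/2)` is integrable on the sphere for `2s < 1`).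
So `|ainc| ≤ L(v,w) := C K (jb v + jb w)^(γ+2)`-type bound, at most `C K (jb v ^ (γ+2) + jb w ^ (γ+2))`; `weak_ge_of`, `weak_le_of` (H48/PL/WkI); `∫ g jb^(γ+2) ≤ A ∫ jb^(γ+2-2p) < ∞` since `2p ≥ d + γ + 4`: the double integral is `≤ C A^2`.
`0 ≤ K` follows from `TF.h0`, `0 ≤ A` from `g ≥ 0`. Owner: helper87.
-/

set_option autoImplicit false

open MeasureTheory Set Filter Topology Pool.Agent.H25.Kin Pool.Agent.H82.BK Pool.Agent.H82.CM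
open Pool.Agent.H48.PL Pool.Agent.H48.PI Pool.Agent.H48.PW Pool.Agent.H48.PV

namespace Pool.Agent.H85.DG

variable {d : ℕ} {s γ C Ca cb : ℝ} {b : ℝ → ℝ}

private lemma wkN_K {K : ℝ} {ψ : Vec d → ℝ} (h : TF K ψ) : 0 ≤ K := by
  have h1 := (abs_nonneg _).trans (h.h0 0)
  exact nonneg_of_mul_nonneg_left h1 (jb_pos (0 : Vec d))

private lemma wkN_PG {K : ℝ} {ψ : Vec d → ℝ} (h : TF K ψ) : PG ψ := by
  have hK := wkN_K h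
  refine ⟨1, K * ((d : ℝ) + 1), fun w => ?_⟩
  rw [Real.norm_eq_abs, pow_one]
  calc |ψ w| ≤ K * jb w := h.h0 w
    _ ≤ K * (((d : ℝ) + 1) * (1 + ‖w‖)) := mul_le_mul_of_nonneg_left (jb_le_w w) hK
    _ = _ := by ring

theorem wk_n (HL : HypL d γ s b C Ca cb) (h0 : 0 ≤ γ) (h1 : γ ≤ 1) (hs1 : 2 * s < 1) {p : ℕ}
    (hp : (d : ℝ) + γ + 4 ≤ 2 * p) :
    ∃ C₁ : ℝ, 0 ≤ C₁ ∧ ∀ g : Vec d → ℝ, Nice g → (∀ u, 0 ≤ g u) →
      ∀ A : ℝ, (∀ u, g u * (1 + nsq u) ^ p ≤ A) → ∀ (K : ℝ) (ψ : Vec d → ℝ), TF K ψ →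
      |∫ w, boltzQ γ b g w * ψ w| ≤ C₁ * K * A ^ 2 := by
  have H := HL.H
  obtain ⟨C₁, hC₁, hw⟩ := Pool.Agent.H87.DW.tf_w1 (p := p) H h0 h1 hs1 hp
  refine ⟨C₁, hC₁, fun g hg hg0 A hgA K ψ hψ => ?_⟩
  have hgm := hg.cont.measurable
  refine le_of_tendsto (boltz_weak_tendsto H hg (wkN_PG hψ) hψ.cont.measurable).abs ?_
  filter_upwards [self_mem_nhdsWithin, Ioc_mem_nhdsGT (one_pos : (0 : ℝ) < 1)] with ε hε hε1
  rw [Pool.Agent.H87.DW.cut_fold_pg H hε hg.rd hg.cont hψ.cont.measurable (wkN_PG hψ)]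
  exact hw ε hε hε1.2 g g hgm hgm hg0 A hgA hg0 (fun _ => le_rfl) K ψ hψ

end Pool.Agent.H85.DG
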